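import Pool.Agent.Lib.MP_140312_al_SG.AltFree

/-!
# The Bass–Serre graph is a tree
-/

namespace Pool.Agent.Lib.MP_140312_al_SG

open SimpleGraph

variable {G : Type*} [Group G] {Q : Bool → Subgroup G}

lemma BS_eq_of_mem {x y : Σ i : Bool, G ⧸ Q i} {g g' : G} (hx : x.2 = (g : G ⧸ Q x.1))
    (hy : y.2 = (g' : G ⧸ Q y.1)) (hxy : x.1 = y.1) (hg : g⁻¹ * g' ∈ Q x.1) : x = y := by
  obtain ⟨i, x⟩ := x
  obtain ⟨j, y⟩ := y
  dsimp only at hx hy hxy hg
  subst hxy hx hy
  rw [QuotientGroup.eq.2 hg]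

lemma bool_eq_not_of_ne {a b : Bool} (h : a ≠ b) : b = !a := by
  cases a <;> cases b <;> simp_all

lemma BS_mem_of_eq {x : Σ i : Bool, G ⧸ Q i} {g g' : G} (hx : x.2 = (g : G ⧸ Q x.1))
    (hy : x.2 = (g' : G ⧸ Q x.1)) : g⁻¹ * g' ∈ Q x.1 :=
  QuotientGroup.eq.1 (hx.symm.trans hy)

/-- A nonbacktracking walk in the Bass–Serre graph gives an alternating word. -/
lemma exists_wd_of_isPath : ∀ {x y : Σ i : Bool, G ⧸ Q i} (p : (BS Q).Walk x y), p.IsPath →
    ∀ (x₀ : Σ i : Bool, G ⧸ Q i) (g : G), x₀.2 = (g : G ⧸ Q x₀.1) → x.2 = (g : G ⧸ Q x.1) →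
      x₀.1 = !x.1 → p.snd ≠ x₀ → 0 < p.length →
      ∃ h : G, Wd Q x.1 p.length h ∧ y.2 = ((g * h : G) : G ⧸ Q y.1) := by
  intro x y p
  induction p with
  | nil =>
    intro _ x₀ g _ _ _ _ h
    simp at h
  | @cons x x' y h p ih =>
    intro hp x₀ g h0 hx hk hsnd _
    rw [Walk.snd_cons] at hsnd
    rw [Walk.cons_isPath_iff] at hp
    obtain ⟨hk', g', hgx, hgx'⟩ : x.1 ≠ x'.1 ∧ ∃ g : G, x.2 = (g : G ⧸ Q x.1) ∧
      x'.2 = (g : G ⧸ Q x'.1) := h
    have hk2 : x'.1 = !x.1 := bool_eq_not_of_ne hk'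
    have m1 : g⁻¹ * g' ∈ Q x.1 := BS_mem_of_eq hx hgx
    have m2 : g⁻¹ * g' ∉ Q (!x.1) := by
      intro hc
      rw [← hk] at hc
      exact hsnd (BS_eq_of_mem h0 hgx' (hk.trans hk2.symm) hc).symm
    cases p with
    | nil =>
      refine ⟨g⁻¹ * g', ?_, by rw [mul_inv_cancel_left]; exact hgx'⟩
      exact Wd.one m1 m2
    | cons h2 p =>
      obtain ⟨w, hw1, hw2⟩ := ih hp.1 x g' hgx hgx' (by rw [hk2, Bool.not_not]) (by
        intro hc
        apply hp.2
        rw [← hc]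
        exact Walk.getVert_mem_support _ 1) (by simp)
      refine ⟨g⁻¹ * g' * w, ?_, ?_⟩
      · exact Wd.cons' m1 m2 hw1 hk2
      · rw [hw2]
        congr 1
        group

theorem BS_isAcyclic (hQ : AltFree Q) : (BS Q).IsAcyclic := by
  intro v c hc
  cases c with
  | nil => exact hc.ne_nil rfl
  | @cons _ x _ hadj p =>
    have hp : p.IsPath := ((Walk.cons_isCycle_iff p hadj).1 hc).1
    have h3 := hc.three_le_length
    rw [Walk.length_cons] at h3
    obtain ⟨hk, g, hg0, hgx⟩ : v.1 ≠ x.1 ∧ ∃ g : G, v.2 = (g : G ⧸ Q v.1) ∧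
      x.2 = (g : G ⧸ Q x.1) := hadj
    have hk2 : v.1 = !x.1 := bool_eq_not_of_ne hk.symm
    obtain ⟨w, hw1, hw2⟩ := exists_wd_of_isPath p hp v g hg0 hgx hk2 (by
      intro hcv
      have h1 : p.getVert 1 = p.getVert p.length := by rw [Walk.getVert_length]; exact hcv
      have := hp.getVert_injOn (by simp; omega) (by simp) h1
      omega) (by omega)
    refine hQ.not_mem hw1 (by omega) (i := v.1) ?_
    have := BS_mem_of_eq hg0 hw2
    simpa using this

theorem BS_connected (hgen : Q false ⊔ Q true = ⊤) : (BS Q).Connected := by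
  have hadj : ∀ (i j : Bool) (a : G), (BS Q).Reachable ⟨i, (a : G ⧸ Q i)⟩ ⟨j, (a : G ⧸ Q j)⟩ := by
    intro i j a
    by_cases h : i = j
    · subst h
      exact Reachable.refl _
    · exact Adj.reachable ⟨h, a, rfl, rfl⟩
  have key : ∀ s : G, ∀ (i : Bool) (a : G), (BS Q).Reachable ⟨i, (a : G ⧸ Q i)⟩
      ⟨i, ((a * s : G) : G ⧸ Q i)⟩ := by
    intro s
    have hs : s ∈ Q false ⊔ Q true := by rw [hgen]; trivial
    rw [Subgroup.sup_eq_closure] at hs
    induction hs using Subgroup.closure_induction with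
    | mem s hs =>
      intro i a
      obtain ⟨j, hj⟩ : ∃ j, s ∈ Q j := by
        rcases hs with hs | hs
        · exact ⟨_, hs⟩
        · exact ⟨_, hs⟩
      have : (a : G ⧸ Q j) = ((a * s : G) : G ⧸ Q j) := by
        rw [QuotientGroup.eq]
        simpa using hj
      have h1 := hadj i j a
      rw [this] at h1
      exact h1.trans (hadj j i _)
    | one => intro i a; simp
    | mul s t _ _ hs ht =>
      intro i a
      rw [← mul_assoc]
      exact (hs i a).trans (ht i (a * s))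
    | inv s _ hs =>
      intro i a
      have := (hs i (a * s⁻¹)).symm
      simpa using this
  refine { preconnected := ?_, nonempty := ⟨⟨false, ((1 : G) : G ⧸ Q false)⟩⟩ }
  rintro ⟨i, x⟩ ⟨j, y⟩
  induction x using QuotientGroup.induction_on with
  | H a =>
    induction y using QuotientGroup.induction_on with
    | H b =>
      have h1 := key (a⁻¹ * b) i a
      rw [mul_inv_cancel_left] at h1
      exact h1.trans (hadj i j b)

theorem BS_isTree {Q : Bool → Subgroup G} (hQ : AltFree Q) (hgen : Q false ⊔ Q true = ⊤) :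
    (BS Q).IsTree :=
  ⟨BS_connected hgen, BS_isAcyclic hQ⟩

/-- The stabiliser of the edge `g`. -/
theorem BS_edge_unique {Q : Bool → Subgroup G} {g g' : G} (i : Bool)
    (h0 : (g : G ⧸ Q i) = (g' : G ⧸ Q i)) (h1 : (g : G ⧸ Q (!i)) = (g' : G ⧸ Q (!i))) :
    g⁻¹ * g' ∈ Q false ⊓ Q true := by
  have h2 := QuotientGroup.eq.1 h0
  have h3 := QuotientGroup.eq.1 h1
  cases i
  · exact ⟨h2, h3⟩
  · exact ⟨h3, h2⟩

end Pool.Agent.Lib.MP_140312_al_SG
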