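import Mathlib

/-!
# CAT(0) square complexes

The square complex of a graph `X` has the vertices and edges of `X` and one square for every
`4`-cycle of `X`. By Gromov's link condition it is CAT(0) iff it is simply connected and its vertex
links are flag; `IsCAT0SquareComplex X` spells this out.
-/

namespace Pool.Agent.Lib.MP_140312_al_SG

variable {V : Type*}

/-- The vertices `a, b, c, d` are, in this cyclic order, the vertices of a square of `X`. -/
def IsSq (X : SimpleGraph V) (a b c d : V) : Prop :=
  X.Adj a b ∧ X.Adj b c ∧ X.Adj c d ∧ X.Adj d a ∧ a ≠ c ∧ b ≠ d

/-- Homotopy (with fixed end points) of edge paths of the square complex of `X`: the equivalence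
relation, compatible with concatenation, generated by removing backtracks and by replacing two
consecutive sides of a square by the two other sides. -/
inductive Homotopic (X : SimpleGraph V) : ∀ {u v : V}, X.Walk u v → X.Walk u v → Prop
  | refl {u v : V} (p : X.Walk u v) : Homotopic X p p
  | symm {u v : V} {p q : X.Walk u v} : Homotopic X p q → Homotopic X q p
  | trans {u v : V} {p q r : X.Walk u v} : Homotopic X p q → Homotopic X q r → Homotopic X p r
  | append {u v w : V} {p p' : X.Walk u v} {q q' : X.Walk v w} :
      Homotopic X p p' → Homotopic X q q' → Homotopic X (p.append q) (p'.append q')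
  | backtrack {u v : V} (h : X.Adj u v) : Homotopic X (.cons h (.cons h.symm .nil)) .nil
  | square {a b c d : V} (h : IsSq X a b c d) : Homotopic X (.cons h.1 (.cons h.2.1 .nil))
      (.cons h.2.2.2.1.symm (.cons h.2.2.1.symm .nil))

/-- The square complex with `1`-skeleton `X` whose squares are the `4`-cycles of `X` is CAT(0): it is
connected and simply connected, and the link of every vertex is a flag simplicial graph, that
is, two edges at a vertex are in at most one common square, and there are no three edges at
a vertex which are pairwise in a common square. -/
structure IsCAT0SquareComplex (X : SimpleGraph V) : Prop where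
  connected : X.Connected
  simplyConnected : ∀ (v : V) (p : X.Walk v v), Homotopic X p .nil
  link_simple : ∀ v a b c c' : V, IsSq X v a c b → IsSq X v a c' b → c = c'
  link_flag : ∀ v a b c x y z : V, IsSq X v a x b → IsSq X v b y c → ¬ IsSq X v c z a

end Pool.Agent.Lib.MP_140312_al_SG
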