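import Mathlib

/-!
# Distances in trees
-/

namespace Pool.Agent.Lib.MP_140312_al_SG

open SimpleGraph

variable {S : Type*} {T : SimpleGraph S}

/-- In a connected graph, every vertex `w ≠ a` has a neighbour that is closer to `a`. -/
lemma exists_closer (hc : T.Connected) {a w : S} (h : a ≠ w) :
    ∃ u, T.Adj w u ∧ T.dist a w = T.dist a u + 1 := by
  obtain ⟨p, hp⟩ := hc.exists_walk_length_eq_dist w a
  cases p with
  | nil => exact absurd rfl h
  | cons hadj q =>
    rename_i u
    refine ⟨u, hadj, ?_⟩
    have h1 : T.dist u a ≤ q.length := SimpleGraph.dist_le q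
    have h2 : q.length + 1 = T.dist w a := by simpa using hp
    have h3 : T.dist w a ≤ T.dist w u + T.dist u a := hc.dist_triangle
    have h4 : T.dist w u = 1 := dist_eq_one_iff_adj.2 hadj
    have h5 : T.dist a w = T.dist w a := SimpleGraph.dist_comm
    have h6 : T.dist a u = T.dist u a := SimpleGraph.dist_comm
    omega

lemma tree_adj_dist (hT : T.IsTree) (a : S) {u w : S} (h : T.Adj u w) :
    T.dist a u = T.dist a w + 1 ∨ T.dist a w = T.dist a u + 1 :=
  hT.dist_eq_dist_add_one_of_adj a h

lemma tree_path_unique (hT : T.IsTree) {a b : S} (p q : T.Walk a b)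
    (hp : p.length = T.dist a b) (hq : q.length = T.dist a b) : p = q := by
  have h1 := Walk.isPath_of_length_eq_dist p hp
  have h2 := Walk.isPath_of_length_eq_dist q hq
  exact Subtype.mk.inj <| (hT.isAcyclic.subsingleton_path a b).elim ⟨p, h1⟩ ⟨q, h2⟩

/-- In a tree the point on the geodesic at a given distance is unique. -/
lemma tree_point_unique (hT : T.IsTree) {a b s s' : S}
    (h : T.dist a s + T.dist s b = T.dist a b) (h' : T.dist a s' + T.dist s' b = T.dist a b)
    (hd : T.dist a s = T.dist a s') : s = s' := by
  obtain ⟨p, hp⟩ := hT.connected.exists_walk_length_eq_dist a s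
  obtain ⟨q, hq⟩ := hT.connected.exists_walk_length_eq_dist s b
  obtain ⟨p', hp'⟩ := hT.connected.exists_walk_length_eq_dist a s'
  obtain ⟨q', hq'⟩ := hT.connected.exists_walk_length_eq_dist s' b
  have key := tree_path_unique hT (p.append q) (p'.append q')
    (by rw [Walk.length_append, hp, hq, h]) (by rw [Walk.length_append, hp', hq', h'])
  have h1 : (p.append q).getVert (T.dist a s) = s := by
    rw [Walk.getVert_append]; simp [hp]
  have h2 : (p'.append q').getVert (T.dist a s) = s' := by
    rw [Walk.getVert_append]; simp [hp', hd]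
  rw [← h1, ← h2, key]

/-- In a tree the neighbour closer to `a` is unique. -/
lemma tree_closer_unique (hT : T.IsTree) {a w u u' : S} (h : T.Adj w u) (h' : T.Adj w u')
    (hd : T.dist a w = T.dist a u + 1) (hd' : T.dist a w = T.dist a u' + 1) : u = u' := by
  have h1 : T.dist w u = 1 := dist_eq_one_iff_adj.2 h
  have h2 : T.dist w u' = 1 := dist_eq_one_iff_adj.2 h'
  have c1 : T.dist w u = T.dist u w := SimpleGraph.dist_comm
  have c2 : T.dist w u' = T.dist u' w := SimpleGraph.dist_comm
  exact tree_point_unique hT (a := a) (b := w) (by omega) (by omega) (by omega)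

/-- Two points separated by an edge of a tree: the geodesic crosses the edge. -/
lemma tree_sep (hT : T.IsTree) {s s' a : S} (h : T.Adj s s')
    (ha : T.dist a s' = T.dist a s + 1) :
    ∀ (n : ℕ) (u : S), T.dist u s' = n → T.dist u s = T.dist u s' + 1 →
      T.dist a u = T.dist a s + 1 + T.dist u s' := by
  intro n
  induction n with
  | zero =>
    intro u hu _
    have : u = s' := hT.connected.dist_eq_zero_iff.1 hu
    subst this
    simp [ha]
  | succ n ih =>
    intro u hu hus
    have hne : s' ≠ u := by
      rintro rfl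
      simp at hu
    obtain ⟨u', hadj, hu'⟩ := exists_closer hT.connected hne
    have c1 : T.dist s' u = T.dist u s' := SimpleGraph.dist_comm
    have c2 : T.dist s' u' = T.dist u' s' := SimpleGraph.dist_comm
    have c3 : T.dist u u' = 1 := dist_eq_one_iff_adj.2 hadj
    have c4 : T.dist s' s = 1 := dist_eq_one_iff_adj.2 h.symm
    have t1 : T.dist u s ≤ T.dist u u' + T.dist u' s := hT.connected.dist_triangle
    have t2 : T.dist u' s ≤ T.dist u' s' + T.dist s' s := hT.connected.dist_triangle
    have e1 : T.dist u' s' = n := by omega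
    have e2 : T.dist u' s = T.dist u' s' + 1 := by omega
    have IH := ih u' e1 e2
    rcases tree_adj_dist hT a hadj with h1 | h1
    · omega
    · exfalso
      have hne' : s ≠ u' := by
        rintro rfl
        simp at e2
      obtain ⟨u'', hadj', hu''⟩ := exists_closer hT.connected hne'
      have c5 : T.dist s u' = T.dist u' s := SimpleGraph.dist_comm
      have t3 : T.dist a u'' ≤ T.dist a s + T.dist s u'' := hT.connected.dist_triangle
      have t4 : T.dist a u' ≤ T.dist a u'' + T.dist u'' u' := hT.connected.dist_triangle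
      have c6 : T.dist u'' u' = 1 := dist_eq_one_iff_adj.2 hadj'.symm
      have : u = u'' := tree_closer_unique hT (a := a) (w := u') hadj.symm hadj' h1 (by omega)
      subst this
      have c7 : T.dist s u = T.dist u s := SimpleGraph.dist_comm
      omega

/-- If the point `m` is not between `a` and `b`, some neighbour of `m` is closer to both. -/
lemma tree_common_closer (hT : T.IsTree) {a b m : S}
    (h : T.dist a m + T.dist m b ≠ T.dist a b) :
    ∃ s, T.Adj m s ∧ T.dist a m = T.dist a s + 1 ∧ T.dist b m = T.dist b s + 1 := by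
  have ha : a ≠ m := by
    rintro rfl
    simp at h
  have hb : b ≠ m := by
    rintro rfl
    simp at h
  obtain ⟨s, hs, hs'⟩ := exists_closer hT.connected ha
  obtain ⟨t, ht, ht'⟩ := exists_closer hT.connected hb
  rcases tree_adj_dist hT a ht with h1 | h1
  · have : s = t := tree_closer_unique hT hs ht hs' h1
    subst this
    exact ⟨s, hs, hs', ht'⟩
  · exfalso
    have := tree_sep hT ht h1 _ b rfl ht'
    have c : T.dist m b = T.dist b m := SimpleGraph.dist_comm
    omega

/-- Medians exist in trees. -/
lemma tree_median (hT : T.IsTree) (a b c : S) :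
    ∃ m, T.dist a m + T.dist m b = T.dist a b ∧ T.dist b m + T.dist m c = T.dist b c ∧
      T.dist a m + T.dist m c = T.dist a c := by
  classical
  let F : S → ℕ := fun m => T.dist a m + T.dist b m + T.dist c m
  have hne : (Set.univ : Set S).Nonempty := ⟨a, trivial⟩
  obtain ⟨m, hm⟩ : ∃ m, ∀ m', F m ≤ F m' := by
    have : ∃ n, ∃ m, F m = n := ⟨_, a, rfl⟩
    obtain ⟨m, hm⟩ := Nat.find_spec this
    refine ⟨m, fun m' => ?_⟩
    rw [hm]
    exact Nat.find_min' this ⟨m', rfl⟩
  have key : ∀ s, T.Adj m s → ∀ e, T.dist e s ≤ T.dist e m + 1 := by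
    intro s hs e
    have t1 : T.dist e s ≤ T.dist e m + T.dist m s := hT.connected.dist_triangle
    have c1 : T.dist m s = 1 := dist_eq_one_iff_adj.2 hs
    omega
  refine ⟨m, ?_, ?_, ?_⟩
  · by_contra h
    obtain ⟨s, hs, h1, h2⟩ := tree_common_closer hT h
    have h3 := key s hs c
    have h4 := hm s
    simp only [F] at h4
    omega
  · by_contra h
    obtain ⟨s, hs, h1, h2⟩ := tree_common_closer hT h
    have h3 := key s hs a
    have h4 := hm s
    simp only [F] at h4
    omega
  · by_contra h
    obtain ⟨s, hs, h1, h2⟩ := tree_common_closer hT h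
    have h3 := key s hs b
    have h4 := hm s
    simp only [F] at h4
    omega

/-- Medians are unique in trees. -/
lemma tree_median_unique (hT : T.IsTree) {a b c m m' : S}
    (h1 : T.dist a m + T.dist m b = T.dist a b) (h2 : T.dist b m + T.dist m c = T.dist b c)
    (h3 : T.dist a m + T.dist m c = T.dist a c)
    (h1' : T.dist a m' + T.dist m' b = T.dist a b) (h2' : T.dist b m' + T.dist m' c = T.dist b c)
    (h3' : T.dist a m' + T.dist m' c = T.dist a c) : m = m' := by
  refine tree_point_unique hT h1 h1' ?_
  have c1 : T.dist m b = T.dist b m := SimpleGraph.dist_comm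
  have c2 : T.dist m' b = T.dist b m' := SimpleGraph.dist_comm
  omega

end Pool.Agent.Lib.MP_140312_al_SG
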