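import Pool.Agent.Lib.MP_140312_al.Defs
import Pool.Agent.Lib.MP_140312_al_SG.Tree

/-!
# Graphs that are locally products of trees

`BiTree` : the vertices of `X` are mapped to two trees; the edges of `X` are of two kinds
(horizontal: the edges of `Xh`; vertical: the edges of `Xv`), both projections are locally
injective and have connected fibres. Then `X` is a median graph, with the metric of the product
of the two trees.
-/

namespace Pool.Agent.Lib.MP_140312_al_SG

open SimpleGraph Pool.Agent.Lib.MP_140312_al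

variable {V S T : Type*}

/-- The data of the abstract median theorem. -/
structure BiTree (X Xh Xv : SimpleGraph V) (Th : SimpleGraph S) (Tv : SimpleGraph T)
    (ph : V → S) (pv : V → T) : Prop where
  treeH : Th.IsTree
  treeV : Tv.IsTree
  conn : X.Connected
  adj_iff : ∀ x y, X.Adj x y ↔ Xh.Adj x y ∨ Xv.Adj x y
  hadj : ∀ {x y}, Xh.Adj x y → Th.Adj (ph x) (ph y)
  hpv : ∀ {x y}, Xh.Adj x y → pv x = pv y
  vadj : ∀ {x y}, Xv.Adj x y → Tv.Adj (pv x) (pv y)
  vph : ∀ {x y}, Xv.Adj x y → ph x = ph y
  hinj : ∀ {x y y'}, Xh.Adj x y → Xh.Adj x y' → ph y = ph y' → y = y'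
  vinj : ∀ {x y y'}, Xv.Adj x y → Xv.Adj x y' → pv y = pv y' → y = y'
  hfib : ∀ {x y}, pv x = pv y → Xh.Reachable x y
  vfib : ∀ {x y}, ph x = ph y → Xv.Reachable x y

namespace BiTree

variable {X Xh Xv : SimpleGraph V} {Th : SimpleGraph S} {Tv : SimpleGraph T}
  {ph : V → S} {pv : V → T}

lemma swap (hB : BiTree X Xh Xv Th Tv ph pv) : BiTree X Xv Xh Tv Th pv ph where
  treeH := hB.treeV
  treeV := hB.treeH
  conn := hB.conn
  adj_iff x y := (hB.adj_iff x y).trans or_comm
  hadj := hB.vadj
  hpv := hB.vph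
  vadj := hB.hadj
  vph := hB.hpv
  hinj := hB.vinj
  vinj := hB.hinj
  hfib := hB.vfib
  vfib := hB.hfib

/-- In a fibre of `pv` the horizontal distance is the distance of the projections. -/
lemma hdist (hB : BiTree X Xh Xv Th Tv ph pv) {x : V} :
    ∀ (n : ℕ) (y : V), Xh.Reachable x y → Xh.dist x y = n → Th.dist (ph x) (ph y) = n := by
  intro n
  induction n using Nat.strong_induction_on with
  | _ n ih =>
    intro y hr hxy
    by_cases hne : x = y
    · subst hne
      simp at hxy
      simp [← hxy]
    -- the previous vertex of a geodesic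
    obtain ⟨p, hp⟩ := hr.symm.exists_walk_length_eq_dist
    have cxy : Xh.dist y x = Xh.dist x y := SimpleGraph.dist_comm
    cases p with
    | nil => exact absurd rfl hne
    | cons hadj q =>
      rename_i z
      have hq : Xh.dist z x ≤ q.length := SimpleGraph.dist_le q
      have hlen : q.length + 1 = Xh.dist y x := by simpa using hp
      have hyz : Xh.dist y z = 1 := dist_eq_one_iff_adj.2 hadj
      have tri : Xh.dist y x ≤ Xh.dist y z + Xh.dist z x :=
        hadj.reachable.dist_triangle_left x
      have hzn : Xh.dist x z + 1 = n := by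
        have c : Xh.dist x z = Xh.dist z x := SimpleGraph.dist_comm
        omega
      have hzr : Xh.Reachable x z := hr.trans hadj.reachable
      have IHz := ih (Xh.dist x z) (by omega) z hzr rfl
      rcases tree_adj_dist hB.treeH (ph x) (hB.hadj hadj) with h1 | h1
      · omega
      · exfalso
        -- `ph y` is closer to `ph x` than `ph z`
        have hxz : x ≠ z := by
          rintro rfl
          simp at h1
        obtain ⟨p', hp'⟩ := hzr.symm.exists_walk_length_eq_dist
        cases p' with
        | nil => exact absurd rfl hxz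
        | cons hadj' q' =>
          rename_i w
          have hq' : Xh.dist w x ≤ q'.length := SimpleGraph.dist_le q'
          have hlen' : q'.length + 1 = Xh.dist z x := by simpa using hp'
          have hzw : Xh.dist z w = 1 := dist_eq_one_iff_adj.2 hadj'
          have tri' : Xh.dist z x ≤ Xh.dist z w + Xh.dist w x :=
            hadj'.reachable.dist_triangle_left x
          have c1 : Xh.dist x z = Xh.dist z x := SimpleGraph.dist_comm
          have c2 : Xh.dist x w = Xh.dist w x := SimpleGraph.dist_comm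
          have hwr : Xh.Reachable x w := hzr.trans hadj'.reachable
          have IHw := ih (Xh.dist x w) (by omega) w hwr rfl
          have : ph y = ph w := tree_closer_unique hB.treeH (a := ph x) (w := ph z)
            (hB.hadj hadj.symm) (hB.hadj hadj') (by omega) (by omega)
          have hyw : y = w := hB.hinj hadj.symm hadj' this
          subst hyw
          omega

lemma hdist_eq (hB : BiTree X Xh Xv Th Tv ph pv) {x y : V} (h : pv x = pv y) :
    Xh.dist x y = Th.dist (ph x) (ph y) :=
  (hB.hdist _ y (hB.hfib h) rfl).symm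

lemma vdist_eq (hB : BiTree X Xh Xv Th Tv ph pv) {x y : V} (h : ph x = ph y) :
    Xv.dist x y = Tv.dist (pv x) (pv y) :=
  hB.swap.hdist_eq h

/-- A vertex is determined by its two projections. -/
lemma eq_of_proj (hB : BiTree X Xh Xv Th Tv ph pv) {x y : V} (h : ph x = ph y)
    (h' : pv x = pv y) : x = y := by
  have h1 := hB.hdist_eq h'
  rw [h] at h1
  simp only [SimpleGraph.dist_self] at h1
  exact (hB.hfib h').dist_eq_zero_iff.1 h1

lemma le_X (hB : BiTree X Xh Xv Th Tv ph pv) : Xh ≤ X := by
  intro x y h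
  exact (hB.adj_iff x y).2 (Or.inl h)

lemma dist_le_h (hB : BiTree X Xh Xv Th Tv ph pv) {x y : V} (h : pv x = pv y) :
    X.dist x y ≤ Th.dist (ph x) (ph y) := by
  rw [← hB.hdist_eq h]
  exact (hB.hfib h).dist_anti hB.le_X

lemma dist_le_v (hB : BiTree X Xh Xv Th Tv ph pv) {x y : V} (h : ph x = ph y) :
    X.dist x y ≤ Tv.dist (pv x) (pv y) :=
  hB.swap.dist_le_h h

/-- The lower bound for the distance. -/
lemma le_dist (hB : BiTree X Xh Xv Th Tv ph pv) (x y : V) :
    Th.dist (ph x) (ph y) + Tv.dist (pv x) (pv y) ≤ X.dist x y := by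
  obtain ⟨p, hp⟩ := hB.conn.exists_walk_length_eq_dist x y
  rw [← hp]
  clear hp
  induction p with
  | nil => simp
  | cons hadj q ih =>
    rename_i u v w
    rw [Walk.length_cons]
    have t1 : Th.dist (ph u) (ph w) ≤ Th.dist (ph u) (ph v) + Th.dist (ph v) (ph w) :=
      hB.treeH.connected.dist_triangle
    have t2 : Tv.dist (pv u) (pv w) ≤ Tv.dist (pv u) (pv v) + Tv.dist (pv v) (pv w) :=
      hB.treeV.connected.dist_triangle
    rcases (hB.adj_iff _ _).1 hadj with h | h
    · have h1 : Th.dist (ph u) (ph v) = 1 := dist_eq_one_iff_adj.2 (hB.hadj h)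
      have h2 : Tv.dist (pv u) (pv v) = 0 := by rw [hB.hpv h]; simp
      omega
    · have h1 : Tv.dist (pv u) (pv v) = 1 := dist_eq_one_iff_adj.2 (hB.vadj h)
      have h2 : Th.dist (ph u) (ph v) = 0 := by rw [hB.vph h]; simp
      omega

/-- The first horizontal edge of a geodesic. -/
lemma first_h (hB : BiTree X Xh Xv Th Tv ph pv) {y : V} :
    ∀ (n : ℕ) (x : V), X.dist x y = n → ph x ≠ ph y →
      ∃ z z', ph z = ph x ∧ Xh.Adj z z' ∧ X.dist x y = X.dist x z + 1 + X.dist z' y := by
  intro n
  induction n with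
  | zero =>
    intro x hx hne
    have : x = y := hB.conn.dist_eq_zero_iff.1 hx
    exact absurd (by rw [this]) hne
  | succ n ih =>
    intro x hx hne
    have hne' : y ≠ x := by
      rintro rfl
      exact hne rfl
    obtain ⟨w, hadj, hw⟩ := exists_closer hB.conn hne'
    have c1 : X.dist y x = X.dist x y := SimpleGraph.dist_comm
    have c2 : X.dist y w = X.dist w y := SimpleGraph.dist_comm
    rcases (hB.adj_iff _ _).1 hadj with h | h
    · refine ⟨x, w, rfl, h, ?_⟩
      simp only [SimpleGraph.dist_self]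
      omega
    · have hph : ph x = ph w := hB.vph h
      obtain ⟨z, z', hz, hzz', hd⟩ := ih w (by omega) (by rw [← hph]; exact hne)
      refine ⟨z, z', by rw [hz, hph], hzz', ?_⟩
      have t1 : X.dist x z ≤ X.dist x w + X.dist w z := hB.conn.dist_triangle
      have c3 : X.dist x w = 1 := dist_eq_one_iff_adj.2 hadj
      have t2 : X.dist x y ≤ X.dist x z + X.dist z y := hB.conn.dist_triangle
      have t3 : X.dist z y ≤ X.dist z z' + X.dist z' y := hB.conn.dist_triangle
      have c4 : X.dist z z' = 1 := dist_eq_one_iff_adj.2 (hB.le_X hzz')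
      omega

/-- The inductive step of the distance formula when the first edge is horizontal. -/
lemma dist_step (hB : BiTree X Xh Xv Th Tv ph pv) {n : ℕ}
    (ih : ∀ x y, X.dist x y < n → X.dist x y = Th.dist (ph x) (ph y) + Tv.dist (pv x) (pv y))
    {x x₁ y : V} (hxy : X.dist x y = n) (hadj : Xh.Adj x x₁) (h1 : X.dist x y = X.dist x₁ y + 1) :
    X.dist x y = Th.dist (ph x) (ph y) + Tv.dist (pv x) (pv y) := by
  have f1 := ih x₁ y (by omega)
  have hpv : pv x = pv x₁ := hB.hpv hadj
  have c1 : Th.dist (ph x) (ph y) = Th.dist (ph y) (ph x) := SimpleGraph.dist_comm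
  have c2 : Th.dist (ph x₁) (ph y) = Th.dist (ph y) (ph x₁) := SimpleGraph.dist_comm
  rcases tree_adj_dist hB.treeH (ph y) (hB.hadj hadj) with h2 | h2
  · rw [hpv]
    omega
  · exfalso
    have hne : ph x₁ ≠ ph y := by
      intro h
      rw [h] at h2
      simp at h2
    obtain ⟨z, z', hz, hzz', hd⟩ := hB.first_h _ x₁ rfl hne
    have t1 : X.dist z y ≤ X.dist z z' + X.dist z' y := hB.conn.dist_triangle
    have c4 : X.dist z z' = 1 := dist_eq_one_iff_adj.2 (hB.le_X hzz')
    have t2 : X.dist x₁ y ≤ X.dist x₁ z + X.dist z y := hB.conn.dist_triangle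
    have f2 := ih z y (by omega)
    have f3 := ih z' y (by omega)
    have hpz : pv z = pv z' := hB.hpv hzz'
    rw [hpz] at f2
    have c5 : Th.dist (ph z) (ph y) = Th.dist (ph y) (ph z) := SimpleGraph.dist_comm
    have c6 : Th.dist (ph z') (ph y) = Th.dist (ph y) (ph z') := SimpleGraph.dist_comm
    have a1 : Th.Adj (ph x₁) (ph z') := by
      rw [← hz]
      exact hB.hadj hzz'
    have key : ph x = ph z' := tree_closer_unique hB.treeH (a := ph y) (w := ph x₁)
      (hB.hadj hadj.symm) a1 h2 (by rw [← hz]; omega)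
    have u1 : X.dist x z' ≤ Tv.dist (pv x) (pv z') := hB.dist_le_v key
    have u2 : Tv.dist (pv x) (pv z') ≤ X.dist x₁ z := by
      rw [hpv, ← hpz]
      have := hB.le_dist x₁ z
      omega
    have t3 : X.dist x y ≤ X.dist x z' + X.dist z' y := hB.conn.dist_triangle
    omega

/-- The distance formula. -/
theorem dist_formula (hB : BiTree X Xh Xv Th Tv ph pv) (x y : V) :
    X.dist x y = Th.dist (ph x) (ph y) + Tv.dist (pv x) (pv y) := by
  suffices h : ∀ (n : ℕ) (x y : V), X.dist x y = n →
      X.dist x y = Th.dist (ph x) (ph y) + Tv.dist (pv x) (pv y) from h _ x y rfl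
  intro n
  induction n using Nat.strong_induction_on with
  | _ n ih =>
    intro x y hxy
    by_cases hne : y = x
    · subst hne
      simp
    obtain ⟨w, hadj, hw⟩ := exists_closer hB.conn hne
    have c1 : X.dist y x = X.dist x y := SimpleGraph.dist_comm
    have c2 : X.dist y w = X.dist w y := SimpleGraph.dist_comm
    rcases (hB.adj_iff _ _).1 hadj with h | h
    · exact hB.dist_step (fun a b hab => ih _ hab a b rfl) hxy h (by omega)
    · have := hB.swap.dist_step (n := n)
        (fun a b hab => by rw [ih _ hab a b rfl, add_comm]) hxy h (by omega)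
      omega

/-- Fibres of `ph` project onto convex sets of the vertical tree. -/
lemma fibre_between (hB : BiTree X Xh Xv Th Tv ph pv) {a b : V} (hab : ph a = ph b) {t : T}
    (ht : Tv.dist (pv a) t + Tv.dist t (pv b) = Tv.dist (pv a) (pv b)) :
    ∃ c, ph c = ph a ∧ pv c = t := by
  obtain ⟨p, hp⟩ := (hB.vfib hab).exists_walk_length_eq_dist
  rw [hB.vdist_eq hab] at hp
  set k := Tv.dist (pv a) t with hk
  have hkl : k ≤ p.length := by omega
  set c := p.getVert k with hc
  have r1 : Xv.Reachable a c := ⟨p.take k⟩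
  have r2 : Xv.Reachable c b := ⟨p.drop k⟩
  have l1 : Xv.dist a c ≤ k := by
    refine (SimpleGraph.dist_le (p.take k)).trans ?_
    rw [Walk.take_length]
    exact min_le_left _ _
  have l2 : Xv.dist c b ≤ p.length - k := by
    refine (SimpleGraph.dist_le (p.drop k)).trans ?_
    rw [Walk.drop_length]
  have phc : ph a = ph c := by
    have : ∀ {u v : V}, Xv.Walk u v → ph u = ph v := by
      intro u v q
      induction q with
      | nil => rfl
      | cons h _ ih => rw [hB.vph h, ih]
    exact this (p.take k)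
  have e1 := hB.vdist_eq phc
  have e2 := hB.vdist_eq (phc.symm.trans hab)
  have t1 : Tv.dist (pv a) (pv b) ≤ Tv.dist (pv a) (pv c) + Tv.dist (pv c) (pv b) :=
    hB.treeV.connected.dist_triangle
  refine ⟨c, phc.symm, ?_⟩
  exact tree_point_unique hB.treeV (a := pv a) (b := pv b) (by omega) ht (by omega)

/-- The strip over an edge of the horizontal tree is convex. -/
lemma strip (hB : BiTree X Xh Xv Th Tv ph pv) {x x' y y' w : V} (hx : Xh.Adj x x')
    (hxy' : ph x' = ph y') (hy : Xh.Adj y y') (hw : ph w = ph x)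
    (hb : Tv.dist (pv x) (pv w) + Tv.dist (pv w) (pv y) = Tv.dist (pv x) (pv y)) :
    ∃ w', Xh.Adj w w' ∧ ph w' = ph x' := by
  rw [hB.hpv hx, hB.hpv hy] at hb
  obtain ⟨c, hc, hc'⟩ := hB.fibre_between hxy' hb
  refine ⟨c, ?_, hc⟩
  rw [← dist_eq_one_iff_adj, hB.hdist_eq hc'.symm, hw, hc, dist_eq_one_iff_adj]
  exact hB.hadj hx

/-- Moving towards two of three points. -/
lemma crossing (hB : BiTree X Xh Xv Th Tv ph pv) {m x y : V} {s : S} (hs : Th.Adj (ph m) s)
    (hx : Th.dist (ph x) (ph m) = Th.dist (ph x) s + 1)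
    (hy : Th.dist (ph y) (ph m) = Th.dist (ph y) s + 1) (z : V) :
    ∃ w, X.dist x w + X.dist y w + X.dist z w < X.dist x m + X.dist y m + X.dist z m := by
  -- the two crossing edges
  have aux : ∀ x : V, Th.dist (ph x) (ph m) = Th.dist (ph x) s + 1 →
      ∃ a a', ph a = ph m ∧ Xh.Adj a a' ∧ ph a' = s ∧
        Tv.dist (pv m) (pv a) + Tv.dist (pv a) (pv x) = Tv.dist (pv m) (pv x) := by
    intro x hx
    have hne : ph m ≠ ph x := by
      intro h
      rw [h] at hx
      simp at hx
    obtain ⟨a, a', ha, haa', hd⟩ := hB.first_h _ m rfl hne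
    have hpa : pv a = pv a' := hB.hpv haa'
    rw [hB.dist_formula m x, hB.dist_formula m a, hB.dist_formula a' x, ← hpa, ha] at hd
    simp only [SimpleGraph.dist_self] at hd
    have t1 : Tv.dist (pv m) (pv x) ≤ Tv.dist (pv m) (pv a) + Tv.dist (pv a) (pv x) :=
      hB.treeV.connected.dist_triangle
    have t2 : Th.dist (ph m) (ph x) ≤ Th.dist (ph m) (ph a') + Th.dist (ph a') (ph x) :=
      hB.treeH.connected.dist_triangle
    have a1 : Th.Adj (ph m) (ph a') := by
      rw [← ha]
      exact hB.hadj haa'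
    have c3 : Th.dist (ph m) (ph a') = 1 := dist_eq_one_iff_adj.2 a1
    have c4 : Th.dist (ph m) (ph x) = Th.dist (ph x) (ph m) := SimpleGraph.dist_comm
    have c5 : Th.dist (ph a') (ph x) = Th.dist (ph x) (ph a') := SimpleGraph.dist_comm
    refine ⟨a, a', ha, haa', ?_, by omega⟩
    exact tree_closer_unique hB.treeH (a := ph x) (w := ph m) a1 hs (by omega) hx
  obtain ⟨a, a', ha, haa', hsa, hda⟩ := aux x hx
  obtain ⟨b, b', hb, hbb', hsb, hdb⟩ := aux y hy
  obtain ⟨t, ht1, ht2, ht3⟩ := tree_median hB.treeV (pv m) (pv a) (pv b)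
  obtain ⟨w, hw, hwt⟩ := hB.fibre_between (a := m) (b := a) (t := t) ha.symm ht1
  subst hwt
  obtain ⟨w', hww', hw's⟩ := hB.strip (w := w) haa' (hsa.trans hsb.symm) hbb'
    (hw.trans ha.symm) ht2
  rw [hsa] at hw's
  have hpw : pv w = pv w' := hB.hpv hww'
  refine ⟨w', ?_⟩
  rw [hB.dist_formula x w', hB.dist_formula y w', hB.dist_formula z w', hB.dist_formula x m,
    hB.dist_formula y m, hB.dist_formula z m, hw's, ← hpw]
  have t1 : Tv.dist (pv x) (pv w) ≤ Tv.dist (pv x) (pv a) + Tv.dist (pv a) (pv w) :=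
    hB.treeV.connected.dist_triangle
  have t2 : Tv.dist (pv y) (pv w) ≤ Tv.dist (pv y) (pv b) + Tv.dist (pv b) (pv w) :=
    hB.treeV.connected.dist_triangle
  have t3 : Tv.dist (pv z) (pv w) ≤ Tv.dist (pv z) (pv m) + Tv.dist (pv m) (pv w) :=
    hB.treeV.connected.dist_triangle
  have t4 : Th.dist (ph z) s ≤ Th.dist (ph z) (ph m) + Th.dist (ph m) s :=
    hB.treeH.connected.dist_triangle
  have c0 : Th.dist (ph m) s = 1 := dist_eq_one_iff_adj.2 hs
  have c1 : Tv.dist (pv x) (pv a) = Tv.dist (pv a) (pv x) := SimpleGraph.dist_comm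
  have c2 : Tv.dist (pv y) (pv b) = Tv.dist (pv b) (pv y) := SimpleGraph.dist_comm
  have c3 : Tv.dist (pv a) (pv w) = Tv.dist (pv w) (pv a) := SimpleGraph.dist_comm
  have c4 : Tv.dist (pv b) (pv w) = Tv.dist (pv w) (pv b) := SimpleGraph.dist_comm
  have c5 : Tv.dist (pv m) (pv x) = Tv.dist (pv x) (pv m) := SimpleGraph.dist_comm
  have c6 : Tv.dist (pv m) (pv y) = Tv.dist (pv y) (pv m) := SimpleGraph.dist_comm
  omega

/-- A minimiser of the sum of the distances is between each two of the points, horizontally. -/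
lemma min_between (hB : BiTree X Xh Xv Th Tv ph pv) {m x y z : V}
    (hm : ∀ w, X.dist x m + X.dist y m + X.dist z m ≤ X.dist x w + X.dist y w + X.dist z w) :
    Th.dist (ph x) (ph m) + Th.dist (ph m) (ph y) = Th.dist (ph x) (ph y) := by
  by_contra h
  obtain ⟨s, hs, h1, h2⟩ := tree_common_closer hB.treeH h
  obtain ⟨w, hw⟩ := hB.crossing hs h1 h2 z
  have := hm w
  omega

/-- **The abstract median theorem.** -/
theorem isMedianGraph (hB : BiTree X Xh Xv Th Tv ph pv) : IsMedianGraph X := by
  refine ⟨hB.conn, fun x y z => ?_⟩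
  classical
  obtain ⟨m, hm⟩ : ∃ m, ∀ w, X.dist x m + X.dist y m + X.dist z m ≤
      X.dist x w + X.dist y w + X.dist z w := by
    have : ∃ n, ∃ m, X.dist x m + X.dist y m + X.dist z m = n := ⟨_, x, rfl⟩
    obtain ⟨m, hm⟩ := Nat.find_spec this
    refine ⟨m, fun m' => ?_⟩
    rw [hm]
    exact Nat.find_min' this ⟨m', rfl⟩
  have between : ∀ a b, Th.dist (ph a) (ph m) + Th.dist (ph m) (ph b) = Th.dist (ph a) (ph b) →
      Tv.dist (pv a) (pv m) + Tv.dist (pv m) (pv b) = Tv.dist (pv a) (pv b) →
      X.dist a m + X.dist m b = X.dist a b := by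
    intro a b h1 h2
    rw [hB.dist_formula, hB.dist_formula, hB.dist_formula a b]
    omega
  refine ⟨m, ⟨?_, ?_, ?_⟩, ?_⟩
  · exact between x y (hB.min_between hm) (hB.swap.min_between hm)
  · have hm' : ∀ w, X.dist y m + X.dist z m + X.dist x m ≤
        X.dist y w + X.dist z w + X.dist x w := fun w => by have := hm w; omega
    exact between y z (hB.min_between hm') (hB.swap.min_between hm')
  · have hm' : ∀ w, X.dist x m + X.dist z m + X.dist y m ≤
        X.dist x w + X.dist z w + X.dist y w := fun w => by have := hm w; omega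
    exact between x z (hB.min_between hm') (hB.swap.min_between hm')
  · rintro m' ⟨h1, h2, h3⟩
    have hm0 : X.dist x m + X.dist m y = X.dist x y :=
      between x y (hB.min_between hm) (hB.swap.min_between hm)
    have split : ∀ a b c, X.dist a c + X.dist c b = X.dist a b →
        Th.dist (ph a) (ph c) + Th.dist (ph c) (ph b) = Th.dist (ph a) (ph b) ∧
        Tv.dist (pv a) (pv c) + Tv.dist (pv c) (pv b) = Tv.dist (pv a) (pv b) := by
      intro a b c h
      rw [hB.dist_formula, hB.dist_formula, hB.dist_formula a b] at h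
      have t1 : Th.dist (ph a) (ph b) ≤ Th.dist (ph a) (ph c) + Th.dist (ph c) (ph b) :=
        hB.treeH.connected.dist_triangle
      have t2 : Tv.dist (pv a) (pv b) ≤ Tv.dist (pv a) (pv c) + Tv.dist (pv c) (pv b) :=
        hB.treeV.connected.dist_triangle
      omega
    have hmyz : ∀ w, X.dist y m + X.dist z m + X.dist x m ≤
        X.dist y w + X.dist z w + X.dist x w := fun w => by have := hm w; omega
    have hmxz : ∀ w, X.dist x m + X.dist z m + X.dist y m ≤
        X.dist x w + X.dist z w + X.dist y w := fun w => by have := hm w; omega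
    refine hB.eq_of_proj ?_ ?_
    · exact tree_median_unique hB.treeH (split _ _ _ h1).1 (split _ _ _ h2).1 (split _ _ _ h3).1
        (hB.min_between hm) (hB.min_between hmyz) (hB.min_between hmxz)
    · exact tree_median_unique hB.treeV (split _ _ _ h1).2 (split _ _ _ h2).2 (split _ _ _ h3).2
        (hB.swap.min_between hm) (hB.swap.min_between hmyz) (hB.swap.min_between hmxz)

end BiTree

end Pool.Agent.Lib.MP_140312_al_SG
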