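import Pool.Agent.Lib.MP_140312_al.Basic
import Pool.Agent.Lib.MP_140312_al_SG.Median
import Pool.Agent.Lib.MP_140312_al_SG.CAT0Defs

/-!
# CAT(0) square complexes

The square complex of a graph `X` has the `4`-cycles of `X` as its squares. It is CAT(0) iff it is
simply connected and its vertex links are flag (Gromov's link condition): the combinatorial
form of this condition is `IsCAT0SquareComplex`. We show it for the graphs of `BiTree`.
-/

namespace Pool.Agent.Lib.MP_140312_al_SG

open SimpleGraph Pool.Agent.Lib.MP_140312_al

variable {V S T : Type*} {X : SimpleGraph V}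

lemma median_dist_ne (h : IsMedianGraph X) {u w : V} (huw : X.Adj u w) (o : V) :
    X.dist u o = X.dist w o + 1 ∨ X.dist w o = X.dist u o + 1 := by
  obtain ⟨m, ⟨h1, h2, h3⟩, -⟩ := h.median u w o
  have e1 : X.dist u w = 1 := dist_eq_one_iff_adj.2 huw
  have e2 : X.dist w u = 1 := dist_eq_one_iff_adj.2 huw.symm
  rw [e1] at h1
  rcases Nat.eq_zero_or_pos (X.dist u m) with h0 | h0
  · have : u = m := h.connected.dist_eq_zero_iff.1 h0
    subst this
    omega
  · have h4 : X.dist m w = 0 := by omega
    have : m = w := h.connected.dist_eq_zero_iff.1 h4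
    subst this
    omega

lemma geod_homotopic (h : IsMedianGraph X) (o : V) : ∀ (n : ℕ) (v : V) (p q : X.Walk v o),
    X.dist v o = n → p.length = n → q.length = n → Homotopic X p q := by
  intro n
  induction n with
  | zero =>
    intro v p q _ hp hq
    cases p with
    | nil =>
      cases q with
      | nil => exact .refl _
      | cons _ _ => simp at hq
    | cons _ _ => simp at hp
  | succ n ih =>
    intro v p q hv hp hq
    cases p with
    | nil => simp at hp
    | cons ha p' =>
      rename_i a
      cases q with
      | nil => simp at hq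
      | cons hb q' =>
        rename_i b
        rw [Walk.length_cons] at hp hq
        have hpa : X.dist a o ≤ n := by
          have := SimpleGraph.dist_le p'
          omega
        have hqb : X.dist b o ≤ n := by
          have := SimpleGraph.dist_le q'
          omega
        have hda : X.dist a o = n := by
          rcases median_dist_ne h ha o with h1 | h1 <;> omega
        have hdb : X.dist b o = n := by
          rcases median_dist_ne h hb o with h1 | h1 <;> omega
        by_cases hab : a = b
        · subst hab
          have h1 := ih a p' q' hda (by omega) (by omega)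
          exact (Homotopic.refl (Walk.cons ha Walk.nil)).append h1
        · obtain ⟨m, ⟨h1, h2, h3⟩, -⟩ := h.median a b o
          have e1 : X.dist v a = 1 := dist_eq_one_iff_adj.2 ha
          have e2 : X.dist v b = 1 := dist_eq_one_iff_adj.2 hb
          have e3 : X.dist a v = 1 := dist_eq_one_iff_adj.2 ha.symm
          have e4 : X.dist a b ≤ X.dist a v + X.dist v b := h.connected.dist_triangle
          have e5 : X.dist a b ≠ 0 := fun h0 => hab (h.connected.dist_eq_zero_iff.1 h0)
          have e6 : X.dist b m = X.dist m b := SimpleGraph.dist_comm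
          rw [hda] at h3
          rw [hdb] at h2
          have f1 : X.dist a m = 1 := by omega
          have f2 : X.dist b m = 1 := by omega
          have f3 : X.dist m o + 1 = n := by omega
          have g1 : X.Adj a m := dist_eq_one_iff_adj.1 f1
          have g2 : X.Adj b m := dist_eq_one_iff_adj.1 f2
          obtain ⟨k, hk⟩ := h.connected.exists_walk_length_eq_dist m o
          have h4 := ih a p' (Walk.cons g1 k) hda (by omega) (by rw [Walk.length_cons]; omega)
          have h5 := ih b q' (Walk.cons g2 k) hdb (by omega) (by rw [Walk.length_cons]; omega)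
          have hvm : v ≠ m := by
            rintro rfl
            omega
          have hsq : IsSq X v a m b := ⟨ha, g1, g2.symm, hb.symm, hvm, hab⟩
          have h6 := (Homotopic.square hsq).append (Homotopic.refl k)
          exact ((Homotopic.refl (Walk.cons ha Walk.nil)).append h4).trans
            (h6.trans ((Homotopic.refl (Walk.cons hb Walk.nil)).append h5).symm)

lemma cons_homotopic (h : IsMedianGraph X) {o u w : V} (huw : X.Adj u w) (p : X.Walk w o)
    (q : X.Walk u o) (hp : p.length = X.dist w o) (hq : q.length = X.dist u o) :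
    Homotopic X (Walk.cons huw p) q := by
  rcases median_dist_ne h huw o with h1 | h1
  · exact geod_homotopic h o _ u _ _ rfl (by rw [Walk.length_cons]; omega) hq
  · have h2 : Homotopic X p (Walk.cons huw.symm q) :=
      geod_homotopic h o _ w _ _ rfl hp (by rw [Walk.length_cons]; omega)
    have h3 := (Homotopic.refl (Walk.cons huw Walk.nil)).append h2
    have h4 := (Homotopic.backtrack huw).append (Homotopic.refl q)
    exact h3.trans h4

lemma append_homotopic (h : IsMedianGraph X) {o : V} : ∀ {u v : V} (p : X.Walk u v)
    (q : X.Walk v o) (r : X.Walk u o), q.length = X.dist v o → r.length = X.dist u o →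
    Homotopic X (p.append q) r := by
  intro u v p
  induction p with
  | nil =>
    intro q r hq hr
    exact geod_homotopic h o _ _ _ _ rfl hq hr
  | cons huw p ih =>
    intro q r hq hr
    rename_i u w v
    obtain ⟨k, hk⟩ := h.connected.exists_walk_length_eq_dist w o
    have h1 := ih q k hq hk
    have h2 := (Homotopic.refl (Walk.cons huw Walk.nil)).append h1
    exact h2.trans (cons_homotopic h huw k r hk hr)

/-- The square complex of a median graph is simply connected. -/
theorem homotopic_nil_of_isMedianGraph (h : IsMedianGraph X) {v : V} (p : X.Walk v v) :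
    Homotopic X p Walk.nil := by
  have := append_homotopic h p Walk.nil Walk.nil (by simp) (by simp)
  rwa [Walk.append_nil] at this

lemma link_simple_of_isMedianGraph (h : IsMedianGraph X) {v a b c c' : V} (h1 : IsSq X v a c b)
    (h2 : IsSq X v a c' b) : c = c' := by
  obtain ⟨h11, h12, h13, h14, h15, h16⟩ := h1
  obtain ⟨h21, h22, h23, h24, h25, h26⟩ := h2
  exact no_K23 h h16 h11.symm h12 h22 h14 h13.symm h23.symm h15 h25

namespace BiTree

variable {X Xh Xv : SimpleGraph V} {Th : SimpleGraph S} {Tv : SimpleGraph T}
  {ph : V → S} {pv : V → T}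

lemma tree_no_sq {T : SimpleGraph S} (hT : T.IsTree) {a b c d : S} (h1 : T.Adj a b)
    (h2 : T.Adj b c) (h3 : T.Adj c d) (h4 : T.Adj d a) (h5 : a ≠ c) (h6 : b ≠ d) : False := by
  have e1 : T.dist a b = 1 := dist_eq_one_iff_adj.2 h1
  have e2 : T.dist a d = 1 := dist_eq_one_iff_adj.2 h4.symm
  have e3 : T.dist a c ≠ 0 := fun h0 => h5 (hT.connected.dist_eq_zero_iff.1 h0)
  have e4 : T.dist a c = 2 := by
    rcases tree_adj_dist hT a h2 with h | h <;> omega
  exact h6 (tree_closer_unique hT (a := a) h2.symm h3 (by omega) (by omega))

/-- Two horizontal edges at a vertex are not in a common square. -/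
lemma no_hsq (hB : BiTree X Xh Xv Th Tv ph pv) {v a x b : V} (hsq : IsSq X v a x b)
    (ha : Xh.Adj v a) (hb : Xh.Adj v b) : False := by
  obtain ⟨h1, h2, h3, h4, h5, h6⟩ := hsq
  have hab : ph a ≠ ph b := fun h => h6 (hB.hinj ha hb h)
  have pa := hB.hpv ha
  have pb := hB.hpv hb
  rcases (hB.adj_iff a x).1 h2 with hax | hax
  · have px := hB.hpv hax
    rcases (hB.adj_iff x b).1 h3 with hxb | hxb
    · refine tree_no_sq hB.treeH (hB.hadj ha) (hB.hadj hax) (hB.hadj hxb) (hB.hadj hb.symm) ?_ hab
      intro hvx
      exact h5 (hB.eq_of_proj hvx (by rw [pa, px]))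
    · have := (hB.vadj hxb).ne
      exact this (by rw [← px, ← pa, pb])
  · have hx1 := hB.vph hax
    have hx2 := (hB.vadj hax).ne
    rcases (hB.adj_iff x b).1 h3 with hxb | hxb
    · have hx3 := hB.hpv hxb
      exact hx2 (by rw [hx3, ← pa, pb])
    · have hx3 := hB.vph hxb
      exact hab (by rw [hx1, hx3])

theorem isCAT0SquareComplex (hB : BiTree X Xh Xv Th Tv ph pv) : IsCAT0SquareComplex X where
  connected := hB.conn
  simplyConnected := fun _ p => homotopic_nil_of_isMedianGraph hB.isMedianGraph p
  link_simple := fun _ _ _ _ _ h1 h2 => link_simple_of_isMedianGraph hB.isMedianGraph h1 h2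
  link_flag := by
    intro v a b c x y z h1 h2 h3
    have ka := (hB.adj_iff v a).1 h1.1
    have kb := (hB.adj_iff v b).1 h2.1
    have kc := (hB.adj_iff v c).1 h3.1
    rcases ka with ka | ka <;> rcases kb with kb | kb <;> rcases kc with kc | kc
    · exact hB.no_hsq h1 ka kb
    · exact hB.no_hsq h1 ka kb
    · exact hB.no_hsq h3 kc ka
    · exact hB.swap.no_hsq h2 kb kc
    · exact hB.no_hsq h2 kb kc
    · exact hB.swap.no_hsq h3 kc ka
    · exact hB.swap.no_hsq h1 ka kb
    · exact hB.swap.no_hsq h1 ka kb

end BiTree

end Pool.Agent.Lib.MP_140312_al_SG
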