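import Pool.Agent.Lib.MP_140312_al_SG.Proj
import Pool.Agent.Lib.MP_140312_al_SG.Median
import Pool.Agent.Lib.MP_140312_al_SG.BSTree
import Pool.Agent.Lib.MP_140312_al_SG.CAT0

/-!
# The development is a median graph
-/

namespace Pool.Agent.Lib.MP_140312_al_SG

open Pool.Agent.Lib.MP_140312_al

section
variable {G : Type*} [Group G] {P : Bool → Bool → Subgroup G}

lemma le_col (P : Bool → Bool → Subgroup G) (i j : Bool) : P i j ≤ col P i := by
  cases j
  · exact le_sup_left
  · exact le_sup_right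

lemma le_row (P : Bool → Bool → Subgroup G) (i j : Bool) : P i j ≤ row P j := by
  cases i
  · exact le_sup_left
  · exact le_sup_right

lemma col_sup (hP : IsSquare P) : col P false ⊔ col P true = ⊤ := by
  have h := hP.gen
  rw [iSup_bool_eq, iSup_bool_eq, iSup_bool_eq] at h
  rw [eq_top_iff, ← h]
  refine sup_le (sup_le ?_ ?_) (sup_le ?_ ?_)
  · exact (le_col P true true).trans le_sup_right
  · exact (le_col P true false).trans le_sup_right
  · exact (le_col P false true).trans le_sup_left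
  · exact (le_col P false false).trans le_sup_left

lemma row_sup (hP : IsSquare P) : row P false ⊔ row P true = ⊤ := by
  have h := hP.gen
  rw [iSup_bool_eq, iSup_bool_eq, iSup_bool_eq] at h
  rw [eq_top_iff, ← h]
  refine sup_le (sup_le ?_ ?_) (sup_le ?_ ?_)
  · exact (le_row P true true).trans le_sup_right
  · exact (le_row P true false).trans le_sup_left
  · exact (le_row P false true).trans le_sup_right
  · exact (le_row P false false).trans le_sup_left

/-- The vertex `(i, j)` of the square `g`. -/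
def vx (P : Bool → Bool → Subgroup G) (i j : Bool) (g : G) : Vtx P := ⟨(i, j), (g : G ⧸ P i j)⟩

lemma exists_vx (x : Vtx P) : ∃ g : G, x = vx P x.1.1 x.1.2 g := by
  obtain ⟨⟨i, j⟩, x⟩ := x
  obtain ⟨g, rfl⟩ := QuotientGroup.mk_surjective x
  exact ⟨g, rfl⟩

lemma exists_vx' (x : Vtx P) : ∃ i j g, x = vx P i j g := by
  obtain ⟨g, hg⟩ := exists_vx x
  exact ⟨_, _, g, hg⟩

lemma vx_eq_of_mem {i j : Bool} {g k : G} (h : k ∈ P i j) : vx P i j g = vx P i j (g * k) := by
  have : (g : G ⧸ P i j) = ((g * k : G) : G ⧸ P i j) := by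
    rw [QuotientGroup.eq]
    simpa using h
  rw [vx, vx, this]

/-- Horizontal edges. -/
def DevH (P : Bool → Bool → Subgroup G) : SimpleGraph (Vtx P) where
  Adj x y := (x.1.1 ≠ y.1.1 ∧ x.1.2 = y.1.2) ∧
    ∃ g : G, x.2 = (g : G ⧸ P x.1.1 x.1.2) ∧ y.2 = (g : G ⧸ P y.1.1 y.1.2)
  symm := ⟨fun _ _ h => ⟨⟨h.1.1.symm, h.1.2.symm⟩, h.2.imp fun _ hg => ⟨hg.2, hg.1⟩⟩⟩
  loopless := ⟨fun _ h => h.1.1 rfl⟩

/-- Vertical edges. -/
def DevV (P : Bool → Bool → Subgroup G) : SimpleGraph (Vtx P) where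
  Adj x y := (x.1.1 = y.1.1 ∧ x.1.2 ≠ y.1.2) ∧
    ∃ g : G, x.2 = (g : G ⧸ P x.1.1 x.1.2) ∧ y.2 = (g : G ⧸ P y.1.1 y.1.2)
  symm := ⟨fun _ _ h => ⟨⟨h.1.1.symm, h.1.2.symm⟩, h.2.imp fun _ hg => ⟨hg.2, hg.1⟩⟩⟩
  loopless := ⟨fun _ h => h.1.2 rfl⟩

lemma DevH_adj_vx {i i' j : Bool} (hi : i ≠ i') (g : G) :
    (DevH P).Adj (vx P i j g) (vx P i' j g) := ⟨⟨hi, rfl⟩, g, rfl, rfl⟩

lemma DevV_adj_vx {i j j' : Bool} (hj : j ≠ j') (g : G) :
    (DevV P).Adj (vx P i j g) (vx P i j' g) := ⟨⟨rfl, hj⟩, g, rfl, rfl⟩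

lemma dev_adj_iff (x y : Vtx P) : (Dev P).Adj x y ↔ (DevH P).Adj x y ∨ (DevV P).Adj x y := by
  constructor
  · rintro ⟨h | h, hg⟩
    · exact Or.inl ⟨h, hg⟩
    · exact Or.inr ⟨h, hg⟩
  · rintro (⟨h, hg⟩ | ⟨h, hg⟩)
    · exact ⟨Or.inl h, hg⟩
    · exact ⟨Or.inr h, hg⟩

lemma DevH_reach_type (i i' j : Bool) (g : G) :
    (DevH P).Reachable (vx P i j g) (vx P i' j g) := by
  by_cases h : i = i'
  · subst h
    exact SimpleGraph.Reachable.refl _
  · exact (DevH_adj_vx h g).reachable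

lemma DevV_reach_type (i j j' : Bool) (g : G) :
    (DevV P).Reachable (vx P i j g) (vx P i j' g) := by
  by_cases h : j = j'
  · subst h
    exact SimpleGraph.Reachable.refl _
  · exact (DevV_adj_vx h g).reachable

lemma DevH_reach_mem {i0 j : Bool} {k : G} (hk : k ∈ P i0 j) (i i' : Bool) (g : G) :
    (DevH P).Reachable (vx P i j g) (vx P i' j (g * k)) := by
  have h1 := DevH_reach_type (P := P) i i0 j g
  have h2 := DevH_reach_type (P := P) i0 i' j (g * k)
  rw [vx_eq_of_mem hk] at h1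
  exact h1.trans h2

lemma DevV_reach_mem {i j0 : Bool} {k : G} (hk : k ∈ P i j0) (j j' : Bool) (g : G) :
    (DevV P).Reachable (vx P i j g) (vx P i j' (g * k)) := by
  have h1 := DevV_reach_type (P := P) i j j0 g
  have h2 := DevV_reach_type (P := P) i j0 j' (g * k)
  rw [vx_eq_of_mem hk] at h1
  exact h1.trans h2

lemma DevH_reach {j : Bool} {k : G} (hk : k ∈ row P j) (i i' : Bool) (g : G) :
    (DevH P).Reachable (vx P i j g) (vx P i' j (g * k)) := by
  rw [row, Subgroup.sup_eq_closure] at hk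
  induction hk using Subgroup.closure_induction generalizing i i' g with
  | mem x hx =>
    rcases hx with hx | hx
    · exact DevH_reach_mem hx i i' g
    · exact DevH_reach_mem hx i i' g
  | one =>
    rw [mul_one]
    exact DevH_reach_type i i' j g
  | mul x y _ _ ihx ihy =>
    rw [← mul_assoc]
    exact (ihx i i g).trans (ihy i i' (g * x))
  | inv x _ ih =>
    have := ih i' i (g * x⁻¹)
    rw [inv_mul_cancel_right] at this
    exact this.symm

lemma DevV_reach {i : Bool} {k : G} (hk : k ∈ col P i) (j j' : Bool) (g : G) :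
    (DevV P).Reachable (vx P i j g) (vx P i j' (g * k)) := by
  rw [col, Subgroup.sup_eq_closure] at hk
  induction hk using Subgroup.closure_induction generalizing j j' g with
  | mem x hx =>
    rcases hx with hx | hx
    · exact DevV_reach_mem hx j j' g
    · exact DevV_reach_mem hx j j' g
  | one =>
    rw [mul_one]
    exact DevV_reach_type i j j' g
  | mul x y _ _ ihx ihy =>
    rw [← mul_assoc]
    exact (ihx j j g).trans (ihy j j' (g * x))
  | inv x _ ih =>
    have := ih j' j (g * x⁻¹)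
    rw [inv_mul_cancel_right] at this
    exact this.symm

lemma DevH_le : DevH P ≤ Dev P := fun x y h => (dev_adj_iff x y).2 (Or.inl h)

lemma DevV_le : DevV P ≤ Dev P := fun x y h => (dev_adj_iff x y).2 (Or.inr h)

lemma dev_reach_type (i j i' j' : Bool) (g : G) :
    (Dev P).Reachable (vx P i j g) (vx P i' j' g) :=
  ((DevH_reach_type i i' j g).mono DevH_le).trans ((DevV_reach_type i' j j' g).mono DevV_le)

lemma dev_connected (hP : IsSquare P) : (Dev P).Connected := by
  have key : ∀ (k : G) (i j i' j' : Bool) (g : G),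
      (Dev P).Reachable (vx P i j g) (vx P i' j' (g * k)) := by
    intro k
    have hk : k ∈ col P false ⊔ col P true := by
      rw [col_sup hP]
      exact Subgroup.mem_top k
    rw [Subgroup.sup_eq_closure] at hk
    have hmem : ∀ {i0 : Bool} {k : G} (_ : k ∈ col P i0) (i j i' j' : Bool) (g : G),
        (Dev P).Reachable (vx P i j g) (vx P i' j' (g * k)) := by
      intro i0 k hk i j i' j' g
      have h1 := dev_reach_type (P := P) i j i0 j g
      have h2 := (DevV_reach hk j j g).mono DevV_le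
      have h3 := dev_reach_type (P := P) i0 j i' j' (g * k)
      exact h1.trans (h2.trans h3)
    induction hk using Subgroup.closure_induction with
    | mem x hx =>
      rcases hx with hx | hx
      · exact hmem hx
      · exact hmem hx
    | one =>
      intro i j i' j' g
      rw [mul_one]
      exact dev_reach_type i j i' j' g
    | mul x y _ _ ihx ihy =>
      intro i j i' j' g
      rw [← mul_assoc]
      exact (ihx i j i j g).trans (ihy i j i' j' (g * x))
    | inv x _ ih =>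
      intro i j i' j' g
      have := ih i' j' i j (g * x⁻¹)
      rw [inv_mul_cancel_right] at this
      exact this.symm
  refine { preconnected := ?_, nonempty := ⟨vx P false false 1⟩ }
  intro x y
  obtain ⟨i, j, g, rfl⟩ := exists_vx' x
  obtain ⟨i', j', g', rfl⟩ := exists_vx' y
  have := key (g⁻¹ * g') i j i' j' g
  rwa [mul_inv_cancel_left] at this

/-- The development of a nonpositively curved square of groups, as a subcomplex of the product of
its two trees. -/
theorem dev_biTree (hP : IsSquare P) :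
    BiTree (Dev P) (DevH P) (DevV P) (BS (col P)) (BS (row P)) (px P) (py P) where
  treeH := BS_isTree hP.altCol (col_sup hP)
  treeV := BS_isTree hP.altRow (row_sup hP)
  conn := dev_connected hP
  adj_iff := dev_adj_iff
  hadj := by
    rintro ⟨⟨i, j⟩, x⟩ ⟨⟨i', j'⟩, y⟩ ⟨⟨h1, h2⟩, g, h3, h4⟩
    dsimp only at h1 h2 h3 h4
    subst h2 h3 h4
    exact ⟨h1, g, rfl, rfl⟩
  hpv := by
    rintro ⟨⟨i, j⟩, x⟩ ⟨⟨i', j'⟩, y⟩ ⟨⟨h1, h2⟩, g, h3, h4⟩
    dsimp only at h1 h2 h3 h4
    subst h2 h3 h4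
    rfl
  vadj := by
    rintro ⟨⟨i, j⟩, x⟩ ⟨⟨i', j'⟩, y⟩ ⟨⟨h1, h2⟩, g, h3, h4⟩
    dsimp only at h1 h2 h3 h4
    subst h1 h3 h4
    exact ⟨h2, g, rfl, rfl⟩
  vph := by
    rintro ⟨⟨i, j⟩, x⟩ ⟨⟨i', j'⟩, y⟩ ⟨⟨h1, h2⟩, g, h3, h4⟩
    dsimp only at h1 h2 h3 h4
    subst h1 h3 h4
    rfl
  hinj := by
    intro x y y' h1 h2 h3
    have key : ∀ {y : Vtx P}, (DevH P).Adj x y → py P x = py P y := by
      intro y h
      obtain ⟨⟨i, j⟩, x⟩ := x
      obtain ⟨⟨i', j'⟩, y⟩ := y
      obtain ⟨⟨h1, h2⟩, g, h3, h4⟩ := h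
      dsimp only at h1 h2 h3 h4
      subst h2 h3 h4
      rfl
    exact vtx_ext hP h3 ((key h1).symm.trans (key h2))
  vinj := by
    intro x y y' h1 h2 h3
    have key : ∀ {y : Vtx P}, (DevV P).Adj x y → px P x = px P y := by
      intro y h
      obtain ⟨⟨i, j⟩, x⟩ := x
      obtain ⟨⟨i', j'⟩, y⟩ := y
      obtain ⟨⟨h1, h2⟩, g, h3, h4⟩ := h
      dsimp only at h1 h2 h3 h4
      subst h1 h3 h4
      rfl
    exact vtx_ext hP ((key h1).symm.trans (key h2)) h3
  hfib := by
    intro x y h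
    obtain ⟨i, j, g, rfl⟩ := exists_vx' x
    obtain ⟨i', j', g', rfl⟩ := exists_vx' y
    have hj : j = j' := congrArg Sigma.fst h
    subst hj
    have h1 : (⟨j, (g : G ⧸ row P j)⟩ : Σ j : Bool, G ⧸ row P j) =
      ⟨j, (g' : G ⧸ row P j)⟩ := h
    rw [Sigma.mk.injEq] at h1
    have h2 := QuotientGroup.eq.1 (eq_of_heq h1.2)
    have := DevH_reach h2 i i' g
    rwa [mul_inv_cancel_left] at this
  vfib := by
    intro x y h
    obtain ⟨i, j, g, rfl⟩ := exists_vx' x
    obtain ⟨i', j', g', rfl⟩ := exists_vx' y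
    have hi : i = i' := congrArg Sigma.fst h
    subst hi
    have h1 : (⟨i, (g : G ⧸ col P i)⟩ : Σ i : Bool, G ⧸ col P i) =
      ⟨i, (g' : G ⧸ col P i)⟩ := h
    rw [Sigma.mk.injEq] at h1
    have h2 := QuotientGroup.eq.1 (eq_of_heq h1.2)
    have := DevV_reach h2 j j' g
    rwa [mul_inv_cancel_left] at this

theorem dev_isMedianGraph (hP : IsSquare P) : IsMedianGraph (Dev P) :=
  (dev_biTree hP).isMedianGraph

/-- The development is (the `1`-skeleton of) a CAT(0) square complex. -/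
theorem dev_isCAT0 (hP : IsSquare P) : IsCAT0SquareComplex (Dev P) :=
  (dev_biTree hP).isCAT0SquareComplex

theorem dev_dist (hP : IsSquare P) (x y : Vtx P) :
    (Dev P).dist x y = (BS (col P)).dist (px P x) (px P y) + (BS (row P)).dist (py P x) (py P y) :=
  (dev_biTree hP).dist_formula x y

lemma smul_vx (h : G) (i j : Bool) (g : G) : h • vx P i j g = vx P i j (h * g) := rfl

lemma dev_adj_smul {x y : Vtx P} (h : (Dev P).Adj x y) (g : G) : (Dev P).Adj (g • x) (g • y) := by
  obtain ⟨⟨i, j⟩, x⟩ := x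
  obtain ⟨⟨i', j'⟩, y⟩ := y
  obtain ⟨h1, k, h3, h4⟩ := h
  dsimp only at h1 h3 h4
  subst h3 h4
  exact ⟨h1, g * k, rfl, rfl⟩

theorem dev_geometricAction (_hP : IsSquare P) (hfin : ∀ i j, Finite (P i j)) :
    GeometricAction G (Dev P) where
  adj_iff := by
    intro g x y
    constructor
    · intro h
      have := dev_adj_smul h g⁻¹
      rwa [inv_smul_smul, inv_smul_smul] at this
    · intro h
      exact dev_adj_smul h g
  finite_stabilizer := by
    intro x
    obtain ⟨i, j, h, rfl⟩ := exists_vx' x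
    have := hfin i j
    have h1 : (Set.range fun k : P i j => h * k * h⁻¹).Finite := Set.finite_range _
    refine h1.subset ?_
    intro g hg
    have h2 : (⟨(i, j), ((g * h : G) : G ⧸ P i j)⟩ : Vtx P) = ⟨(i, j), (h : G ⧸ P i j)⟩ := hg
    rw [Sigma.mk.injEq] at h2
    have h3 := QuotientGroup.eq.1 (eq_of_heq h2.2)
    refine ⟨⟨_, inv_mem h3⟩, ?_⟩
    simp only [mul_inv_rev, inv_inv]
    group
  cocompact := by
    refine ⟨Set.range fun p : Bool × Bool => vx P p.1 p.2 1, Set.finite_range _, ?_⟩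
    intro x
    obtain ⟨i, j, h, rfl⟩ := exists_vx' x
    refine ⟨h⁻¹, (i, j), ?_⟩
    rw [smul_vx, inv_mul_cancel]
  locallyFinite := by
    intro x
    obtain ⟨i, j, h, rfl⟩ := exists_vx' x
    have := hfin i j
    have h1 : (Set.range fun q : (Bool × Bool) × P i j => vx P q.1.1 q.1.2 (h * q.2)).Finite :=
      Set.finite_range _
    refine h1.subset ?_
    rintro ⟨⟨i', j'⟩, y⟩ ⟨-, g, h3, h4⟩
    dsimp only at h3 h4
    subst h4
    have h5 : h⁻¹ * g ∈ P i j := QuotientGroup.eq.1 h3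
    refine ⟨((i', j'), ⟨_, h5⟩), ?_⟩
    simp only [mul_inv_cancel_left]
    rfl

end

end Pool.Agent.Lib.MP_140312_al_SG
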