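import Pool.Agent.Lib.MP_140312_al_SG.Array
import Pool.Agent.Lib.MP_140312_al_Neg.TreeAut

/-!
# A copy of `ℤ × ℤ` translates a flat (package B)
-/

set_option autoImplicit false

namespace Pool.Agent.Lib.MP_140312_al_SG

open Pool.Agent.Lib.MP_140312_al
open Pool.Agent.MP_140312_al_Neg

namespace Fl

/-! ### Convexity of connected sets in trees -/

section
variable {V : Type*} {X : SimpleGraph V}

lemma conv_of_walks (hX : X.IsTree) {S : Set V}
    (h : ∀ a ∈ S, ∀ b ∈ S, ∃ q : X.Walk a b, ∀ v ∈ q.support, v ∈ S) : TA.Conv X S := by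
  classical
  intro a ha b hb y hy
  obtain ⟨q, hq⟩ := h a ha b hb
  obtain ⟨p, hp, hpl⟩ := hX.connected.exists_path_of_dist a y
  obtain ⟨r, hr, hrl⟩ := hX.connected.exists_path_of_dist y b
  have h1 : (p.append r).IsPath := SimpleGraph.Walk.isPath_of_length_eq_dist _ (by
    rw [SimpleGraph.Walk.length_append, hpl, hrl, hy])
  have h2 : q.bypass = p.append r :=
    (hX.existsUnique_path a b).unique q.bypass_isPath h1
  apply hq
  apply q.support_bypass_subset_support
  rw [h2, SimpleGraph.Walk.mem_support_append_iff]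
  exact Or.inl p.end_mem_support

end

variable {G : Type*} [Group G]

/-! ### The Bass-Serre graph -/

lemma smul_fst (Q : Bool → Subgroup G) (g : G) (x : Σ i, G ⧸ Q i) : (g • x).1 = x.1 := rfl

lemma smul_mk' (Q : Bool → Subgroup G) (g g' : G) (i : Bool) :
    g • (⟨i, (g' : G ⧸ Q i)⟩ : Σ i, G ⧸ Q i) = ⟨i, ((g * g' : G) : G ⧸ Q i)⟩ := rfl

lemma act_BS (Q : Bool → Subgroup G) : TA.Act G (BS Q) where
  adj := by
    rintro g ⟨i, x⟩ ⟨j, y⟩ ⟨hne, g', hx, hy⟩
    refine ⟨hne, g * g', ?_, ?_⟩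
    · show g • x = _
      rw [show x = (g' : G ⧸ Q i) from hx]
      rfl
    · show g • y = _
      rw [show y = (g' : G ⧸ Q j) from hy]
      rfl
  col := ⟨fun x => x.1, fun _ _ => rfl, fun _ _ h => h.1⟩

lemma smul_eq_iff (Q : Bool → Subgroup G) (c g : G) (i : Bool) :
    c • (⟨i, (g : G ⧸ Q i)⟩ : Σ i, G ⧸ Q i) = ⟨i, (g : G ⧸ Q i)⟩ ↔ g⁻¹ * c * g ∈ Q i := by
  rw [smul_mk']
  constructor
  · intro h
    have h1 : ((c * g : G) : G ⧸ Q i) = (g : G ⧸ Q i) := by
      have := congrArg (fun x : Σ i, G ⧸ Q i => x) h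
      simpa using h
    rw [eq_comm, QuotientGroup.eq] at h1
    rwa [← mul_assoc] at h1
  · intro h
    have h1 : (g : G ⧸ Q i) = ((c * g : G) : G ⧸ Q i) := by
      rw [QuotientGroup.eq, ← mul_assoc]
      exact h
    rw [h1]

/-- Adjacent vertices of a line have alternating types. -/
lemma line_type (Q : Bool → Subgroup G) {l : ℤ → Σ i, G ⧸ Q i} (hl : TA.IsLine (BS Q) l)
    (i : ℤ) : (l i).1 = xor (l 0).1 i.bodd := by
  have h1 : ∀ i, (l (i + 1)).1 = !(l i).1 := by
    intro i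
    have := (hl.adj i).1
    cases h : (l i).1 <;> cases h' : (l (i + 1)).1 <;> simp_all
  induction i using Int.induction_on with
  | zero => simp
  | succ i ih =>
    rw [h1, ih, Int.bodd_add]
    simp
  | pred i ih =>
    have := h1 (-(i : ℤ) - 1)
    rw [show -(i : ℤ) - 1 + 1 = -i by ring, ih] at this
    have h2 : (l (-(i : ℤ) - 1)).1 = !(xor (l 0).1 (-(i : ℤ)).bodd) := by
      rw [this]; simp
    rw [h2, sub_eq_add_neg, Int.bodd_add]
    cases (l 0).1 <;> cases (-(i : ℤ)).bodd <;> rfl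

/-- After a shift the types are the parities. -/
lemma exists_shift (Q : Bool → Subgroup G) {l : ℤ → Σ i, G ⧸ Q i} (hl : TA.IsLine (BS Q) l) :
    ∃ s : ℤ, ∀ i, (l (i + s)).1 = i.bodd := by
  cases h : (l 0).1
  · refine ⟨0, fun i => ?_⟩
    rw [line_type Q hl, h, add_zero]
    simp
  · refine ⟨1, fun i => ?_⟩
    rw [line_type Q hl, h, Int.bodd_add]
    simp

variable {P : Bool → Bool → Subgroup G}

/-- The fibre over the vertex `t` of the vertical tree. -/
def fib (P : Bool → Bool → Subgroup G) (t : Σ j : Bool, G ⧸ row P j) :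
    Set (Σ i : Bool, G ⧸ col P i) :=
  {v | ∃ g : G, v.2 = (g : G ⧸ col P v.1) ∧ t.2 = (g : G ⧸ row P t.1)}

lemma le_col (i j : Bool) : P i j ≤ col P i := by
  cases j
  · exact le_sup_left
  · exact le_sup_right

lemma le_row (i j : Bool) : P i j ≤ row P j := by
  cases i
  · exact le_sup_left
  · exact le_sup_right

lemma col_sup_eq_top (hP : IsSquare P) : col P false ⊔ col P true = ⊤ := by
  rw [← hP.gen]
  simp only [col, iSup_bool_eq]
  rw [sup_comm]
  congr 1 <;> rw [sup_comm]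

lemma adj_self (Q : Bool → Subgroup G) (g : G) (i : Bool) :
    (BS Q).Adj ⟨i, (g : G ⧸ Q i)⟩ ⟨!i, (g : G ⧸ Q (!i))⟩ :=
  ⟨by cases i <;> simp, g, rfl, rfl⟩

/-- Two vertices of a set joined by a walk inside the set. -/
def Jn (X : SimpleGraph (Σ i : Bool, G ⧸ col P i)) (S : Set (Σ i : Bool, G ⧸ col P i))
    (a b : Σ i : Bool, G ⧸ col P i) : Prop := ∃ q : X.Walk a b, ∀ v ∈ q.support, v ∈ S

lemma Jn.trans {X : SimpleGraph (Σ i : Bool, G ⧸ col P i)} {S : Set (Σ i : Bool, G ⧸ col P i)}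
    {a b c : Σ i : Bool, G ⧸ col P i} (h : Jn X S a b) (h' : Jn X S b c) : Jn X S a c := by
  obtain ⟨p, hp⟩ := h
  obtain ⟨q, hq⟩ := h'
  refine ⟨p.append q, fun v hv => ?_⟩
  rw [SimpleGraph.Walk.mem_support_append_iff] at hv
  rcases hv with hv | hv
  · exact hp v hv
  · exact hq v hv

lemma Jn.symm {X : SimpleGraph (Σ i : Bool, G ⧸ col P i)} {S : Set (Σ i : Bool, G ⧸ col P i)}
    {a b : Σ i : Bool, G ⧸ col P i} (h : Jn X S a b) : Jn X S b a := by
  obtain ⟨p, hp⟩ := h
  refine ⟨p.reverse, fun v hv => hp v ?_⟩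
  simpa using hv

/-- The fibres are connected. -/
lemma jn_fib (t : Σ j : Bool, G ⧸ row P j) :
    ∀ a ∈ fib P t, ∀ b ∈ fib P t, Jn (BS (col P)) (fib P t) a b := by
  obtain ⟨j, t⟩ := t
  -- a square `g` of the row
  have hmem : ∀ g : G, t = (g : G ⧸ row P j) → ∀ i, (⟨i, (g : G ⧸ col P i)⟩ :
      Σ i : Bool, G ⧸ col P i) ∈ fib P ⟨j, t⟩ := fun g hg i => ⟨g, rfl, hg⟩
  have hself : ∀ g : G, t = (g : G ⧸ row P j) → ∀ i i', Jn (BS (col P)) (fib P ⟨j, t⟩)
      ⟨i, (g : G ⧸ col P i)⟩ ⟨i', (g : G ⧸ col P i')⟩ := by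
    intro g hg i i'
    by_cases h : i' = i
    · subst h
      exact ⟨SimpleGraph.Walk.nil, by
        intro v hv
        rw [SimpleGraph.Walk.support_nil, List.mem_singleton] at hv
        subst hv
        exact hmem g hg i'⟩
    · have h2 : i' = !i := by cases i <;> cases i' <;> simp_all
      subst h2
      refine ⟨SimpleGraph.Walk.cons (adj_self (col P) g i) SimpleGraph.Walk.nil, ?_⟩
      intro v hv
      simp only [SimpleGraph.Walk.support_cons, SimpleGraph.Walk.support_nil, List.mem_cons,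
        List.not_mem_nil, or_false] at hv
      rcases hv with rfl | rfl
      · exact hmem g hg i
      · exact hmem g hg (!i)
  -- moving inside the row group
  have hstep : ∀ (r : G), r ∈ row P j → ∀ g : G, t = (g : G ⧸ row P j) → ∀ i i',
      Jn (BS (col P)) (fib P ⟨j, t⟩) ⟨i, (g : G ⧸ col P i)⟩
        ⟨i', ((g * r : G) : G ⧸ col P i')⟩ := by
    intro r hr
    rw [row, Subgroup.sup_eq_closure] at hr
    have hrow : ∀ g r : G, t = (g : G ⧸ row P j) → r ∈ row P j →
        t = ((g * r : G) : G ⧸ row P j) := by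
      intro g r hg hr
      rw [hg, QuotientGroup.eq]
      simpa using hr
    have hcl : ∀ x ∈ Subgroup.closure ((P false j : Set G) ∪ (P true j : Set G)),
        x ∈ row P j := by
      intro x hx
      rw [row, Subgroup.sup_eq_closure]
      exact hx
    refine Subgroup.closure_induction (p := fun r _ => ∀ g : G, t = (g : G ⧸ row P j) → ∀ i i',
      Jn (BS (col P)) (fib P ⟨j, t⟩) ⟨i, (g : G ⧸ col P i)⟩
        ⟨i', ((g * r : G) : G ⧸ col P i')⟩) ?_ ?_ ?_ ?_ hr
    · intro x hx g hg i i'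
      obtain ⟨k, hk⟩ : ∃ k, x ∈ P k j := by
        rcases hx with hx | hx
        · exact ⟨false, hx⟩
        · exact ⟨true, hx⟩
      have h1 : ((g * x : G) : G ⧸ col P k) = (g : G ⧸ col P k) := by
        rw [eq_comm, QuotientGroup.eq]
        simpa using le_col k j hk
      have h2 := hself g hg i k
      have h3 := hself (g * x) (hrow g x hg (le_row k j hk)) k i'
      rw [h1] at h3
      exact h2.trans h3
    · intro g hg i i'
      rw [mul_one]
      exact hself g hg i i'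
    · intro x y hx _ h1 h2 g hg i i'
      have h3 := h1 g hg i i
      have h4 := h2 (g * x) (hrow g x hg (hcl x hx)) i i'
      rw [mul_assoc] at h4
      exact h3.trans h4
    · intro x hx h1 g hg i i'
      have h2 := h1 (g * x⁻¹) (hrow g x⁻¹ hg (inv_mem (hcl x hx))) i' i
      rw [inv_mul_cancel_right] at h2
      exact h2.symm
  rintro ⟨i, a⟩ ⟨g, ha, hg⟩ ⟨i', b⟩ ⟨g', hb, hg'⟩
  have h1 : g⁻¹ * g' ∈ row P j := by
    rw [← QuotientGroup.eq]
    exact hg.symm.trans hg'
  have h2 := hstep _ h1 g hg i i'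
  rw [mul_inv_cancel_left] at h2
  rw [show a = (g : G ⧸ col P i) from ha, show b = (g' : G ⧸ col P i') from hb]
  exact h2

lemma conv_fib (hTh : (BS (col P)).IsTree) (t : Σ j : Bool, G ⧸ row P j) :
    TA.Conv (BS (col P)) (fib P t) :=
  conv_of_walks hTh (jn_fib t)

lemma fib_nonempty (t : Σ j : Bool, G ⧸ row P j) : (fib P t).Nonempty := by
  obtain ⟨j, t⟩ := t
  obtain ⟨g, rfl⟩ := QuotientGroup.mk_surjective t
  exact ⟨⟨false, (g : G ⧸ col P false)⟩, g, rfl, rfl⟩

lemma smul_mem_fib {t : Σ j : Bool, G ⧸ row P j} {c : G} (hc : c • t = t)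
    {v : Σ i : Bool, G ⧸ col P i} (hv : v ∈ fib P t) : c • v ∈ fib P t := by
  obtain ⟨j, t⟩ := t
  obtain ⟨i, v⟩ := v
  obtain ⟨g, h1, h2⟩ := hv
  refine ⟨c * g, ?_, ?_⟩
  · show c • v = _
    rw [show v = (g : G ⧸ col P i) from h1]
    rfl
  · have h3 : c • t = t := by
      have : (⟨j, c • t⟩ : Σ j : Bool, G ⧸ row P j) = ⟨j, t⟩ := hc
      simpa using this
    show t = _
    rw [← h3, show t = (g : G ⧸ row P j) from h2]
    rfl

/-- An element fixing a vertex in each tree has finite order. -/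
lemma finite_order (hP : IsSquare P) (hTh : (BS (col P)).IsTree) (hfin : ∀ i j, Finite (P i j)) {c : G}
    {t : Σ j : Bool, G ⧸ row P j} (ht : c • t = t)
    {v : Σ i : Bool, G ⧸ col P i} (hv : c • v = v) : IsOfFinOrder c := by
  obtain ⟨s, hs, hcs⟩ := TA.exists_fix_mem hTh (act_BS (col P)) c hv (conv_fib hTh t)
    (fib_nonempty t) (fun x hx => smul_mem_fib ht hx)
  obtain ⟨j, t⟩ := t
  obtain ⟨i, s⟩ := s
  obtain ⟨g, h1, h2⟩ := hs
  have h1' : s = (g : G ⧸ col P i) := h1
  have h2' : t = (g : G ⧸ row P j) := h2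
  subst h1' h2'
  rw [smul_eq_iff] at hcs ht
  have h3 : g⁻¹ * c * g ∈ P i j := by
    rw [← hP.inter]
    exact ⟨hcs, ht⟩
  have h4 : IsOfFinOrder (g⁻¹ * c * g) := by
    have := hfin i j
    have h5 : IsOfFinOrder (⟨g⁻¹ * c * g, h3⟩ : P i j) := isOfFinOrder_of_finite _
    exact MonoidHom.isOfFinOrder (P i j).subtype h5
  have h6 : c = MulAut.conj g (g⁻¹ * c * g) := by
    simp [MulAut.conj_apply]
    group
  rw [h6]
  exact MonoidHom.isOfFinOrder (MulAut.conj g).toMonoidHom h4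

/-- One direction of the theorem: `a` has no fixed vertex in the vertical tree. -/
lemma main_v (hP : IsSquare P) (hTh : (BS (col P)).IsTree) (hTv : (BS (row P)).IsTree)
    (hfin : ∀ i j, Finite (P i j)) {a b : G} (hab : Commute a b)
    (hinj : ∀ m n : ℤ, a ^ m * b ^ n = 1 → n = 0)
    (hfix : ∀ t : Σ j : Bool, G ⧸ row P j, a • t ≠ t) :
    ∃ (F : ℤ → ℤ → G) (h : G) (x : ℤ), IsArray P F ∧ x ≠ 0 ∧
      ∀ i j, h * F i j = F (i + x) j := by
  obtain ⟨m, n, hn, hm, ha⟩ := TA.exists_axis hTv (act_BS (row P)) a hfix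
  obtain ⟨s, hs⟩ := TA.commute_axis hTv (act_BS (row P)) hab hm hn ha
  -- the element `c` fixing the vertical line
  have hcm : ∀ j, (a ^ s * b ^ (-n)) • m j = m j := by
    intro j
    rw [mul_smul, TA.zpow_line hs, TA.zpow_line ha]
    congr 1
    ring
  have hcfin : ¬ IsOfFinOrder (a ^ s * b ^ (-n)) := by
    intro h
    rw [isOfFinOrder_iff_pow_eq_one] at h
    obtain ⟨k, hk, hk1⟩ := h
    have hcomm : Commute (a ^ s) (b ^ (-n)) := (hab.zpow_zpow s (-n))
    rw [hcomm.mul_pow, ← zpow_natCast, ← zpow_natCast, ← zpow_mul, ← zpow_mul] at hk1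
    have := hinj _ _ hk1
    have h1 : (k : ℤ) ≠ 0 := by omega
    have h2 : -n * (k : ℤ) ≠ 0 := mul_ne_zero (by omega) h1
    exact h2 this
  generalize a ^ s * b ^ (-n) = c at hcm hcfin
  obtain ⟨l, p, hp, hl, hc⟩ := TA.exists_axis hTh (act_BS (col P)) c (fun v hv =>
    hcfin (finite_order hP hTh hfin (hcm 0) hv))
  have hcinv : ∀ j, c⁻¹ • m j = m j := fun j => by rw [inv_smul_eq_iff, hcm]
  have hmem : ∀ i j, l i ∈ fib P (m j) := fun i j =>
    TA.axis_subset hTh (act_BS (col P)) c hl hp hc (conv_fib hTh (m j)) (fib_nonempty (m j))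
      (fun x hx => smul_mem_fib (hcm j) hx) (fun x hx => smul_mem_fib (hcinv j) hx) i
  obtain ⟨s1, hs1⟩ := exists_shift (col P) hl
  obtain ⟨s2, hs2⟩ := exists_shift (row P) hm
  have hl' := hl.shift s1
  have hm' := hm.shift s2
  obtain ⟨F, hF, hF2⟩ := exists_array_of hP hTh.isAcyclic hTv.isAcyclic (fun i => l (i + s1)) (fun j => m (j + s2)) hl'.adj
    hl'.nb hs1 hm'.adj hm'.nb hs2 (fun i j => hmem _ _)
  refine ⟨F, c, p, hF, by omega, fun i j => ?_⟩
  have hcl : ∀ i, c • l (i + s1) = l (i + p + s1) := fun i => by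
    rw [hc]; congr 1; ring
  apply square_unique hP
  · -- coordinates in the horizontal tree
    have key : ∀ i, ∀ g g' : G, (l (i + s1)).2 = (g : G ⧸ col P (l (i + s1)).1) →
        (l (i + p + s1)).2 = (g' : G ⧸ col P (l (i + p + s1)).1) →
        ((c * g : G) : G ⧸ col P i.bodd) = (g' : G ⧸ col P i.bodd) := by
      intro i g g' hg hg'
      have e1 : l (i + s1) = ⟨i.bodd, (g : G ⧸ col P i.bodd)⟩ := by
        have := hs1 i
        generalize l (i + s1) = v at *
        obtain ⟨k, v⟩ := v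
        subst this
        rw [show v = _ from hg]
      have e2 : ∃ k, l (i + p + s1) = ⟨k, (g' : G ⧸ col P k)⟩ := by
        generalize l (i + p + s1) = v at *
        obtain ⟨k, v⟩ := v
        exact ⟨k, by rw [show v = _ from hg']⟩
      obtain ⟨k, e2⟩ := e2
      have e3 := hcl i
      rw [e1, e2, smul_mk'] at e3
      have e4 : i.bodd = k := congrArg Sigma.fst e3
      subst e4
      simpa using e3
    intro i'
    obtain ⟨q, hq⟩ : ∃ q : ℤ, (q = i ∨ q = i + 1) ∧ q.bodd = i' := by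
      by_cases h : i.bodd = i'
      · exact ⟨i, Or.inl rfl, h⟩
      · refine ⟨i + 1, Or.inr rfl, ?_⟩
        rw [Int.bodd_add]
        cases i' <;> simp_all
    obtain ⟨hq | hq, rfl⟩ := hq
    · subst hq
      exact key q _ _ (hF2 q j).1 (hF2 (q + p) j).1
    · subst hq
      refine key (i + 1) _ _ (hF2 i j).2.1 ?_
      have := (hF2 (i + p) j).2.1
      rwa [show i + p + 1 = i + 1 + p by ring] at this
  · have key : ∀ j, ∀ g g' : G, (m (j + s2)).2 = (g : G ⧸ row P (m (j + s2)).1) →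
        (m (j + s2)).2 = (g' : G ⧸ row P (m (j + s2)).1) →
        ((c * g : G) : G ⧸ row P j.bodd) = (g' : G ⧸ row P j.bodd) := by
      intro j g g' hg hg'
      have e0 := hcm (j + s2)
      have e1 : m (j + s2) = ⟨j.bodd, (g : G ⧸ row P j.bodd)⟩ := by
        have := hs2 j
        generalize m (j + s2) = v at *
        obtain ⟨k, v⟩ := v
        subst this
        rw [show v = _ from hg]
      have e2 : m (j + s2) = ⟨j.bodd, (g' : G ⧸ row P j.bodd)⟩ := by
        have := hs2 j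
        generalize m (j + s2) = v at *
        obtain ⟨k, v⟩ := v
        subst this
        rw [show v = _ from hg']
      rw [e1, smul_mk', ← e1, e2] at e0
      simpa using e0
    intro j'
    obtain ⟨q, hq⟩ : ∃ q : ℤ, (q = j ∨ q = j + 1) ∧ q.bodd = j' := by
      by_cases h : j.bodd = j'
      · exact ⟨j, Or.inl rfl, h⟩
      · refine ⟨j + 1, Or.inr rfl, ?_⟩
        rw [Int.bodd_add]
        cases j' <;> simp_all
    obtain ⟨hq | hq, rfl⟩ := hq
    · subst hq
      exact key q _ _ (hF2 i q).2.2.1 (hF2 (i + p) q).2.2.1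
    · subst hq
      exact key (j + 1) _ _ (hF2 i j).2.2.2 (hF2 (i + p) j).2.2.2

lemma isArray_transpose {F : ℤ → ℤ → G} (h : IsArray (tr P) F) :
    IsArray P (fun i j => F j i) where
  hmem i _ _ j _ := h.vmem j trivial i trivial trivial
  hne i _ _ j _ := h.vne j trivial i trivial trivial
  vmem i _ j _ _ := h.hmem j trivial trivial i trivial
  vne i _ j _ _ := h.hne j trivial trivial i trivial

end Fl

/-- If the fundamental group of a square of finite groups contains `ℤ × ℤ`, then some element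
translates a flat. -/
theorem exists_translated_flat_of {G : Type*} [Group G] {P : Bool → Bool → Subgroup G}
    (hP : IsSquare P) (hTh : (BS (col P)).IsTree) (hTv : (BS (row P)).IsTree) (hfin : ∀ i j, Finite (P i j))
    (φ : Multiplicative (ℤ × ℤ) →* G) (hφ : Function.Injective φ) :
    ∃ (F : ℤ → ℤ → G) (h : G) (x y : ℤ), IsArray P F ∧ (x ≠ 0 ∨ y ≠ 0) ∧
      ∀ i j, h * F i j = F (i + x) (j + y) := by
  have key : ∀ m n : ℤ, φ (Multiplicative.ofAdd ((1 : ℤ), (0 : ℤ))) ^ m *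
      φ (Multiplicative.ofAdd ((0 : ℤ), (1 : ℤ))) ^ n = 1 → m = 0 ∧ n = 0 := by
    intro m n h
    rw [← map_zpow φ, ← map_zpow φ, ← map_mul φ, ← map_one φ] at h
    have h1 := hφ h
    rw [← ofAdd_zsmul, ← ofAdd_zsmul, ← ofAdd_add] at h1
    have h2 := Multiplicative.ofAdd.injective (h1.trans (ofAdd_zero).symm)
    simpa using h2
  have hab : Commute (φ (Multiplicative.ofAdd ((1 : ℤ), (0 : ℤ))))
      (φ (Multiplicative.ofAdd ((0 : ℤ), (1 : ℤ)))) := by
    rw [Commute, SemiconjBy, ← map_mul φ, ← map_mul φ, mul_comm]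
  generalize φ (Multiplicative.ofAdd ((1 : ℤ), (0 : ℤ))) = a at *
  generalize φ (Multiplicative.ofAdd ((0 : ℤ), (1 : ℤ))) = b at *
  by_cases hfix : ∀ t : Σ j : Bool, G ⧸ row P j, a • t ≠ t
  · obtain ⟨F, h, x, hF, hx, hh⟩ := Fl.main_v hP hTh hTv hfin hab (fun m n h => (key m n h).2) hfix
    exact ⟨F, h, x, 0, hF, Or.inl hx, fun i j => by rw [hh, add_zero]⟩
  · push Not at hfix
    obtain ⟨t, ht⟩ := hfix
    have hfix' : ∀ v : Σ i : Bool, G ⧸ col P i, a • v ≠ v := by
      intro v hv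
      have h1 := Fl.finite_order hP hTh hfin ht hv
      rw [isOfFinOrder_iff_pow_eq_one] at h1
      obtain ⟨k, hk, hk1⟩ := h1
      have h2 := (key k 0 (by rw [zpow_natCast, hk1, zpow_zero, mul_one])).1
      omega
    obtain ⟨F, h, x, hF, hx, hh⟩ := Fl.main_v (P := tr P) hP.tr hTv hTh (fun i j => hfin j i) hab
      (fun m n h => (key m n h).2) hfix'
    exact ⟨fun i j => F j i, h, 0, x, Fl.isArray_transpose hF, Or.inr hx, fun i j => by
      rw [hh, add_zero]⟩

end Pool.Agent.Lib.MP_140312_al_SG
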