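import Pool.Agent.Lib.MP_140312_al_SG.Defs
import Pool.Agent.Lib.MP_140312_al.Hyperbolic

/-!
# The Cayley graphs of `G` are not hyperbolic

`G` acts geometrically on a connected graph `X` which contains arbitrarily large isometric square
grids. Then `G` is finitely generated and no Cayley graph of `G` with respect to a finite
generating set is hyperbolic (four-point condition).

The proof uses no stability of quasi-geodesics: for a chain `c 0, …, c N` with `N ≤ 2 ^ k` one has
`(c 0 | c N)_x ≥ min_i (c i | c (i + 1))_x - k δ`, so every point of a geodesic from `c 0` to `c N`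
is at distance `O(log N)` from the chain. Apply this to the two boundary paths of a grid.
-/

namespace Pool.Agent.Lib.MP_140312_al_SG

open Pool.Agent.Lib.MP_140312_al

/-! ### Chains in a hyperbolic graph -/

section chains

variable {W : Type*} {Y : SimpleGraph W}

/-- Twice the Gromov product. -/
noncomputable def gp (Y : SimpleGraph W) (x a b : W) : ℤ := (Y.dist x a : ℤ) + Y.dist x b - Y.dist a b

lemma gp_four {δ : ℕ} (h : ∀ x y z w : W, Y.dist x y + Y.dist z w ≤
    max (Y.dist x z + Y.dist y w) (Y.dist x w + Y.dist y z) + δ) (x a b c : W) :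
    gp Y x a b ≤ gp Y x a c + δ ∨ gp Y x b c ≤ gp Y x a c + δ := by
  have h1 := h x b a c
  have e1 : Y.dist b c = Y.dist c b := SimpleGraph.dist_comm
  have e2 : Y.dist b a = Y.dist a b := SimpleGraph.dist_comm
  unfold gp
  rcases le_total (Y.dist x a + Y.dist b c) (Y.dist x c + Y.dist b a) with h2 | h2
  · rw [max_eq_right h2] at h1
    left
    omega
  · rw [max_eq_left h2] at h1
    right
    omega

lemma gp_chain {δ : ℕ} (h : ∀ x y z w : W, Y.dist x y + Y.dist z w ≤
    max (Y.dist x z + Y.dist y w) (Y.dist x w + Y.dist y z) + δ) (x : W) (c : ℕ → W) :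
    ∀ k a N : ℕ, 1 ≤ N → N ≤ 2 ^ k → ∃ i, a ≤ i ∧ i < a + N ∧
      gp Y x (c i) (c (i + 1)) ≤ gp Y x (c a) (c (a + N)) + k * δ := by
  intro k
  induction k with
  | zero =>
    intro a N h1 h2
    have : N = 1 := by simpa using le_antisymm h2 h1
    subst this
    exact ⟨a, le_refl _, by omega, by simp⟩
  | succ k ih =>
    intro a N h1 h2
    by_cases hN : N ≤ 2 ^ k
    · obtain ⟨i, hi1, hi2, hi3⟩ := ih a N h1 hN
      refine ⟨i, hi1, hi2, hi3.trans ?_⟩
      push_cast
      nlinarith [Int.natCast_nonneg δ]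
    · rw [not_le] at hN
      have h3 : N - 2 ^ k ≤ 2 ^ k := by
        rw [pow_succ] at h2
        omega
      have hk : 1 ≤ 2 ^ k := Nat.one_le_two_pow
      rcases gp_four h x (c a) (c (a + 2 ^ k)) (c (a + N)) with h4 | h4
      · obtain ⟨i, hi1, hi2, hi3⟩ := ih a (2 ^ k) hk le_rfl
        refine ⟨i, hi1, by omega, ?_⟩
        push_cast
        linarith
      · obtain ⟨i, hi1, hi2, hi3⟩ := ih (a + 2 ^ k) (N - 2 ^ k) (by omega) h3
        have e : a + 2 ^ k + (N - 2 ^ k) = a + N := by omega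
        rw [e] at hi3
        refine ⟨i, by omega, by omega, ?_⟩
        push_cast
        linarith

/-- A point of a geodesic is close to every chain with the same end points. -/
lemma near_chain {δ : ℕ} (hc : Y.Connected) (h : ∀ x y z w : W, Y.dist x y + Y.dist z w ≤
    max (Y.dist x z + Y.dist y w) (Y.dist x w + Y.dist y z) + δ) {x p q : W}
    (hx : Y.dist p x + Y.dist x q = Y.dist p q) (c : ℕ → W) {k N r : ℕ} (h1 : 1 ≤ N)
    (h2 : N ≤ 2 ^ k) (h0 : c 0 = p) (hN : c N = q)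
    (hr : ∀ i, i < N → Y.dist (c i) (c (i + 1)) ≤ r) :
    ∃ i, i ≤ N ∧ 2 * Y.dist x (c i) ≤ 2 * r + k * δ := by
  obtain ⟨i, -, hi2, hi3⟩ := gp_chain h x c k 0 N h1 h2
  rw [zero_add] at hi2 hi3
  refine ⟨i, hi2.le, ?_⟩
  rw [h0, hN] at hi3
  have e1 : gp Y x p q = 0 := by
    unfold gp
    rw [SimpleGraph.dist_comm (u := x) (v := p)]
    omega
  rw [e1] at hi3
  have e2 : Y.dist x (c i) ≤ Y.dist x (c (i + 1)) + Y.dist (c (i + 1)) (c i) := hc.dist_triangle
  have e3 : Y.dist (c (i + 1)) (c i) = Y.dist (c i) (c (i + 1)) := SimpleGraph.dist_comm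
  have e4 := hr i hi2
  unfold gp at hi3
  have : ((2 * Y.dist x (c i) : ℕ) : ℤ) ≤ ((2 * r + k * δ : ℕ) : ℤ) := by
    push_cast
    linarith [(by exact_mod_cast e2 : (Y.dist x (c i) : ℤ) ≤
      Y.dist x (c (i + 1)) + Y.dist (c (i + 1)) (c i)), (by exact_mod_cast e3 :
      (Y.dist (c (i + 1)) (c i) : ℤ) = Y.dist (c i) (c (i + 1))), (by exact_mod_cast e4 :
      (Y.dist (c i) (c (i + 1)) : ℤ) ≤ r)]
  exact_mod_cast this

lemma exists_pow_gt (α β : ℕ) : ∃ j : ℕ, 1 ≤ j ∧ α * j + β < 2 ^ j := by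
  obtain ⟨m, hm⟩ : ∃ m : ℕ, 2 * α + β < 2 ^ m := ⟨_, Nat.lt_two_pow_self⟩
  refine ⟨2 * m + 2, by omega, ?_⟩
  have h1 : m + 1 < 2 ^ (m + 1) := Nat.lt_two_pow_self
  have h2 : 2 ^ (2 * m + 2) = 2 ^ (m + 1) * 2 ^ (m + 1) := by
    rw [← pow_add]
    congr 1
    omega
  have h3 : 2 * α + β < 2 ^ (m + 1) := hm.trans (Nat.pow_lt_pow_right (by norm_num) (by omega))
  rw [h2]
  have h4 : (2 * α + β) * (m + 1) ≤ 2 ^ (m + 1) * (m + 1) := Nat.mul_le_mul_right _ h3.le
  have h5 : 2 ^ (m + 1) * (m + 1) < 2 ^ (m + 1) * 2 ^ (m + 1) :=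
    Nat.mul_lt_mul_of_pos_left h1 (by positivity)
  nlinarith

/-- A graph with coarsely embedded arbitrarily large square grids is not hyperbolic. -/
lemma not_hyperbolic_of_coarse_grids (hc : Y.Connected) {C D M : ℕ}
    (hgrid : ∀ n : ℕ, ∃ f : ℕ → ℕ → W, ∀ i j i' j', i ≤ n → j ≤ n → i' ≤ n → j' ≤ n →
      ((i : ℤ) - i').natAbs + ((j : ℤ) - j').natAbs ≤ C * Y.dist (f i j) (f i' j') + D ∧
      Y.dist (f i j) (f i' j') ≤ M * (((i : ℤ) - i').natAbs + ((j : ℤ) - j').natAbs) + M) :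
    ¬ IsHyperbolic Y := by
  rintro ⟨δ, hδ⟩
  -- constants
  obtain ⟨j₀, hj1, hj⟩ := exists_pow_gt (C * δ + C * (2 * (δ + M * (C * δ))))
    ((C * (4 * M) + C * δ + D) +
      (C * (1 + 2 * (4 * M + δ + M * (C * (4 * M) + C * δ + D) + M)) + D))
  obtain ⟨n, hn⟩ : ∃ n, n = 2 ^ j₀ := ⟨_, rfl⟩
  rw [← hn] at hj
  obtain ⟨f, hf⟩ := hgrid n
  obtain ⟨E, hE⟩ : ∃ E, E = C * (4 * M + (j₀ + 1) * δ) + D := ⟨_, rfl⟩
  have hEn : E < n := by
    rw [hE]
    refine lt_of_le_of_lt ?_ hj
    have e : (C * δ + C * (2 * (δ + M * (C * δ)))) * j₀ + ((C * (4 * M) + C * δ + D) +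
        (C * (1 + 2 * (4 * M + δ + M * (C * (4 * M) + C * δ + D) + M)) + D)) =
        (C * (4 * M + (j₀ + 1) * δ) + D) + (C * (2 * (δ + M * (C * δ))) * j₀ +
        (C * (1 + 2 * (4 * M + δ + M * (C * (4 * M) + C * δ + D) + M)) + D)) := by ring
    rw [e]
    exact Nat.le_add_right _ _
  have hbig : C * (1 + 2 * (4 * M + (j₀ + 1) * δ + M * E + M)) + D < n := by
    rw [hE]
    refine lt_of_le_of_lt ?_ hj
    have e : (C * δ + C * (2 * (δ + M * (C * δ)))) * j₀ + ((C * (4 * M) + C * δ + D) +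
        (C * (1 + 2 * (4 * M + δ + M * (C * (4 * M) + C * δ + D) + M)) + D)) =
        (C * (1 + 2 * (4 * M + (j₀ + 1) * δ + M * (C * (4 * M + (j₀ + 1) * δ) + D) + M)) + D) +
        (C * δ * j₀ + (C * (4 * M) + C * δ + D)) := by ring
    rw [e]
    exact Nat.le_add_right _ _
  obtain ⟨p, hp⟩ : ∃ p, p = f 0 0 := ⟨_, rfl⟩
  obtain ⟨q, hq⟩ : ∃ q, q = f n n := ⟨_, rfl⟩
  -- the middle point
  obtain ⟨u, hu0, hu1, hu⟩ := exists_geodesic hc p q
  obtain ⟨ℓ, hℓ⟩ : ∃ ℓ, ℓ = Y.dist p q := ⟨_, rfl⟩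
  rw [← hℓ] at hu1 hu
  have hle : ∀ a b, a ≤ b → b ≤ ℓ → Y.dist (u a) (u b) ≤ b - a := by
    intro a b hab
    induction b, hab using Nat.le_induction with
    | base => intro _; simp
    | succ b hab ih =>
      intro hb
      have h1 := ih (by omega)
      have h2 : Y.dist (u b) (u (b + 1)) = 1 := SimpleGraph.dist_eq_one_iff_adj.2 (hu b (by omega))
      have h3 : Y.dist (u a) (u (b + 1)) ≤ Y.dist (u a) (u b) + Y.dist (u b) (u (b + 1)) :=
        hc.dist_triangle
      omega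
  obtain ⟨x, hx⟩ : ∃ x, x = u (ℓ / 2) := ⟨_, rfl⟩
  have hpx : Y.dist p x ≤ ℓ / 2 := by
    have := hle 0 (ℓ / 2) (Nat.zero_le _) (Nat.div_le_self _ _)
    rw [hu0, ← hx] at this
    omega
  have hxq : Y.dist x q ≤ ℓ - ℓ / 2 := by
    have := hle (ℓ / 2) ℓ (Nat.div_le_self _ _) le_rfl
    rw [hu1, ← hx] at this
    exact this
  have htri : Y.dist p q ≤ Y.dist p x + Y.dist x q := hc.dist_triangle
  rw [← hℓ] at htri
  have hgeo : Y.dist p x + Y.dist x q = Y.dist p q := by omega
  -- the two boundary paths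
  obtain ⟨c, hcdef⟩ : ∃ c : ℕ → W, c = fun t => if t ≤ n then f t 0 else f n (t - n) := ⟨_, rfl⟩
  obtain ⟨c', hcdef'⟩ : ∃ c' : ℕ → W, c' = fun t => if t ≤ n then f 0 t else f (t - n) n :=
    ⟨_, rfl⟩
  have hnpos : 1 ≤ n := by
    rw [hn]
    exact Nat.one_le_two_pow
  have h2n : 2 * n ≤ 2 ^ (j₀ + 1) := by
    rw [hn, pow_succ]
    omega
  have hstep : ∀ i j i' j', i ≤ n → j ≤ n → i' ≤ n → j' ≤ n →
      ((i : ℤ) - i').natAbs + ((j : ℤ) - j').natAbs = 1 → Y.dist (f i j) (f i' j') ≤ 2 * M := by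
    intro i j i' j' h1 h2 h3 h4 h5
    have := (hf i j i' j' h1 h2 h3 h4).2
    rw [h5] at this
    omega
  obtain ⟨a, ha, ha2⟩ := near_chain hc hδ (x := x) (p := p) (q := q) hgeo c (k := j₀ + 1)
    (N := 2 * n) (r := 2 * M) (by omega) h2n (by rw [hcdef, hp]; simp)
    (by
      rw [hcdef, hq]
      have : ¬ (2 * n ≤ n) := by omega
      simp only [this, if_false]
      congr 1
      omega)
    (by
      intro i hi
      rw [hcdef]
      simp only
      by_cases h1 : i + 1 ≤ n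
      · rw [if_pos (by omega : i ≤ n), if_pos h1]
        exact hstep _ _ _ _ (by omega) (by omega) (by omega) (by omega) (by omega)
      · by_cases h2 : i ≤ n
        · rw [if_pos h2, if_neg h1]
          exact hstep _ _ _ _ (by omega) (by omega) (by omega) (by omega) (by omega)
        · rw [if_neg h2, if_neg h1]
          exact hstep _ _ _ _ (by omega) (by omega) (by omega) (by omega) (by omega))
  obtain ⟨b, hb, hb2⟩ := near_chain hc hδ (x := x) (p := p) (q := q) hgeo c' (k := j₀ + 1)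
    (N := 2 * n) (r := 2 * M) (by omega) h2n (by rw [hcdef', hp]; simp)
    (by
      rw [hcdef', hq]
      have : ¬ (2 * n ≤ n) := by omega
      simp only [this, if_false]
      congr 1
      omega)
    (by
      intro i hi
      rw [hcdef']
      simp only
      by_cases h1 : i + 1 ≤ n
      · rw [if_pos (by omega : i ≤ n), if_pos h1]
        exact hstep _ _ _ _ (by omega) (by omega) (by omega) (by omega) (by omega)
      · by_cases h2 : i ≤ n
        · rw [if_pos h2, if_neg h1]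
          exact hstep _ _ _ _ (by omega) (by omega) (by omega) (by omega) (by omega)
        · rw [if_neg h2, if_neg h1]
          exact hstep _ _ _ _ (by omega) (by omega) (by omega) (by omega) (by omega))
  obtain ⟨κ, hκ⟩ : ∃ κ, κ = (j₀ + 1) * δ := ⟨_, rfl⟩
  rw [← hκ] at ha2 hb2 hE hbig
  have hab : Y.dist (c a) (c' b) ≤ 4 * M + κ := by
    have h1 : Y.dist (c a) (c' b) ≤ Y.dist (c a) x + Y.dist x (c' b) := hc.dist_triangle
    have h2 : Y.dist (c a) x = Y.dist x (c a) := SimpleGraph.dist_comm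
    omega
  -- coordinates
  obtain ⟨i, j, hca, hi, hj', hca2⟩ : ∃ i j, c a = f i j ∧ i ≤ n ∧ j ≤ n ∧ (j = 0 ∨ i = n) := by
    rw [hcdef]
    by_cases h1 : a ≤ n
    · exact ⟨a, 0, by simp [h1], h1, by omega, Or.inl rfl⟩
    · exact ⟨n, a - n, by simp [h1], le_rfl, by omega, Or.inr rfl⟩
  obtain ⟨i', j', hcb, hi', hj'', hcb2⟩ :
      ∃ i j, c' b = f i j ∧ i ≤ n ∧ j ≤ n ∧ (i = 0 ∨ j = n) := by
    rw [hcdef']
    by_cases h1 : b ≤ n
    · exact ⟨0, b, by simp [h1], by omega, h1, Or.inl rfl⟩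
    · exact ⟨b - n, n, by simp [h1], by omega, le_rfl, Or.inr rfl⟩
  have hdist : ((i : ℤ) - i').natAbs + ((j : ℤ) - j').natAbs ≤ E := by
    have h1 := (hf i j i' j' hi hj' hi' hj'').1
    rw [← hca, ← hcb] at h1
    rw [hE]
    have h2 : C * Y.dist (c a) (c' b) ≤ C * (4 * M + κ) := Nat.mul_le_mul_left _ hab
    omega
  have hpq : 2 * n ≤ C * ℓ + D := by
    have h1 := (hf 0 0 n n (by omega) (by omega) le_rfl le_rfl).1
    rw [← hp, ← hq, ← hℓ] at h1
    omega
  have hfin : ℓ ≤ 1 + 2 * (4 * M + κ + M * E + M) := by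
    by_cases hcase : i + j ≤ E
    · -- near the corner `p`
      have h1 := (hf 0 0 i j (by omega) (by omega) hi hj').2
      rw [← hp, ← hca] at h1
      have h2 : ((((0 : ℕ) : ℤ) - i).natAbs + (((0 : ℕ) : ℤ) - j).natAbs) ≤ E := by omega
      have h3 : M * ((((0 : ℕ) : ℤ) - i).natAbs + (((0 : ℕ) : ℤ) - j).natAbs) ≤ M * E :=
        Nat.mul_le_mul_left _ h2
      have h4 : Y.dist p x ≤ Y.dist p (c a) + Y.dist (c a) x := hc.dist_triangle
      have h5 : Y.dist (c a) x = Y.dist x (c a) := SimpleGraph.dist_comm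
      omega
    · have h0 : n ≤ i + E ∧ n ≤ j + E := by
        rcases hca2 with h | h <;> rcases hcb2 with h' | h' <;> omega
      have h1 := (hf i j n n hi hj' le_rfl le_rfl).2
      rw [← hq, ← hca] at h1
      have h2 : (((i : ℤ) - n).natAbs + ((j : ℤ) - n).natAbs) ≤ E := by
        rcases hca2 with h | h <;> rcases hcb2 with h' | h' <;> omega
      have h3 : M * (((i : ℤ) - n).natAbs + ((j : ℤ) - n).natAbs) ≤ M * E :=
        Nat.mul_le_mul_left _ h2
      have h4 : Y.dist x q ≤ Y.dist x (c a) + Y.dist (c a) q := hc.dist_triangle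
      omega
  have h1 : C * ℓ ≤ C * (1 + 2 * (4 * M + κ + M * E + M)) := Nat.mul_le_mul_left _ hfin
  omega

end chains

/-! ### Cayley graphs -/

section cayley

variable {G : Type*} [Group G] {S : Set G}

lemma cayley_adj_mul_left (k : G) {g h : G} (hgh : (cayley S).Adj g h) :
    (cayley S).Adj (k * g) (k * h) := by
  refine ⟨fun h1 => hgh.1 (mul_left_cancel h1), ?_⟩
  have e1 : (k * g)⁻¹ * (k * h) = g⁻¹ * h := by group
  have e2 : (k * h)⁻¹ * (k * g) = h⁻¹ * g := by group
  rw [e1, e2]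
  exact hgh.2

lemma cayley_connected (hgen : Subgroup.closure S = ⊤) : (cayley S).Connected := by
  have key : ∀ g : G, ∀ h : G, (cayley S).Reachable h (h * g) := by
    intro g
    have hg : g ∈ Subgroup.closure S := by
      rw [hgen]
      exact Subgroup.mem_top g
    refine Subgroup.closure_induction (p := fun g _ => ∀ h : G, (cayley S).Reachable h (h * g))
      ?_ ?_ ?_ ?_ hg
    · intro s hs h
      by_cases h1 : s = 1
      · rw [h1, mul_one]
      · refine SimpleGraph.Adj.reachable ⟨fun h2 => h1 ?_, Or.inl ?_⟩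
        · exact mul_left_cancel (a := h) (by rw [← h2, mul_one])
        · rw [inv_mul_cancel_left]
          exact hs
    · intro h
      rw [mul_one]
    · intro a b _ _ ha hb h
      rw [← mul_assoc]
      exact (ha h).trans (hb (h * a))
    · intro a _ ha h
      have := ha (h * a⁻¹)
      rw [inv_mul_cancel_right] at this
      exact this.symm
  refine { preconnected := ?_, nonempty := ⟨1⟩ }
  intro g h
  have := key (g⁻¹ * h) g
  rwa [mul_inv_cancel_left] at this

lemma cayley_dist_mul_left (hgen : Subgroup.closure S = ⊤) (k g h : G) :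
    (cayley S).dist (k * g) (k * h) = (cayley S).dist g h := by
  have key : ∀ k g h : G, (cayley S).dist (k * g) (k * h) ≤ (cayley S).dist g h := by
    intro k g h
    obtain ⟨p, hp⟩ := (cayley_connected hgen).exists_walk_length_eq_dist g h
    let φ : cayley S →g cayley S := ⟨fun v => k * v, fun h => cayley_adj_mul_left k h⟩
    have := SimpleGraph.dist_le (p.map φ)
    rw [SimpleGraph.Walk.length_map, hp] at this
    exact this
  refine le_antisymm (key k g h) ?_
  have := key k⁻¹ (k * g) (k * h)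
  simpa using this

end cayley

/-! ### Geometric actions -/

section geometric

variable {V : Type*} {G : Type*} [Group G] [MulAction G V] {X : SimpleGraph V}

/-- The orbit of `x₀` is coarsely dense. -/
lemma exists_coarsely_dense (hc : X.Connected) (hG : GeometricAction G X) (x₀ : V) :
    ∃ D : ℕ, ∀ x : V, ∃ g : G, X.dist (g • x₀) x ≤ D := by
  obtain ⟨K, hK, hK2⟩ := hG.cocompact
  obtain ⟨D, hD⟩ : ∃ D : ℕ, ∀ y ∈ K, X.dist x₀ y ≤ D := by
    obtain ⟨D, hD⟩ := (hK.image fun y => X.dist x₀ y).bddAbove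
    exact ⟨D, fun y hy => hD ⟨y, hy, rfl⟩⟩
  refine ⟨D, fun x => ?_⟩
  obtain ⟨g, hg⟩ := hK2 x
  refine ⟨g⁻¹, ?_⟩
  have h1 := hD _ hg
  have h2 := dist_smul hG hc g⁻¹ x₀ (g • x)
  rw [inv_smul_smul] at h2
  rw [h2]
  exact h1

lemma finite_moving_set (hc : X.Connected) (hG : GeometricAction G X) (x₀ : V) (n : ℕ) :
    {g : G | X.dist x₀ (g • x₀) ≤ n}.Finite := by
  have hB := ball_finite hG hc x₀ n
  have h1 : {g : G | X.dist x₀ (g • x₀) ≤ n} ⊆ ⋃ y ∈ {y | X.dist x₀ y ≤ n},
      {g : G | g • x₀ = y} := by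
    intro g hg
    simp only [Set.mem_iUnion]
    exact ⟨g • x₀, hg, rfl⟩
  refine (hB.biUnion fun y _ => ?_).subset h1
  by_cases hne : ∃ g₀ : G, g₀ • x₀ = y
  · obtain ⟨g₀, hg₀⟩ := hne
    refine ((hG.finite_stabilizer x₀).image fun g => g₀ * g).subset ?_
    intro g hg
    refine ⟨g₀⁻¹ * g, ?_, by simp⟩
    show (g₀⁻¹ * g) • x₀ = x₀
    have hg' : g • x₀ = y := hg
    rw [mul_smul, hg', ← hg₀, inv_smul_smul]
  · refine Set.Finite.subset Set.finite_empty ?_
    intro g hg
    exact hne ⟨g, hg⟩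

/-- The chain argument of the Svarc-Milnor lemma. -/
lemma chain_induction (hc : X.Connected) (hG : GeometricAction G X) (x₀ : V) {D : ℕ}
    (hD : ∀ x : V, ∃ g : G, X.dist (g • x₀) x ≤ D) {P : ℕ → G → Prop}
    (h0 : ∀ g, X.dist x₀ (g • x₀) ≤ 2 * D + 1 → P 1 g)
    (h1 : ∀ n g h, P n g → X.dist x₀ (h • x₀) ≤ 2 * D + 1 → P (n + 1) (g * h)) (g : G) :
    P (X.dist x₀ (g • x₀) + 1) g := by
  have key : ∀ n : ℕ, ∀ g : G, ∀ x : V, X.dist x₀ x ≤ n → X.dist (g • x₀) x ≤ D → P (n + 1) g := by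
    intro n
    induction n with
    | zero =>
      intro g x hx hg
      refine h0 g ?_
      have h2 : x₀ = x := hc.dist_eq_zero_iff.1 (by omega)
      rw [← h2, SimpleGraph.dist_comm] at hg
      omega
    | succ n ih =>
      intro g x hx hg
      by_cases hx' : X.dist x₀ x ≤ n
      · have h3 := h1 (n + 1) g 1 (ih g x hx' hg) (by simp)
        simpa using h3
      · have h2 : X.dist x x₀ = n + 1 := by
          rw [SimpleGraph.dist_comm]
          omega
        obtain ⟨y, hxy, hy⟩ := exists_step hc h2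
        obtain ⟨h, hh⟩ := hD y
        have h3 := ih h y (by rw [SimpleGraph.dist_comm]; omega) hh
        have h4 := h1 (n + 1) h (h⁻¹ * g) h3 ?_
        · rwa [mul_inv_cancel_left] at h4
        · have e := dist_smul hG hc h x₀ ((h⁻¹ * g) • x₀)
          rw [← e, smul_smul, mul_inv_cancel_left]
          have t1 : X.dist (h • x₀) (g • x₀) ≤ X.dist (h • x₀) y + X.dist y (g • x₀) :=
            hc.dist_triangle
          have t2 : X.dist y (g • x₀) ≤ X.dist y x + X.dist x (g • x₀) := hc.dist_triangle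
          have t3 : X.dist y x = 1 := SimpleGraph.dist_eq_one_iff_adj.2 hxy.symm
          have t4 : X.dist x (g • x₀) = X.dist (g • x₀) x := SimpleGraph.dist_comm
          omega
  exact key _ g (g • x₀) le_rfl (by simp)

/-- A group with a geometric action on a connected graph is finitely generated. -/
theorem fg_of_geometric (hc : X.Connected) (hG : GeometricAction G X) : Group.FG G := by
  obtain ⟨x₀⟩ := hc.nonempty
  obtain ⟨D, hD⟩ := exists_coarsely_dense hc hG x₀
  have hF := finite_moving_set hc hG x₀ (2 * D + 1)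
  rw [Group.fg_iff]
  refine ⟨_, ?_, hF⟩
  rw [eq_top_iff]
  intro g _
  refine chain_induction hc hG x₀ hD
    (P := fun _ g => g ∈ Subgroup.closure {g : G | X.dist x₀ (g • x₀) ≤ 2 * D + 1}) ?_ ?_ g
  · intro g hg
    exact Subgroup.subset_closure hg
  · intro n g h hg hh
    exact mul_mem hg (Subgroup.subset_closure hh)

/-- If `G` acts geometrically on a connected graph with arbitrarily large isometric square grids
then no Cayley graph of `G` with respect to a finite generating set is hyperbolic. -/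
theorem not_hyperbolic_cayley (hc : X.Connected) (hG : GeometricAction G X)
    (hgrid : ∀ n : ℕ, ∃ f : ℕ → ℕ → V, ∀ i j i' j', i ≤ n → j ≤ n → i' ≤ n → j' ≤ n →
      X.dist (f i j) (f i' j') = ((i : ℤ) - i').natAbs + ((j : ℤ) - j').natAbs)
    {S : Set G} (hS : S.Finite) (hgen : Subgroup.closure S = ⊤) :
    ¬ IsHyperbolic (cayley S) := by
  obtain ⟨x₀⟩ := hc.nonempty
  have hY := cayley_connected hgen
  obtain ⟨D, hD⟩ := exists_coarsely_dense hc hG x₀
  have hF := finite_moving_set hc hG x₀ (2 * D + 1)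
  -- the orbit map is Lipschitz
  obtain ⟨C, hC⟩ : ∃ C : ℕ, ∀ s ∈ S, X.dist x₀ (s • x₀) ≤ C := by
    obtain ⟨C, hC⟩ := (hS.image fun s => X.dist x₀ (s • x₀)).bddAbove
    exact ⟨C, fun y hy => hC ⟨y, hy, rfl⟩⟩
  have hadj : ∀ g h, (cayley S).Adj g h → X.dist (g • x₀) (h • x₀) ≤ C := by
    rintro g h ⟨-, h1 | h1⟩
    · have e := dist_smul hG hc g x₀ ((g⁻¹ * h) • x₀)
      rw [smul_smul, mul_inv_cancel_left] at e
      rw [e]
      exact hC _ h1
    · have e := dist_smul hG hc h x₀ ((h⁻¹ * g) • x₀)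
      rw [smul_smul, mul_inv_cancel_left] at e
      rw [SimpleGraph.dist_comm, e]
      exact hC _ h1
  have hlip : ∀ g h, X.dist (g • x₀) (h • x₀) ≤ C * (cayley S).dist g h := by
    intro g h
    obtain ⟨p, hp⟩ := hY.exists_walk_length_eq_dist g h
    rw [← hp]
    clear hp
    induction p with
    | nil => simp
    | cons hadj' q ih =>
      rename_i a b c
      rw [SimpleGraph.Walk.length_cons]
      have t1 : X.dist (a • x₀) (c • x₀) ≤ X.dist (a • x₀) (b • x₀) + X.dist (b • x₀) (c • x₀) :=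
        hc.dist_triangle
      have t2 := hadj a b hadj'
      rw [mul_add, mul_one]
      omega
  -- the converse estimate
  obtain ⟨M, hM⟩ : ∃ M : ℕ, ∀ g, X.dist x₀ (g • x₀) ≤ 2 * D + 1 →
      (cayley S).dist 1 g ≤ M := by
    obtain ⟨M, hM⟩ := (hF.image fun g => (cayley S).dist 1 g).bddAbove
    exact ⟨M, fun y hy => hM ⟨y, hy, rfl⟩⟩
  have hup0 : ∀ g, (cayley S).dist 1 g ≤ M * (X.dist x₀ (g • x₀) + 1) := by
    intro g
    refine chain_induction hc hG x₀ hD (P := fun n g => (cayley S).dist 1 g ≤ M * n) ?_ ?_ g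
    · intro g hg
      simpa using hM g hg
    · intro n g h hg hh
      have t1 : (cayley S).dist 1 (g * h) ≤ (cayley S).dist 1 g +
          (cayley S).dist g (g * h) := hY.dist_triangle
      have t2 := cayley_dist_mul_left hgen g 1 h
      rw [mul_one] at t2
      have t3 := hM h hh
      rw [mul_add, mul_one]
      omega
  have hup : ∀ g h, (cayley S).dist g h ≤ M * (X.dist (g • x₀) (h • x₀) + 1) := by
    intro g h
    have t1 := cayley_dist_mul_left hgen g 1 (g⁻¹ * h)
    rw [mul_one, mul_inv_cancel_left] at t1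
    have t2 := hup0 (g⁻¹ * h)
    have e := dist_smul hG hc g x₀ ((g⁻¹ * h) • x₀)
    rw [smul_smul, mul_inv_cancel_left] at e
    rw [t1, e]
    exact t2
  -- the grids
  refine not_hyperbolic_of_coarse_grids hY (C := C) (D := 2 * D) (M := M * (2 * D + 1)) ?_
  intro n
  obtain ⟨f, hf⟩ := hgrid n
  choose γ hγ using hD
  refine ⟨fun i j => γ (f i j), ?_⟩
  intro i j i' j' hi hj hi' hj'
  have h0 := hf i j i' j' hi hj hi' hj'
  have t1 := hγ (f i j)
  have t2 := hγ (f i' j')
  obtain ⟨N, hN⟩ : ∃ N, N = ((i : ℤ) - i').natAbs + ((j : ℤ) - j').natAbs := ⟨_, rfl⟩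
  rw [← hN] at h0 ⊢
  have u1 : X.dist (γ (f i j) • x₀) (γ (f i' j') • x₀) ≤
      X.dist (γ (f i j) • x₀) (f i j) + X.dist (f i j) (γ (f i' j') • x₀) := hc.dist_triangle
  have u2 : X.dist (f i j) (γ (f i' j') • x₀) ≤
      X.dist (f i j) (f i' j') + X.dist (f i' j') (γ (f i' j') • x₀) := hc.dist_triangle
  have u3 : X.dist (f i' j') (γ (f i' j') • x₀) = X.dist (γ (f i' j') • x₀) (f i' j') :=
    SimpleGraph.dist_comm
  have v1 : X.dist (f i j) (f i' j') ≤
      X.dist (f i j) (γ (f i j) • x₀) + X.dist (γ (f i j) • x₀) (f i' j') := hc.dist_triangle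
  have v2 : X.dist (γ (f i j) • x₀) (f i' j') ≤
      X.dist (γ (f i j) • x₀) (γ (f i' j') • x₀) + X.dist (γ (f i' j') • x₀) (f i' j') :=
    hc.dist_triangle
  have v3 : X.dist (f i j) (γ (f i j) • x₀) = X.dist (γ (f i j) • x₀) (f i j) :=
    SimpleGraph.dist_comm
  have w1 := hlip (γ (f i j)) (γ (f i' j'))
  have w2 := hup (γ (f i j)) (γ (f i' j'))
  constructor
  · show N ≤ C * (cayley S).dist (γ (f i j)) (γ (f i' j')) + 2 * D
    omega
  · refine w2.trans ?_
    have : X.dist (γ (f i j) • x₀) (γ (f i' j') • x₀) + 1 ≤ (2 * D + 1) * N + (2 * D + 1) := by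
      nlinarith
    calc M * (X.dist (γ (f i j) • x₀) (γ (f i' j') • x₀) + 1)
        ≤ M * ((2 * D + 1) * N + (2 * D + 1)) := Nat.mul_le_mul_left _ this
      _ = M * (2 * D + 1) * N + M * (2 * D + 1) := by ring

end geometric

end Pool.Agent.Lib.MP_140312_al_SG
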