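import Pool.Agent.Lib.MP_140312_al_SG.Develop
import Pool.Agent.Lib.MP_140312_al_SG.WordHyp

/-!
# Large square arrays: the development is not hyperbolic
-/

namespace Pool.Agent.Lib.MP_140312_al_SG

open Pool.Agent.Lib.MP_140312_al

/-! ### Reduced sequences in trees -/

theorem exists_path_of_reduced {V : Type*} {X : SimpleGraph V} (hX : X.IsAcyclic) (a : ℕ → V)
    (N : ℕ) (hadj : ∀ i < N, X.Adj (a i) (a (i + 1))) (hne : ∀ i, i + 1 < N → a i ≠ a (i + 2)) :
    ∀ i ≤ N, ∃ p : X.Walk (a 0) (a i), p.IsPath ∧ p.length = i ∧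
      (∀ k, i = k + 1 → p.penultimate = a k) := by
  intro i
  induction i with
  | zero => intro _; exact ⟨SimpleGraph.Walk.nil, by simp, rfl, by intro k hk; omega⟩
  | succ i ih =>
    intro hi
    obtain ⟨p, hp, hl, hpen⟩ := ih (by omega)
    have ha := hadj i (by omega)
    refine ⟨p.concat ha, ?_, by simp [hl], ?_⟩
    · refine hp.concat ?_ ha
      intro hmem
      rcases Nat.eq_zero_or_pos i with h0 | h0
      · subst h0
        have h1 : p.length = 0 := hl
        have h2 : p.support = [a 0] := by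
          cases p with
          | nil => rfl
          | cons h q => simp at h1
        rw [h2, List.mem_singleton] at hmem
        exact ha.ne hmem.symm
      · obtain ⟨k, rfl⟩ : ∃ k, i = k + 1 := ⟨i - 1, by omega⟩
        have h1 := hX.eq_penultimate_of_adj_end hp ha hmem
        rw [hpen k rfl] at h1
        exact hne k (by omega) h1.symm
    · intro k hk
      have : k = i := by omega
      subst this
      simp

theorem dist_of_reduced {V : Type*} {X : SimpleGraph V} (hX : X.IsTree) (a : ℕ → V)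
    (N : ℕ) (hadj : ∀ i < N, X.Adj (a i) (a (i + 1))) (hne : ∀ i, i + 1 < N → a i ≠ a (i + 2)) :
    X.dist (a 0) (a N) = N := by
  obtain ⟨p, hp, hl, -⟩ := exists_path_of_reduced hX.isAcyclic a N hadj hne N le_rfl
  obtain ⟨q, hq, hq'⟩ := (hX.connected (a 0) (a N)).exists_path_of_dist
  have h := (hX.isAcyclic.subsingleton_path (a 0) (a N)).elim ⟨p, hp⟩ ⟨q, hq⟩
  have h' : p = q := congrArg Subtype.val h
  rw [← hq', ← h', hl]

section

variable {G : Type*} [Group G] {P : Bool → Bool → Subgroup G}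

lemma hedge_le (P : Bool → Bool → Subgroup G) (i j : Bool) : hedge P j ≤ P i j := by
  cases i
  · exact inf_le_left
  · exact inf_le_right

lemma vedge_le (P : Bool → Bool → Subgroup G) (i j : Bool) : vedge P i ≤ P i j := by
  cases j
  · exact inf_le_left
  · exact inf_le_right

/-- A nontrivial element of a vertical edge group does not lie in the opposite column group. -/
lemma eq_one_of_mem (hP : IsSquare P) {b : Bool} {x : G} (hx : x ∈ vedge P (!b))
    (hx' : x ∈ col P b) : x = 1 := by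
  have h1 : x ∈ row P false := le_row P (!b) false (vedge_le P (!b) false hx)
  have h2 : x ∈ P b false := by rw [← hP.inter b false]; exact ⟨hx', h1⟩
  have h3 : x ∈ P (!b) false := vedge_le P (!b) false hx
  have h4 : x ∈ hedge P false := by
    cases b
    · exact ⟨h2, h3⟩
    · exact ⟨h3, h2⟩
  have h5 : x ∈ hedge P false ⊓ vedge P (!b) := ⟨h4, hx⟩
  rw [hP.npc] at h5
  exact h5

lemma bodd_succ' (i : ℤ) : (i + 1).bodd = !i.bodd := by
  rw [Int.bodd_add]; cases i.bodd <;> rfl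

lemma bodd_add_two' (i : ℤ) : (i + 2).bodd = i.bodd := by
  rw [Int.bodd_add]; cases i.bodd <;> rfl

/-- The column of the square `(i, 0)`, as a vertex of the horizontal tree. -/
def colVtx (P : Bool → Bool → Subgroup G) (F : ℤ → ℤ → G) (i : ℤ) : Σ i : Bool, G ⧸ col P i :=
  ⟨i.bodd, (F i 0 : G ⧸ col P i.bodd)⟩

/-- The columns of an array form a reduced path in the horizontal tree. -/
lemma array_dist (hP : IsSquare P) (hT : (BS (col P)).IsTree) {N : ℕ} {F : ℤ → ℤ → G}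
    (hF : IsArrayOn P (Set.Icc 0 (N : ℤ)) (Set.Icc 0 (N : ℤ)) F) (a k : ℕ) (hk : a + k ≤ N) :
    (BS (col P)).dist (colVtx P F a) (colVtx P F ((a + k : ℕ) : ℤ)) = k := by
  have h0 : (0 : ℤ) ∈ Set.Icc (0 : ℤ) N := ⟨le_rfl, by positivity⟩
  have key := dist_of_reduced hT (fun n : ℕ => colVtx P F ((a + n : ℕ) : ℤ)) k ?_ ?_
  · simpa using key
  · intro i hi
    have hi1 : ((a + i : ℕ) : ℤ) ∈ Set.Icc (0 : ℤ) N :=
      ⟨by positivity, by exact_mod_cast (by omega : a + i ≤ N)⟩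
    have hi2 : ((a + i : ℕ) : ℤ) + 1 ∈ Set.Icc (0 : ℤ) N :=
      ⟨by positivity, by exact_mod_cast (by omega : a + i + 1 ≤ N)⟩
    have e1 : ((a + (i + 1) : ℕ) : ℤ) = ((a + i : ℕ) : ℤ) + 1 := by push_cast; ring
    show (BS (col P)).Adj (colVtx P F ((a + i : ℕ) : ℤ)) (colVtx P F ((a + (i + 1) : ℕ) : ℤ))
    rw [e1]
    generalize ((a + i : ℕ) : ℤ) = m at hi1 hi2
    refine ⟨?_, F m 0, rfl, ?_⟩
    · show m.bodd ≠ (m + 1).bodd
      rw [bodd_succ']
      cases m.bodd <;> simp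
    · show ((F (m + 1) 0 : G) : G ⧸ col P (m + 1).bodd) = (F m 0 : G ⧸ col P (m + 1).bodd)
      symm
      rw [QuotientGroup.eq]
      exact le_col P _ false (vedge_le P _ false (hF.hmem m hi1 hi2 0 h0))
  · intro i hi
    have hi0 : ((a + i : ℕ) : ℤ) ∈ Set.Icc (0 : ℤ) N :=
      ⟨by positivity, by exact_mod_cast (by omega : a + i ≤ N)⟩
    have hi1 : ((a + i : ℕ) : ℤ) + 1 ∈ Set.Icc (0 : ℤ) N :=
      ⟨by positivity, by exact_mod_cast (by omega : a + i + 1 ≤ N)⟩
    have hi2 : ((a + i : ℕ) : ℤ) + 1 + 1 ∈ Set.Icc (0 : ℤ) N :=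
      ⟨by positivity, by exact_mod_cast (by omega : a + i + 1 + 1 ≤ N)⟩
    have e2 : ((a + (i + 2) : ℕ) : ℤ) = ((a + i : ℕ) : ℤ) + 1 + 1 := by push_cast; ring
    show colVtx P F ((a + i : ℕ) : ℤ) ≠ colVtx P F ((a + (i + 2) : ℕ) : ℤ)
    rw [e2]
    generalize ((a + i : ℕ) : ℤ) = m at hi0 hi1 hi2
    intro heq
    have hx1 := hF.hmem m hi0 hi1 0 h0
    have hx2 := hF.hmem _ hi1 hi2 0 h0
    have hb : (m + 1 + 1).bodd = m.bodd := by
      rw [bodd_succ', bodd_succ', Bool.not_not]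
    rw [colVtx, colVtx, hb] at heq
    rw [hb] at hx2
    have hq : ((F m 0 : G) : G ⧸ col P m.bodd) = (F (m + 1 + 1) 0 : G) := by
      simpa using heq
    rw [QuotientGroup.eq] at hq
    have hx2' : (F (m + 1) 0)⁻¹ * F (m + 1 + 1) 0 ∈ col P m.bodd :=
      le_col P _ false (vedge_le P _ false hx2)
    have hx : (F m 0)⁻¹ * F (m + 1) 0 ∈ col P m.bodd := by
      have : (F m 0)⁻¹ * F (m + 1) 0 =
          ((F m 0)⁻¹ * F (m + 1 + 1) 0) * ((F (m + 1) 0)⁻¹ * F (m + 1 + 1) 0)⁻¹ := by group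
      rw [this]
      exact mul_mem hq (inv_mem hx2')
    rw [bodd_succ'] at hx1
    have h1 := eq_one_of_mem hP hx1 hx
    exact hF.hne m hi0 hi1 0 h0 (by rw [inv_mul_eq_one] at h1; exact h1)

lemma array_dist' (hP : IsSquare P) (hT : (BS (col P)).IsTree) {N : ℕ} {F : ℤ → ℤ → G}
    (hF : IsArrayOn P (Set.Icc 0 (N : ℤ)) (Set.Icc 0 (N : ℤ)) F) (a b : ℕ) (ha : a ≤ N)
    (hb : b ≤ N) :
    (BS (col P)).dist (colVtx P F a) (colVtx P F b) = ((a : ℤ) - b).natAbs := by
  rcases le_total a b with h | h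
  · obtain ⟨k, rfl⟩ := Nat.exists_eq_add_of_le h
    rw [array_dist hP hT hF a k hb]
    omega
  · obtain ⟨k, rfl⟩ := Nat.exists_eq_add_of_le h
    rw [SimpleGraph.dist_comm, array_dist hP hT hF b k ha]
    omega

/-- Transposition of arrays. -/
lemma IsArrayOn.tr {I J : Set ℤ} {F : ℤ → ℤ → G} (hF : IsArrayOn P I J F) :
    IsArrayOn (tr P) J I (fun i j => F j i) where
  hmem := fun i hi hi' j hj => hF.vmem j hj i hi hi'
  hne := fun i hi hi' j hj => hF.vne j hj i hi hi'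
  vmem := fun i hi j hj hj' => hF.hmem j hj hj' i hi
  vne := fun i hi j hj hj' => hF.hne j hj hj' i hi

/-- The vertex of the development at the lower left corner of the square `(i, j)`. -/
def cornerVtx (P : Bool → Bool → Subgroup G) (F : ℤ → ℤ → G) (i j : ℤ) : Vtx P :=
  ⟨(i.bodd, j.bodd), (F i j : G ⧸ P i.bodd j.bodd)⟩

/-- All squares of a column lie in the same coset of the column group. -/
lemma array_col {N : ℕ} {F : ℤ → ℤ → G}
    (hF : IsArrayOn P (Set.Icc 0 (N : ℤ)) (Set.Icc 0 (N : ℤ)) F) (i : ℤ) (hi : i ∈ Set.Icc (0 : ℤ) N)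
    (b : Bool) (j : ℕ) (hj : j ≤ N) : (F i j : G ⧸ col P b) = (F i 0 : G ⧸ col P b) := by
  induction j with
  | zero => rfl
  | succ j ih =>
    rw [← ih (by omega), eq_comm, QuotientGroup.eq]
    have h1 := hF.vmem i hi j ⟨by positivity, by exact_mod_cast (by omega : j ≤ N)⟩
      ⟨by positivity, by exact_mod_cast hj⟩
    have h2 : ((j + 1 : ℕ) : ℤ) = (j : ℤ) + 1 := by push_cast; ring
    rw [h2]
    exact le_col P b _ (hedge_le P b _ h1)

lemma px_cornerVtx {N : ℕ} {F : ℤ → ℤ → G}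
    (hF : IsArrayOn P (Set.Icc 0 (N : ℤ)) (Set.Icc 0 (N : ℤ)) F) (i j : ℕ) (hi : i ≤ N)
    (hj : j ≤ N) : px P (cornerVtx P F i j) = colVtx P F i := by
  have h := array_col hF i ⟨by positivity, by exact_mod_cast hi⟩ (i : ℤ).bodd j hj
  have h1 : px P (cornerVtx P F i j) = ⟨(i : ℤ).bodd, (F i j : G ⧸ col P (i : ℤ).bodd)⟩ := rfl
  rw [h1, h, colVtx]

lemma py_cornerVtx {N : ℕ} {F : ℤ → ℤ → G}
    (hF : IsArrayOn P (Set.Icc 0 (N : ℤ)) (Set.Icc 0 (N : ℤ)) F) (i j : ℕ) (hi : i ≤ N)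
    (hj : j ≤ N) : py P (cornerVtx P F i j) = colVtx (tr P) (fun i j => F j i) j := by
  have h := array_col hF.tr j ⟨by positivity, by exact_mod_cast hj⟩ (j : ℤ).bodd i hi
  simp only [col_tr] at h
  have h1 : py P (cornerVtx P F i j) = ⟨(j : ℤ).bodd, (F i j : G ⧸ row P (j : ℤ).bodd)⟩ := rfl
  rw [h1, h]
  rfl

/-- The corners of a finite square array form an isometrically embedded grid. -/
theorem isometric_grid (hP : IsSquare P) {N : ℕ} {F : ℤ → ℤ → G}
    (hF : IsArrayOn P (Set.Icc 0 (N : ℤ)) (Set.Icc 0 (N : ℤ)) F) {i j i' j' : ℕ}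
    (hi : i ≤ N) (hj : j ≤ N) (hi' : i' ≤ N) (hj' : j' ≤ N) :
    (Dev P).dist (cornerVtx P F i j) (cornerVtx P F i' j') =
      ((i : ℤ) - i').natAbs + ((j : ℤ) - j').natAbs := by
  have hTh : (BS (col P)).IsTree := BS_isTree hP.altCol (col_sup hP)
  have hTv : (BS (col (tr P))).IsTree := BS_isTree hP.altRow (col_sup hP.tr)
  rw [dev_dist hP, px_cornerVtx hF i j hi hj, px_cornerVtx hF i' j' hi' hj',
    py_cornerVtx hF i j hi hj, py_cornerVtx hF i' j' hi' hj', array_dist' hP hTh hF i i' hi hi']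
  congr 1
  exact array_dist' hP.tr hTv hF.tr j j' hj hj'

theorem exists_isometric_grid (hP : IsSquare P)
    (hF : ∀ N : ℤ, ∃ F : ℤ → ℤ → G, IsArrayOn P (Set.Icc 0 N) (Set.Icc 0 N) F) (n : ℕ) :
    ∃ f : ℕ → ℕ → Vtx P, ∀ i j i' j', i ≤ n → j ≤ n → i' ≤ n → j' ≤ n →
      (Dev P).dist (f i j) (f i' j') = ((i : ℤ) - i').natAbs + ((j : ℤ) - j').natAbs := by
  obtain ⟨F, hF⟩ := hF n
  exact ⟨fun i j => cornerVtx P F i j, fun i j i' j' hi hj hi' hj' =>
    isometric_grid hP hF hi hj hi' hj'⟩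

/-- Arbitrarily large square arrays: the development is not hyperbolic. -/
theorem not_isHyperbolic (hP : IsSquare P)
    (hF : ∀ N : ℤ, ∃ F : ℤ → ℤ → G, IsArrayOn P (Set.Icc 0 N) (Set.Icc 0 N) F) :
    ¬ IsHyperbolic (Dev P) := by
  rintro ⟨δ, hδ⟩
  obtain ⟨f, hf⟩ := exists_isometric_grid hP hF (δ + 1)
  have h := hδ (f 0 0) (f (δ + 1) (δ + 1)) (f (δ + 1) 0) (f 0 (δ + 1))
  rw [hf _ _ _ _ (by omega) (by omega) (by omega) (by omega),
    hf _ _ _ _ (by omega) (by omega) (by omega) (by omega),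
    hf _ _ _ _ (by omega) (by omega) (by omega) (by omega),
    hf _ _ _ _ (by omega) (by omega) (by omega) (by omega),
    hf _ _ _ _ (by omega) (by omega) (by omega) (by omega),
    hf _ _ _ _ (by omega) (by omega) (by omega) (by omega)] at h
  omega

/-- Arbitrarily large square arrays: the group is not hyperbolic. -/
theorem not_isHyperbolic_cayley (hP : IsSquare P) (hfin : ∀ i j, Finite (P i j))
    (hF : ∀ N : ℤ, ∃ F : ℤ → ℤ → G, IsArrayOn P (Set.Icc 0 N) (Set.Icc 0 N) F)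
    (S : Set G) (hS : S.Finite) (hSgen : Subgroup.closure S = ⊤) :
    ¬ IsHyperbolic (cayley S) :=
  not_hyperbolic_cayley (dev_isMedianGraph hP).1 (dev_geometricAction hP hfin)
    (exists_isometric_grid hP hF) hS hSgen

end

end Pool.Agent.Lib.MP_140312_al_SG
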