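import Pool.Agent.Lib.MP_140312_al_SG.Defs

/-!
# Alternating words in two subgroups (task A2a)
-/

set_option autoImplicit false

namespace Pool.Agent.Lib.MP_140312_al_SG

variable {G : Type*} [Group G]

/-- `Wd Q i n g`: the element `g` is an alternating product of `n` letters, the first one in
`Q i \ Q (!i)`. -/
inductive Wd (Q : Bool → Subgroup G) : Bool → ℕ → G → Prop
  | one {i : Bool} {x : G} : x ∈ Q i → x ∉ Q (!i) → Wd Q i 1 x
  | cons {i : Bool} {x : G} {n : ℕ} {g : G} : x ∈ Q i → x ∉ Q (!i) → Wd Q (!i) n g →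
      Wd Q i (n + 1) (x * g)

namespace Wd

variable {Q : Bool → Subgroup G} {i j : Bool} {n : ℕ} {g x c : G}

theorem pos (h : Wd Q i n g) : 0 < n := by
  cases h <;> omega

theorem cons' (h1 : x ∈ Q i) (h2 : x ∉ Q (!i)) (h : Wd Q j n g) (hij : j = !i) :
    Wd Q i (n + 1) (x * g) := by
  subst hij
  exact Wd.cons h1 h2 h

/-- A word of length `n + 2` is a letter times a word of length `n + 1`. -/
theorem exists_cons (h : Wd Q i (n + 2) g) :
    ∃ x g', x ∈ Q i ∧ x ∉ Q (!i) ∧ Wd Q (!i) (n + 1) g' ∧ g = x * g' := by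
  generalize hm : n + 2 = m at h
  cases h with
  | one h1 h2 => omega
  | @cons _ x m g' h1 h2 h3 =>
    obtain rfl : m = n + 1 := by omega
    exact ⟨_, _, h1, h2, h3, rfl⟩

theorem of_one (h : Wd Q i 1 g) : g ∈ Q i ∧ g ∉ Q (!i) := by
  generalize hm : 1 = m at h
  cases h with
  | one h1 h2 => exact ⟨h1, h2⟩
  | cons h1 h2 h3 =>
    have := h3.pos
    omega

theorem of_two (h : Wd Q i 2 g) :
    ∃ x y, x ∈ Q i ∧ x ∉ Q (!i) ∧ y ∈ Q (!i) ∧ y ∉ Q i ∧ g = x * y := by
  obtain ⟨x, y, h1, h2, h3, h4⟩ := exists_cons (n := 0) h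
  have h5 := h3.of_one
  rw [Bool.not_not] at h5
  exact ⟨x, y, h1, h2, h5.1, h5.2, h4⟩

theorem mem_all (hc : c ∈ Q false ⊓ Q true) (i : Bool) : c ∈ Q i := by
  cases i
  · exact hc.1
  · exact hc.2

theorem mem_inf (hi : c ∈ Q i) (hi' : c ∈ Q (!i)) : c ∈ Q false ⊓ Q true := by
  cases i
  · exact ⟨hi, hi'⟩
  · exact ⟨hi', hi⟩

/-- The common subgroup can be absorbed on the left. -/
theorem absorb (hc : c ∈ Q false ⊓ Q true) (h : Wd Q i n g) : Wd Q i n (c * g) := by
  cases h with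
  | one h1 h2 =>
    exact .one ((Q _).mul_mem (mem_all hc _) h1)
      (fun h3 => h2 (((Q _).mul_mem_cancel_left (mem_all hc _)).1 h3))
  | cons h1 h2 h3 =>
    rw [← mul_assoc]
    exact .cons ((Q _).mul_mem (mem_all hc _) h1)
      (fun h4 => h2 (((Q _).mul_mem_cancel_left (mem_all hc _)).1 h4)) h3

/-- Left multiplication by a letter shortens by at most one. -/
theorem mul_left (hx : x ∈ Q i) (h : Wd Q j n g) :
    (∃ k m, n ≤ m + 1 ∧ Wd Q k m (x * g)) ∨ (n = 1 ∧ x * g ∈ Q false ⊓ Q true) := by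
  by_cases hx' : x ∈ Q (!i)
  · exact Or.inl ⟨j, n, by omega, absorb (mem_inf hx hx') h⟩
  by_cases hij : j = !i
  · exact Or.inl ⟨i, n + 1, by omega, cons' hx hx' h hij⟩
  have hji : j = i := by
    revert hij; cases i <;> cases j <;> simp
  subst hji
  cases h with
  | one h1 h2 =>
    by_cases h3 : x * g ∈ Q (!j)
    · exact Or.inr ⟨rfl, mem_inf ((Q _).mul_mem hx h1) h3⟩
    · exact Or.inl ⟨j, 1, by omega, .one ((Q _).mul_mem hx h1) h3⟩
  | @cons _ y n g' h1 h2 h3 =>
    rw [← mul_assoc]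
    by_cases h4 : x * y ∈ Q (!j)
    · exact Or.inl ⟨!j, n, by omega, absorb (mem_inf ((Q _).mul_mem hx h1) h4) h3⟩
    · exact Or.inl ⟨j, n + 1, by omega, .cons ((Q _).mul_mem hx h1) h4 h3⟩

theorem exists_list (h : Wd Q i n g) : ∃ w : List G, w ≠ [] ∧
    (∀ x ∈ w, ∃ i : Bool, x ∈ Q i ∧ x ∉ Q (!i)) ∧
    w.IsChain (fun x y => ∃ i : Bool, x ∈ Q i ∧ y ∈ Q (!i)) ∧ w.prod = g ∧
    ∀ y ∈ w.head?, y ∈ Q i := by
  induction h with
  | @one i x h1 h2 =>
    refine ⟨[x], by simp, fun y hy => ?_, by simp, by simp, by simpa using h1⟩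
    rw [List.mem_singleton] at hy
    subst hy
    exact ⟨_, h1, h2⟩
  | @cons i x n g h1 h2 _ ih =>
    obtain ⟨w, hw1, hw2, hw3, hw4, hw5⟩ := ih
    refine ⟨x :: w, by simp, ?_, ?_, ?_, ?_⟩
    rotate_left 3
    · intro y hy
      rw [List.head?_cons, Option.mem_some_iff] at hy
      rw [← hy]
      exact h1
    · intro y hy
      rcases List.mem_cons.1 hy with rfl | hy
      · exact ⟨_, h1, h2⟩
      · exact hw2 y hy
    · rw [List.isChain_cons]
      exact ⟨fun y hy => ⟨_, h1, hw5 y hy⟩, hw3⟩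
    · rw [List.prod_cons, hw4]

end Wd

theorem exists_wd {Q : Bool → Subgroup G} (w : List G) (hw : w ≠ [])
    (h1 : ∀ x ∈ w, ∃ i : Bool, x ∈ Q i ∧ x ∉ Q (!i))
    (h2 : w.IsChain (fun x y => ∃ i : Bool, x ∈ Q i ∧ y ∈ Q (!i))) :
    ∃ i n, Wd Q i n w.prod ∧ ∀ y ∈ w.head?, y ∈ Q i := by
  induction w with
  | nil => exact absurd rfl hw
  | cons x w ih =>
    obtain ⟨i, hi1, hi2⟩ := h1 x List.mem_cons_self
    by_cases hw0 : w = []
    · subst hw0
      exact ⟨i, 1, by simpa using Wd.one hi1 hi2, by simpa using hi1⟩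
    · rw [List.isChain_cons] at h2
      obtain ⟨j, n, hj1, hj2⟩ := ih hw0 (fun y hy => h1 y (List.mem_cons_of_mem _ hy)) h2.2
      refine ⟨i, n + 1, ?_, by simpa using hi1⟩
      rw [List.prod_cons]
      refine Wd.cons' hi1 hi2 hj1 ?_
      obtain ⟨y, w', rfl⟩ := List.exists_cons_of_ne_nil hw0
      obtain ⟨k, hk1, hk2⟩ := h2.1 y (by simp)
      have hk : k = i := by
        by_contra hne
        have : k = !i := by revert hne; cases i <;> cases k <;> simp
        exact hi2 (this ▸ hk1)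
      subst hk
      have hy := hj2 y (by simp)
      obtain ⟨m, hm1, hm2⟩ := h1 y (by simp)
      have e1 : m = j := by
        by_contra hne
        have : j = !m := by revert hne; cases m <;> cases j <;> simp
        exact hm2 (this ▸ hy)
      have e2 : m = !k := by
        by_contra hne
        have : (!k) = !m := by revert hne; cases m <;> cases k <;> simp
        exact hm2 (this ▸ hk2)
      rw [← e1, e2]

theorem altFree_iff {Q : Bool → Subgroup G} :
    AltFree Q ↔ ∀ i n g, Wd Q i n g → g ≠ 1 := by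
  constructor
  · intro h i n g hg
    obtain ⟨w, hw1, hw2, hw3, hw4, -⟩ := hg.exists_list
    rw [← hw4]
    exact h w hw1 hw2 hw3
  · intro h w hw h1 h2
    obtain ⟨i, n, hi, -⟩ := exists_wd w hw h1 h2
    exact h i n _ hi

/-- Every element of the join is in the intersection or an alternating word. -/
theorem mem_sup_cases {Q : Bool → Subgroup G} {g : G} (hg : g ∈ Q false ⊔ Q true) :
    g ∈ Q false ⊓ Q true ∨ ∃ i n, Wd Q i n g := by
  rw [← Subgroup.closure_eq (Q false), ← Subgroup.closure_eq (Q true),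
    ← Subgroup.closure_union] at hg
  have key : ∀ x g : G, x ∈ (Q false : Set G) ∪ (Q true : Set G) →
      (g ∈ Q false ⊓ Q true ∨ ∃ i n, Wd Q i n g) →
      (x * g ∈ Q false ⊓ Q true ∨ ∃ i n, Wd Q i n (x * g)) := by
    intro x g hx hg
    have hx' : ∃ i, x ∈ Q i := by
      rcases hx with hx | hx
      · exact ⟨false, hx⟩
      · exact ⟨true, hx⟩
    obtain ⟨i, hi⟩ := hx'
    rcases hg with hg | ⟨j, n, hg⟩
    · by_cases hx2 : x * g ∈ Q (!i)
      · exact Or.inl (Wd.mem_inf ((Q i).mul_mem hi (Wd.mem_all hg i)) hx2)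
      · exact Or.inr ⟨i, 1, .one ((Q i).mul_mem hi (Wd.mem_all hg i)) hx2⟩
    · rcases hg.mul_left hi with ⟨k, m, -, h⟩ | ⟨-, h⟩
      · exact Or.inr ⟨k, m, h⟩
      · exact Or.inl h
  induction hg using Subgroup.closure_induction_left with
  | one => exact Or.inl (Subgroup.one_mem _)
  | mul_left x hx y _ ih => exact key x y hx ih
  | inv_mul_cancel x hx y _ ih =>
    refine key x⁻¹ y ?_ ih
    rcases hx with hx | hx
    · exact Or.inl ((Q false).inv_mem hx)
    · exact Or.inr ((Q true).inv_mem hx)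

section Sub

variable {Q D : Bool → Subgroup G}

theorem Wd.mono (hD : ∀ i, D i ≤ Q i) (hDQ : ∀ i, D i ⊓ Q (!i) ≤ D (!i)) {i : Bool} {n : ℕ}
    {g : G} (h : Wd D i n g) : Wd Q i n g := by
  induction h with
  | one h1 h2 => exact .one (hD _ h1) fun h3 => h2 (hDQ _ ⟨h1, h3⟩)
  | cons h1 h2 _ ih => exact .cons (hD _ h1) (fun h3 => h2 (hDQ _ ⟨h1, h3⟩)) ih

theorem AltFree.mono (hQ : AltFree Q) (hD : ∀ i, D i ≤ Q i)
    (hDQ : ∀ i, D i ⊓ Q (!i) ≤ D (!i)) : AltFree D :=
  altFree_iff.2 fun i n g h => altFree_iff.1 hQ i n g (h.mono hD hDQ)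

/-- A letter times a word of length at least two is not `1`. -/
theorem AltFree.mul_ne_one (hQ : AltFree Q) {i j : Bool} {n : ℕ} {x g : G} (hx : x ∈ Q i)
    (h : Wd Q j n g) (hn : 2 ≤ n) : x * g ≠ 1 := by
  rcases h.mul_left hx with ⟨k, m, -, h'⟩ | ⟨h', -⟩
  · exact altFree_iff.1 hQ k m _ h'
  · omega

/-- A word of length at least two is not in a factor. -/
theorem AltFree.not_mem (hQ : AltFree Q) {i j : Bool} {n : ℕ} {g : G}
    (h : Wd Q j n g) (hn : 2 ≤ n) : g ∉ Q i := fun hg =>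
  hQ.mul_ne_one ((Q i).inv_mem hg) h hn (inv_mul_cancel g)

/-- The join of `D false` and `D true` meets `Q i` in `D i`. -/
theorem AltFree.sup_inf_le (hQ : AltFree Q) (hD : ∀ i, D i ≤ Q i)
    (hDQ : ∀ i, D i ⊓ Q (!i) ≤ D (!i)) (i : Bool) : (D false ⊔ D true) ⊓ Q i ≤ D i := by
  rintro g ⟨hg, hgQ⟩
  rcases mem_sup_cases hg with h | ⟨j, n, h⟩
  · exact Wd.mem_all h i
  · rcases Nat.lt_or_ge n 2 with hn | hn
    · obtain rfl : n = 1 := by
        have := h.pos
        omega
      have h1 := h.of_one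
      by_cases hij : i = j
      · exact hij ▸ h1.1
      · have hij' : i = !j := by revert hij; cases i <;> cases j <;> simp
        subst hij'
        exact hDQ j ⟨h1.1, hgQ⟩
    · exact absurd hgQ (hQ.not_mem (h.mono hD hDQ) hn)

theorem AltFree.sup_inf_eq (hQ : AltFree Q) (hD : ∀ i, D i ≤ Q i)
    (hDQ : ∀ i, D i ⊓ Q (!i) ≤ D (!i)) (i : Bool) : (D false ⊔ D true) ⊓ Q i = D i := by
  refine le_antisymm (hQ.sup_inf_le hD hDQ i) (le_inf ?_ (hD i))
  cases i
  · exact le_sup_left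
  · exact le_sup_right

/-- An element of the join of `D false` and `D true` of the form `q * r`, `q ∈ Q false`,
`r ∈ Q true`, is of the form `d * e`, `d ∈ D false`, `e ∈ D true`. -/
theorem AltFree.exists_mul_eq (hQ : AltFree Q) (hD : ∀ i, D i ≤ Q i)
    (hDQ : ∀ i, D i ⊓ Q (!i) ≤ D (!i)) {i : Bool} {q r : G} (hq : q ∈ Q i) (hr : r ∈ Q (!i))
    (h : q * r ∈ D false ⊔ D true) : ∃ d ∈ D i, ∃ e ∈ D (!i), q * r = d * e := by
  have case1 : ∀ j, q * r ∈ D j → ∃ d ∈ D i, ∃ e ∈ D (!i), q * r = d * e := by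
    intro j hj
    by_cases hij : j = i
    · subst hij
      exact ⟨_, hj, 1, one_mem _, (mul_one _).symm⟩
    · have hij' : j = !i := by revert hij; cases i <;> cases j <;> simp
      subst hij'
      exact ⟨1, one_mem _, _, hj, (one_mul _).symm⟩
  rcases mem_sup_cases h with h' | ⟨j, n, h'⟩
  · exact case1 false h'.1
  have hmem := h
  clear h
  have h := h'
  clear h'
  rcases Nat.lt_or_ge n 2 with hn | hn
  · obtain rfl : n = 1 := by
      have := h.pos
      omega
    exact case1 j h.of_one.1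
  have hQ' := h.mono hD hDQ
  have hr' : r⁻¹ ∈ Q (!i) := (Q _).inv_mem hr
  have hend : ∀ k m, Wd Q k m (q⁻¹ * (q * r)) → m < 2 := by
    intro k m hm
    by_contra hlt
    refine hQ.mul_ne_one hr' hm (by omega) (by group)
  by_cases hqi : q ∈ Q (!i)
  · exact case1 _ (hQ.sup_inf_le hD hDQ (!i) ⟨hmem, (Q _).mul_mem hqi hr⟩)
  by_cases hji : j = i
  · subst hji
    rcases Nat.eq_or_lt_of_le hn with hn2 | hn3
    · subst hn2
      obtain ⟨x, y, hx, -, hy, -, hxy⟩ := h.of_two
      exact ⟨x, hx, y, hy, hxy⟩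
    · rcases hQ'.mul_left ((Q _).inv_mem hq) with ⟨k, m, hm, h'⟩ | ⟨h', -⟩
      · have := hend k m h'
        omega
      · omega
  · have hji' : j = !i := by revert hji; cases i <;> cases j <;> simp
    subst hji'
    have h' := Wd.cons ((Q _).inv_mem hq) (fun h3 => hqi ((Q _).inv_mem_iff.1 h3)) hQ'
    have := hend _ _ h'
    omega

/-- A2a. Subgroups of an amalgam generated by subgroups of the factors. -/
theorem AltFree.sub (hQ : AltFree Q) (hD : ∀ i, D i ≤ Q i)
    (hDQ : ∀ i, D i ⊓ Q (!i) ≤ D (!i)) :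
    AltFree D ∧ (∀ i, (D false ⊔ D true) ⊓ Q i = D i) :=
  ⟨hQ.mono hD hDQ, hQ.sup_inf_eq hD hDQ⟩

/-- A2a'. An element of `⟨D false, D true⟩` of the form `q₀ q₁` is of the form `d₀ d₁`. -/
theorem AltFree.mul_mem (hQ : AltFree Q) (hD : ∀ i, D i ≤ Q i)
    (hDQ : ∀ i, D i ⊓ Q (!i) ≤ D (!i)) {i : Bool} {x y : G} (hx : x ∈ Q i) (hy : y ∈ Q (!i))
    (hxy : x * y ∈ D false ⊔ D true) :
    ∃ x' ∈ D i, ∃ y' ∈ D (!i), x' * y' = x * y := by
  obtain ⟨d, hd, e, he, h⟩ := hQ.exists_mul_eq hD hDQ hx hy hxy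
  exact ⟨d, hd, e, he, h.symm⟩

end Sub

/-- Transport of `AltFree` by an injective homomorphism. -/
theorem AltFree.map {G' : Type*} [Group G'] {Q : Bool → Subgroup G} (hQ : AltFree Q)
    (f : G →* G') (hf : Function.Injective f) : AltFree (fun i => (Q i).map f) := by
  have key : ∀ i n g', Wd (fun i => (Q i).map f) i n g' → ∃ g, Wd Q i n g ∧ f g = g' := by
    intro i n g' h
    induction h with
    | one h1 h2 =>
      obtain ⟨x, hx, rfl⟩ := h1
      exact ⟨x, .one hx fun h3 => h2 ⟨x, h3, rfl⟩, rfl⟩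
    | cons h1 h2 _ ih =>
      obtain ⟨x, hx, rfl⟩ := h1
      obtain ⟨g, hg, rfl⟩ := ih
      exact ⟨x * g, .cons hx (fun h3 => h2 ⟨x, h3, rfl⟩) hg, map_mul f x g⟩
  refine altFree_iff.2 fun i n g' h => ?_
  obtain ⟨g, hg, rfl⟩ := key i n g' h
  exact fun h1 => altFree_iff.1 hQ i n g hg (hf (h1.trans (map_one f).symm))

theorem fstIdx_empty {Γ : Bool → Type*} [∀ i, Group (Γ i)] :
    (Monoid.CoprodI.Word.empty : Monoid.CoprodI.Word Γ).fstIdx = none := rfl

theorem exists_word_one {Γ : Bool → Type*} [∀ i, Group (Γ i)] (i : Bool) (x : Γ i)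
    (hx : x ≠ 1) : ∃ w : Monoid.CoprodI.Word Γ, w.toList = [⟨i, x⟩] ∧ w.fstIdx = some i ∧
      w.prod = Monoid.CoprodI.of x := by
  refine ⟨Monoid.CoprodI.Word.cons x Monoid.CoprodI.Word.empty
    (by rw [fstIdx_empty]; exact (Option.some_ne_none i).symm) hx, rfl,
    Monoid.CoprodI.Word.fstIdx_cons _ _ _ _, ?_⟩
  rw [Monoid.CoprodI.Word.prod_cons, Monoid.CoprodI.Word.prod_empty, mul_one]

/-- A2b. The factors of a pushout. -/
theorem altFree_pushoutI {H : Type*} {Γ : Bool → Type*} [∀ i, Group (Γ i)] [Group H]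
    (φ : ∀ i, H →* Γ i) (hφ : ∀ i, Function.Injective (φ i)) :
    AltFree (fun i => (Monoid.PushoutI.of (φ := φ) i).range) := by
  have hlet : ∀ (i : Bool) (x : Γ i),
      Monoid.PushoutI.of (φ := φ) i x ∉ (Monoid.PushoutI.of (φ := φ) (!i)).range →
      x ∉ (φ i).range := by
    rintro i x hx ⟨h, rfl⟩
    refine hx ⟨φ (!i) h, ?_⟩
    rw [Monoid.PushoutI.of_apply_eq_base, Monoid.PushoutI.of_apply_eq_base]
  have key : ∀ i n g, Wd (fun i => (Monoid.PushoutI.of (φ := φ) i).range) i n g →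
      ∃ w : Monoid.CoprodI.Word Γ, Monoid.PushoutI.Reduced φ w ∧ w.fstIdx = some i ∧
        Monoid.PushoutI.ofCoprodI (φ := φ) w.prod = g := by
    intro i n g h
    induction h with
    | @one i x h1 h2 =>
      obtain ⟨x, rfl⟩ := h1
      have hx := hlet i x h2
      have hx1 : x ≠ 1 := fun h => hx (h ▸ one_mem _)
      obtain ⟨w, hw1, hw2, hw3⟩ := exists_word_one i x hx1
      refine ⟨w, ?_, hw2, ?_⟩
      · intro g hg
        rw [hw1, List.mem_singleton] at hg
        subst hg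
        exact hx
      · rw [hw3, Monoid.PushoutI.ofCoprodI_of]
    | @cons i x n g h1 h2 _ ih =>
      obtain ⟨x, rfl⟩ := h1
      obtain ⟨w, hw1, hw2, rfl⟩ := ih
      have hx := hlet i x h2
      have hx1 : x ≠ 1 := fun h => hx (h ▸ one_mem _)
      refine ⟨Monoid.CoprodI.Word.cons x w (by rw [hw2]; simp) hx1, ?_, by simp, ?_⟩
      · intro g hg
        simp only [Monoid.CoprodI.Word.cons, List.mem_cons] at hg
        rcases hg with rfl | hg
        · exact hx
        · exact hw1 g hg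
      · simp
  refine altFree_iff.2 fun i n g h h1 => ?_
  obtain ⟨w, hw1, hw2, hw3⟩ := key i n g h
  have := hw1.eq_empty_of_mem_range hφ (by rw [hw3, h1]; exact one_mem _)
  rw [this, fstIdx_empty] at hw2
  exact (Option.some_ne_none i).symm hw2

theorem pushoutI_range_inf {H : Type*} {Γ : Bool → Type*} [∀ i, Group (Γ i)] [Group H]
    (φ : ∀ i, H →* Γ i) (hφ : ∀ i, Function.Injective (φ i)) :
    (Monoid.PushoutI.of (φ := φ) false).range ⊓ (Monoid.PushoutI.of (φ := φ) true).range =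
      (Monoid.PushoutI.base φ).range :=
  Monoid.PushoutI.inf_of_range_eq_base_range hφ (by decide)

theorem pushoutI_sup_range {H : Type*} {Γ : Bool → Type*} [∀ i, Group (Γ i)] [Group H]
    (φ : ∀ i, H →* Γ i) :
    (Monoid.PushoutI.of (φ := φ) false).range ⊔ (Monoid.PushoutI.of (φ := φ) true).range = ⊤ := by
  have hmem : ∀ i, (Monoid.PushoutI.of (φ := φ) i).range ≤
      (Monoid.PushoutI.of (φ := φ) false).range ⊔ (Monoid.PushoutI.of (φ := φ) true).range := by
    intro i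
    cases i
    · exact le_sup_left
    · exact le_sup_right
  rw [eq_top_iff]
  intro x _
  induction x using Monoid.PushoutI.induction_on with
  | of i g => exact hmem i ⟨g, rfl⟩
  | base h =>
    rw [← Monoid.PushoutI.of_apply_eq_base φ false]
    exact hmem false ⟨_, rfl⟩
  | mul x y hx hy => exact Subgroup.mul_mem _ (hx trivial) (hy trivial)

set_option linter.unusedVariables false in
/-- A2c. A homomorphism from a free product which is injective on the factors and maps them to an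
alternating-free pair with trivial intersections is injective. -/
theorem coprodI_lift_injective {Γ : Bool → Type*} [∀ i, Group (Γ i)] {Q : Bool → Subgroup G}
    (hQ : AltFree Q) (f : ∀ i, Γ i →* G) (hf : ∀ i, Function.Injective (f i))
    (hfQ : ∀ i x, f i x ∈ Q i) (hf1 : ∀ i x, f i x ∈ Q (!i) → x = 1) :
    Function.Injective (Monoid.CoprodI.lift f) := by
  classical
  have key : ∀ (w : Monoid.CoprodI.Word Γ), w = Monoid.CoprodI.Word.empty ∨
      ∃ i n, w.fstIdx = some i ∧ Wd Q i n (Monoid.CoprodI.lift f w.prod) := by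
    intro w
    induction w using Monoid.CoprodI.Word.consRecOn with
    | empty => exact Or.inl rfl
    | cons i m w h1 h2 ih =>
      right
      have hm : f i m ∉ Q (!i) := fun h => h2 (hf1 i m h)
      rcases ih with rfl | ⟨j, n, hj, hn⟩
      · refine ⟨i, 1, by simp, ?_⟩
        simpa using Wd.one (hfQ i m) hm
      · refine ⟨i, n + 1, by simp, ?_⟩
        rw [Monoid.CoprodI.Word.prod_cons, map_mul, Monoid.CoprodI.lift_of]
        refine Wd.cons' (hfQ i m) hm hn ?_
        have : j ≠ i := fun h => h1 (h ▸ hj)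
        revert this; cases i <;> cases j <;> simp
  rw [injective_iff_map_eq_one]
  intro x hx
  obtain ⟨w, rfl⟩ : ∃ w : Monoid.CoprodI.Word Γ, w.prod = x :=
    ⟨Monoid.CoprodI.Word.equiv x, Monoid.CoprodI.Word.equiv.symm_apply_apply x⟩
  rcases key w with rfl | ⟨i, n, -, h⟩
  · simp
  · exact absurd hx (altFree_iff.1 hQ i n _ h)

end Pool.Agent.Lib.MP_140312_al_SG
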