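import Pool.Agent.Lib.MP_140312_al_SG.Defs

/-!
# Squares of the development of a square of groups

* `BS.triple_meet`: if two adjacent vertices of the Bass–Serre tree both meet a coset of `C`, and
  `C` is generated by its intersections with the two factors, then the three cosets meet;
* `square_unique_of`, `exists_vtx_iff_of`, `exists_array_of`.
-/

namespace Pool.Agent.Lib.MP_140312_al_SG

open Pool.Agent.Lib.MP_140312_al

variable {G : Type*} [Group G]

/-- The part of the Bass–Serre graph over a coset of `C`. -/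
def BSfib (Q : Bool → Subgroup G) {C : Subgroup G} (c : G ⧸ C) :
    SimpleGraph (Σ i : Bool, G ⧸ Q i) where
  Adj x y := x.1 ≠ y.1 ∧ ∃ g : G, (g : G ⧸ C) = c ∧ x.2 = (g : G ⧸ Q x.1) ∧
    y.2 = (g : G ⧸ Q y.1)
  symm := ⟨fun _ _ h => ⟨h.1.symm, h.2.imp fun _ hg => ⟨hg.1, hg.2.2, hg.2.1⟩⟩⟩
  loopless := ⟨fun _ h => h.1 rfl⟩

lemma BSfib_le (Q : Bool → Subgroup G) {C : Subgroup G} (c : G ⧸ C) : BSfib Q c ≤ BS Q :=
  fun _ _ h => ⟨h.1, h.2.imp fun _ hg => hg.2⟩

lemma BSfib_adj {Q : Bool → Subgroup G} {C : Subgroup G} {c : G ⧸ C} {i i' : Bool} (hi : i ≠ i')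
    {g : G} (hg : (g : G ⧸ C) = c) :
    (BSfib Q c).Adj ⟨i, (g : G ⧸ Q i)⟩ ⟨i', (g : G ⧸ Q i')⟩ :=
  ⟨hi, g, hg, rfl, rfl⟩

lemma BSfib_reach {Q : Bool → Subgroup G} {C : Subgroup G}
    (hC : (Q false ⊓ C) ⊔ (Q true ⊓ C) = C) {c : G ⧸ C} {e : G} (he : e ∈ C) :
    ∀ (i : Bool) (h : G), (h : G ⧸ C) = c →
      (BSfib Q c).Reachable ⟨i, (h : G ⧸ Q i)⟩ ⟨i, ((h * e : G) : G ⧸ Q i)⟩ := by
  have he' : e ∈ (Q false ⊓ C) ⊔ (Q true ⊓ C) := by rw [hC]; exact he
  rw [← Subgroup.closure_eq (Q false ⊓ C), ← Subgroup.closure_eq (Q true ⊓ C),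
    ← Subgroup.closure_union] at he'
  induction he' using Subgroup.closure_induction with
  | mem x hx =>
    intro i h hh
    -- `x` lies in `Q k` for some `k`
    obtain ⟨k, hxk, hxC⟩ : ∃ k : Bool, x ∈ Q k ∧ x ∈ C := by
      rcases hx with hx | hx
      · exact ⟨false, hx.1, hx.2⟩
      · exact ⟨true, hx.1, hx.2⟩
    have hq : ((h : G) : G ⧸ Q k) = ((h * x : G) : G ⧸ Q k) := by
      rw [QuotientGroup.eq]; simpa using hxk
    have hhx : ((h * x : G) : G ⧸ C) = c := by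
      rw [← hh, QuotientGroup.eq]; simpa using inv_mem hxC
    by_cases hik : i = k
    · subst hik
      rw [hq]
    · have a1 := (BSfib_adj (Q := Q) hik hh).reachable
      have a2 := (BSfib_adj (Q := Q) hik hhx).reachable
      rw [← hq] at a2
      exact a1.trans a2.symm
  | one =>
    intro i h hh
    simp only [mul_one]
    exact SimpleGraph.Reachable.refl _
  | mul x y hx' hy' hx hy =>
    intro i h hh
    have mem : ∀ x ∈ Subgroup.closure (((Q false ⊓ C : Subgroup G) : Set G) ∪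
        ((Q true ⊓ C : Subgroup G) : Set G)), x ∈ C := by
      intro x hx
      rw [Subgroup.closure_union, Subgroup.closure_eq, Subgroup.closure_eq, hC] at hx
      exact hx
    have hxC : x ∈ C := mem x hx'
    have hhx : ((h * x : G) : G ⧸ C) = c := by
      rw [← hh, QuotientGroup.eq]
      simpa using inv_mem hxC
    have e : h * (x * y) = h * x * y := by group
    rw [e]
    exact (hx hxC i h hh).trans (hy (mem y hy') i (h * x) hhx)
  | inv x hx' hx =>
    intro i h hh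
    have mem : x ∈ C := by
      rw [Subgroup.closure_union, Subgroup.closure_eq, Subgroup.closure_eq, hC] at hx'
      exact hx'
    have hhx : ((h * x⁻¹ : G) : G ⧸ C) = c := by
      rw [← hh, QuotientGroup.eq]
      simpa using mem
    have e : h * x⁻¹ * x = h := by group
    have := (hx mem i (h * x⁻¹) hhx).symm
    rw [e] at this
    exact this

/-- **Triple meeting lemma**: if two adjacent vertices of the Bass–Serre tree both meet a coset of
`C`, then the three cosets have a common element. -/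
lemma BS_triple_meet {Q : Bool → Subgroup G} {C : Subgroup G} (hT : (BS Q).IsAcyclic)
    (hC : (Q false ⊓ C) ⊔ (Q true ⊓ C) = C) {x y : Σ i : Bool, G ⧸ Q i} {c : G ⧸ C}
    (hxy : (BS Q).Adj x y) (hx : ∃ g : G, x.2 = (g : G ⧸ Q x.1) ∧ c = (g : G ⧸ C))
    (hy : ∃ g : G, y.2 = (g : G ⧸ Q y.1) ∧ c = (g : G ⧸ C)) :
    ∃ k : G, x.2 = (k : G ⧸ Q x.1) ∧ y.2 = (k : G ⧸ Q y.1) ∧ c = (k : G ⧸ C) := by
  obtain ⟨i, a⟩ := x
  obtain ⟨i', b⟩ := y
  have hi : i' = !i := by
    have := hxy.1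
    cases i <;> cases i' <;> simp_all
  subst hi
  obtain ⟨g₂, h2, h2c⟩ := hx
  obtain ⟨g₃, h3, h3c⟩ := hy
  dsimp only at h2 h3 ⊢
  subst h2 h3
  have h23 : g₂⁻¹ * g₃ ∈ C := by rw [← QuotientGroup.eq, ← h2c, ← h3c]
  have hreach : (BSfib Q c).Reachable ⟨i, (g₂ : G ⧸ Q i)⟩ ⟨!i, (g₃ : G ⧸ Q (!i))⟩ := by
    have r1 := BSfib_reach (Q := Q) hC (c := c) h23 i g₂ h2c.symm
    have e : g₂ * (g₂⁻¹ * g₃) = g₃ := by group
    rw [e] at r1
    exact r1.trans (BSfib_adj (by simp) h3c.symm).reachable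
  by_cases hmem : (BSfib Q c).Adj ⟨i, (g₂ : G ⧸ Q i)⟩ ⟨!i, (g₃ : G ⧸ Q (!i))⟩
  · obtain ⟨_, k, hk, h1, h2⟩ := hmem
    exact ⟨k, h1, h2, hk.symm⟩
  · exfalso
    have hb := (SimpleGraph.isAcyclic_iff_forall_adj_isBridge.mp hT) hxy
    rw [SimpleGraph.isBridge_iff] at hb
    apply hb
    refine hreach.mono ?_
    intro p q hpq
    rw [SimpleGraph.deleteEdges_adj]
    refine ⟨BSfib_le _ _ hpq, ?_⟩
    intro h
    apply hmem
    rw [Set.mem_singleton_iff, Sym2.eq_iff] at h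
    rcases h with ⟨rfl, rfl⟩ | ⟨rfl, rfl⟩
    · exact hpq
    · exact hpq.symm

section

variable {P : Bool → Bool → Subgroup G}

lemma IsSquare.hedge_eq (hP : IsSquare P) (j : Bool) :
    hedge P j = row P j ⊓ (col P false ⊓ col P true) := by
  unfold hedge
  rw [← hP.inter false j, ← hP.inter true j]
  apply le_antisymm
  · exact le_inf (inf_le_left.trans inf_le_right)
      (inf_le_inf inf_le_left inf_le_left)
  · exact le_inf (le_inf (inf_le_right.trans inf_le_left) inf_le_left)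
      (le_inf (inf_le_right.trans inf_le_right) inf_le_left)

/-- The square with given coordinates is unique. -/
theorem square_unique (hP : IsSquare P) {g g' : G}
    (h1 : ∀ i, (g : G ⧸ col P i) = (g' : G ⧸ col P i))
    (h2 : ∀ j, (g : G ⧸ row P j) = (g' : G ⧸ row P j)) : g = g' := by
  have h3 : ∀ i j, g⁻¹ * g' ∈ P i j := by
    intro i j
    rw [← hP.inter i j]
    exact ⟨QuotientGroup.eq.mp (h1 i), QuotientGroup.eq.mp (h2 j)⟩
  have h4 : g⁻¹ * g' ∈ hedge P false ⊓ vedge P false :=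
    ⟨⟨h3 false false, h3 true false⟩, ⟨h3 false false, h3 false true⟩⟩
  rw [hP.npc false false, Subgroup.mem_bot] at h4
  exact inv_mul_eq_one.mp h4

/-- A product of two geodesic lines contained in the development gives an array of squares. -/
theorem exists_array_of (hP : IsSquare P) (hTc : (BS (col P)).IsAcyclic)
    (hTr : (BS (row P)).IsAcyclic) (l : ℤ → Σ i : Bool, G ⧸ col P i)
    (m : ℤ → Σ j : Bool, G ⧸ row P j) (hl : ∀ i, (BS (col P)).Adj (l i) (l (i + 1)))
    (hl2 : ∀ i, l i ≠ l (i + 2)) (hl0 : ∀ i, (l i).1 = i.bodd)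
    (hm : ∀ j, (BS (row P)).Adj (m j) (m (j + 1))) (hm2 : ∀ j, m j ≠ m (j + 2))
    (hm0 : ∀ j, (m j).1 = j.bodd)
    (hlm : ∀ i j, ∃ g : G, (l i).2 = (g : G ⧸ col P (l i).1) ∧ (m j).2 = (g : G ⧸ row P (m j).1)) :
    ∃ F : ℤ → ℤ → G, IsArray P F ∧ ∀ i j, (l i).2 = (F i j : G ⧸ col P (l i).1) ∧
      (l (i + 1)).2 = (F i j : G ⧸ col P (l (i + 1)).1) ∧
      (m j).2 = (F i j : G ⧸ row P (m j).1) ∧
      (m (j + 1)).2 = (F i j : G ⧸ row P (m (j + 1)).1) := by
  -- the generation statements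
  have gen1 : ∀ j, (col P false ⊓ row P j) ⊔ (col P true ⊓ row P j) = row P j := by
    intro j
    rw [hP.inter, hP.inter]
    rfl
  have gen2 : (row P false ⊓ (col P false ⊓ col P true)) ⊔
      (row P true ⊓ (col P false ⊓ col P true)) = col P false ⊓ col P true := by
    rw [← hP.hedge_eq false, ← hP.hedge_eq true]
    exact hP.interCol.symm
  have key : ∀ i j, ∃ g : G, (l i).2 = (g : G ⧸ col P (l i).1) ∧
      (l (i + 1)).2 = (g : G ⧸ col P (l (i + 1)).1) ∧
      (m j).2 = (g : G ⧸ row P (m j).1) ∧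
      (m (j + 1)).2 = (g : G ⧸ row P (m (j + 1)).1) := by
    intro i j
    obtain ⟨k₁, a1, a2, a3⟩ := BS_triple_meet hTc (gen1 (m j).1) (c := (m j).2) (hl i) (hlm i j)
      (hlm (i + 1) j)
    obtain ⟨k₂, b1, b2, b3⟩ := BS_triple_meet hTc (gen1 (m (j + 1)).1) (c := (m (j + 1)).2) (hl i)
      (hlm i (j + 1)) (hlm (i + 1) (j + 1))
    -- both lie in the edge coset
    have hk : (k₁ : G ⧸ (col P false ⊓ col P true)) = (k₂ : G ⧸ (col P false ⊓ col P true)) := by
      rw [QuotientGroup.eq]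
      have c1 : k₁⁻¹ * k₂ ∈ col P (l i).1 := by rw [← QuotientGroup.eq, ← a1, ← b1]
      have c2 : k₁⁻¹ * k₂ ∈ col P (l (i + 1)).1 := by rw [← QuotientGroup.eq, ← a2, ← b2]
      have hne := (hl i).1
      cases h : (l i).1 <;> cases h' : (l (i + 1)).1 <;> rw [h] at c1 hne <;>
        rw [h'] at c2 hne <;> first | exact absurd rfl hne | exact ⟨c1, c2⟩ | exact ⟨c2, c1⟩
    obtain ⟨k, d1, d2, d3⟩ := BS_triple_meet hTr gen2
      (c := (k₁ : G ⧸ (col P false ⊓ col P true))) (hm j) ⟨k₁, a3, rfl⟩ ⟨k₂, b3, hk⟩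
    rw [QuotientGroup.eq] at d3
    have d4 : ∀ i, k₁⁻¹ * k ∈ col P i := by
      rintro (_ | _)
      · exact d3.1
      · exact d3.2
    refine ⟨k, ?_, ?_, d1, d2⟩
    · rw [a1, QuotientGroup.eq]; exact d4 _
    · rw [a2, QuotientGroup.eq]; exact d4 _
  choose F hF using key
  refine ⟨F, ⟨?_, ?_, ?_, ?_⟩, hF⟩
  · intro i _ _ j _
    have e1 := (hF i j).2.1
    have e2 := (hF (i + 1) j).1
    have e3 := (hF i j).2.2.1
    have e4 := (hF (i + 1) j).2.2.1
    have e5 := (hF i j).2.2.2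
    have e6 := (hF (i + 1) j).2.2.2
    have c1 : (F i j)⁻¹ * F (i + 1) j ∈ col P (i + 1).bodd := by
      rw [← hl0, ← QuotientGroup.eq, ← e1, ← e2]
    have c2 : (F i j)⁻¹ * F (i + 1) j ∈ row P (m j).1 := by
      rw [← QuotientGroup.eq, ← e3, ← e4]
    have c3 : (F i j)⁻¹ * F (i + 1) j ∈ row P (m (j + 1)).1 := by
      rw [← QuotientGroup.eq, ← e5, ← e6]
    have c4 : ∀ b, (F i j)⁻¹ * F (i + 1) j ∈ row P b := by
      intro b
      have hne := (hm j).1
      have : b = (m j).1 ∨ b = (m (j + 1)).1 := by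
        cases h : (m j).1 <;> cases h' : (m (j + 1)).1 <;> cases b <;> simp_all
      rcases this with h | h <;> rw [h] <;> assumption
    exact ⟨by rw [← hP.inter]; exact ⟨c1, c4 _⟩, by rw [← hP.inter]; exact ⟨c1, c4 _⟩⟩
  · intro i _ _ j _ he
    apply hl2 i
    have e1 := (hF i j).1
    have e2 := (hF (i + 1) j).2.1
    have e3 : (l i).1 = (l (i + 2)).1 := by
      rw [hl0, hl0, Int.bodd_add, show Int.bodd 2 = false from rfl, Bool.xor_false]
    have e4 : i + 1 + 1 = i + 2 := by ring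
    rw [e4, ← he] at e2
    revert e1 e2 e3
    generalize l i = p
    generalize l (i + 2) = q
    obtain ⟨p1, p2⟩ := p
    obtain ⟨q1, q2⟩ := q
    intro e1 e2 e3
    dsimp only at e3
    subst e3
    dsimp only at e1 e2
    rw [e1, e2]
  · intro i _ j _ _
    have e1 := (hF i j).2.2.2
    have e2 := (hF i (j + 1)).2.2.1
    have e3 := (hF i j).1
    have e4 := (hF i (j + 1)).1
    have e5 := (hF i j).2.1
    have e6 := (hF i (j + 1)).2.1
    have c1 : (F i j)⁻¹ * F i (j + 1) ∈ row P (j + 1).bodd := by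
      rw [← hm0, ← QuotientGroup.eq, ← e1, ← e2]
    have c2 : (F i j)⁻¹ * F i (j + 1) ∈ col P (l i).1 := by
      rw [← QuotientGroup.eq, ← e3, ← e4]
    have c3 : (F i j)⁻¹ * F i (j + 1) ∈ col P (l (i + 1)).1 := by
      rw [← QuotientGroup.eq, ← e5, ← e6]
    have c4 : ∀ b, (F i j)⁻¹ * F i (j + 1) ∈ col P b := by
      intro b
      have hne := (hl i).1
      have : b = (l i).1 ∨ b = (l (i + 1)).1 := by
        cases h : (l i).1 <;> cases h' : (l (i + 1)).1 <;> cases b <;> simp_all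
      rcases this with h | h <;> rw [h] <;> assumption
    exact ⟨by rw [← hP.inter]; exact ⟨c4 _, c1⟩, by rw [← hP.inter]; exact ⟨c4 _, c1⟩⟩
  · intro i _ j _ _ he
    apply hm2 j
    have e1 := (hF i j).2.2.1
    have e2 := (hF i (j + 1)).2.2.2
    have e3 : (m j).1 = (m (j + 2)).1 := by
      rw [hm0, hm0, Int.bodd_add, show Int.bodd 2 = false from rfl, Bool.xor_false]
    have e4 : j + 1 + 1 = j + 2 := by ring
    rw [e4, ← he] at e2
    revert e1 e2 e3
    generalize m j = p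
    generalize m (j + 2) = q
    obtain ⟨p1, p2⟩ := p
    obtain ⟨q1, q2⟩ := q
    intro e1 e2 e3
    dsimp only at e3
    subst e3
    dsimp only at e1 e2
    rw [e1, e2]

end

end Pool.Agent.Lib.MP_140312_al_SG
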