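import Pool.Agent.Lib.MP_140312_al_SG.Array
import Pool.Agent.Lib.MP_140312_al_SG.Develop

/-!
# Lines in the two trees meeting pairwise give a flat (hypothesis-free form)
-/

namespace Pool.Agent.Lib.MP_140312_al_SG

variable {G : Type*} [Group G] {P : Bool → Bool → Subgroup G}

/-- The horizontal Bass–Serre graph of a square is a tree. -/
theorem IsSquare.colTree (hP : IsSquare P) : (BS (col P)).IsTree :=
  BS_isTree hP.altCol (col_sup hP)

/-- The vertical Bass–Serre graph of a square is a tree. -/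
theorem IsSquare.rowTree (hP : IsSquare P) : (BS (row P)).IsTree :=
  BS_isTree hP.altRow (row_sup hP)

/-- Two bi-infinite lines in the trees, all of whose vertices meet pairwise, come from an array of
squares. -/
theorem exists_array (hP : IsSquare P) (l : ℤ → Σ i : Bool, G ⧸ col P i)
    (m : ℤ → Σ j : Bool, G ⧸ row P j) (hl : ∀ i, (BS (col P)).Adj (l i) (l (i + 1)))
    (hl2 : ∀ i, l i ≠ l (i + 2)) (hl0 : ∀ i, (l i).1 = i.bodd)
    (hm : ∀ j, (BS (row P)).Adj (m j) (m (j + 1))) (hm2 : ∀ j, m j ≠ m (j + 2))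
    (hm0 : ∀ j, (m j).1 = j.bodd)
    (hlm : ∀ i j, ∃ g : G, (l i).2 = (g : G ⧸ col P (l i).1) ∧ (m j).2 = (g : G ⧸ row P (m j).1)) :
    ∃ F : ℤ → ℤ → G, IsArray P F ∧ ∀ i j, (l i).2 = (F i j : G ⧸ col P (l i).1) ∧
      (l (i + 1)).2 = (F i j : G ⧸ col P (l (i + 1)).1) ∧
      (m j).2 = (F i j : G ⧸ row P (m j).1) ∧
      (m (j + 1)).2 = (F i j : G ⧸ row P (m (j + 1)).1) :=
  exists_array_of hP hP.colTree.2 hP.rowTree.2 l m hl hl2 hl0 hm hm2 hm0 hlm

end Pool.Agent.Lib.MP_140312_al_SG
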