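import Pool.Agent.Lib.MP_140312_al_SG.SqData
import Pool.Agent.Lib.MP_140312_al_SG.AltFree

/-!
# The fundamental group of a nonpositively curved square of groups
-/

namespace Pool.Agent.Lib.MP_140312_al_SG

open Monoid

namespace SqData

variable (D : SqData)

/-- The fundamental group of the `i`-th column. -/
abbrev Col (i : Bool) : Type := PushoutI (fun j => D.v i j)

/-- The fundamental group `H = E false * E true` of the vertical hyperplane, mapped to the
column groups. -/
noncomputable def psi (i : Bool) : CoprodI D.E →* D.Col i :=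
  CoprodI.lift (fun j => (PushoutI.of (φ := fun j => D.v i j) j).comp (D.h i j))

/-- The fundamental group of the square of groups. -/
abbrev Grp : Type := PushoutI D.psi

/-- The vertex groups. -/
noncomputable def iota (i j : Bool) : D.P i j →* D.Grp :=
  (PushoutI.of (φ := D.psi) i).comp (PushoutI.of (φ := fun j => D.v i j) j)

lemma psi_injective (i : Bool) : Function.Injective (D.psi i) := by
  refine coprodI_lift_injective (altFree_pushoutI (fun j => D.v i j) (D.v_inj i)) _ ?_ ?_ ?_
  · intro j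
    exact (PushoutI.of_injective (D.v_inj i) j).comp (D.h_inj i j)
  · intro j x
    exact ⟨_, rfl⟩
  · intro j x hx
    have h1 : PushoutI.of (φ := fun j => D.v i j) j (D.h i j x) ∈
        (PushoutI.of (φ := fun j => D.v i j) j).range ⊓
          (PushoutI.of (φ := fun j => D.v i j) (!j)).range := ⟨⟨_, rfl⟩, hx⟩
    rw [PushoutI.inf_of_range_eq_base_range (D.v_inj i) (by simp)] at h1
    obtain ⟨y, hy⟩ := h1
    rw [← PushoutI.of_apply_eq_base _ j] at hy
    exact D.npc i j x y (PushoutI.of_injective (D.v_inj i) j hy.symm)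

lemma iota_injective (i j : Bool) : Function.Injective (D.iota i j) :=
  (PushoutI.of_injective D.psi_injective i).comp (PushoutI.of_injective (D.v_inj i) j)

lemma iota_compat : D.Compat D.iota := by
  constructor
  · intro j e
    have key : ∀ i, D.iota i j (D.h i j e) = PushoutI.base D.psi (CoprodI.of e) := by
      intro i
      rw [← PushoutI.of_apply_eq_base _ i]
      simp [iota, psi]
    rw [key, key]
  · intro i e
    have key : ∀ j, D.iota i j (D.v i j e) =
        PushoutI.of (φ := D.psi) i (PushoutI.base (fun j => D.v i j) e) := by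
      intro j
      rw [← PushoutI.of_apply_eq_base _ j]
      rfl
    rw [key, key]

lemma exists_lift {M : Type*} [Group M] (f : ∀ i j, D.P i j →* M) (hf : D.Compat f) :
    ∃ F : D.Grp →* M, ∀ i j x, F (D.iota i j x) = f i j x := by
  let fi : ∀ i, D.Col i →* M := fun i =>
    PushoutI.lift (φ := fun j => D.v i j) (fun j => f i j) ((f i false).comp (D.v i false)) (by
      intro j
      ext e
      cases j
      · rfl
      · exact (hf.2 i e).symm)
  have hfi : ∀ i j x, fi i (PushoutI.of (φ := fun j => D.v i j) j x) = f i j x := by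
    intro i j x
    exact PushoutI.lift_of (φ := fun j => D.v i j) _ _ _ x
  let F : D.Grp →* M := PushoutI.lift (φ := D.psi) fi ((fi false).comp (D.psi false)) (by
    intro i
    refine CoprodI.ext_hom _ _ fun j => ?_
    ext e
    have key : ∀ i, fi i (D.psi i (CoprodI.of e)) = f i j (D.h i j e) := by
      intro i
      simp only [psi, CoprodI.lift_of, MonoidHom.comp_apply]
      exact hfi i j _
    simp only [MonoidHom.comp_apply]
    rw [key, key]
    cases i
    · rfl
    · exact (hf.1 j e).symm)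
  refine ⟨F, fun i j x => ?_⟩
  have h1 : F (D.iota i j x) = fi i (PushoutI.of (φ := fun j => D.v i j) j x) :=
    PushoutI.lift_of (φ := D.psi) _ _ _ _
  rw [h1, hfi]

/-- The vertex groups as subgroups. -/
noncomputable def Pr (i j : Bool) : Subgroup D.Grp := (D.iota i j).range

/-- The horizontal edge groups as subgroups. -/
noncomputable def Er (j : Bool) : Subgroup D.Grp := ((D.iota false j).comp (D.h false j)).range

/-- The vertical edge groups as subgroups. -/
noncomputable def Fr (i : Bool) : Subgroup D.Grp := ((D.iota i false).comp (D.v i false)).range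

lemma Er_eq (i j : Bool) : D.Er j = ((D.iota i j).comp (D.h i j)).range := by
  cases i
  · rfl
  · have : (D.iota false j).comp (D.h false j) = (D.iota true j).comp (D.h true j) := by
      ext e
      exact D.iota_compat.1 j e
    rw [Er, this]

lemma Fr_eq (i j : Bool) : D.Fr i = ((D.iota i j).comp (D.v i j)).range := by
  cases j
  · rfl
  · have : (D.iota i false).comp (D.v i false) = (D.iota i true).comp (D.v i true) := by
      ext e
      exact D.iota_compat.2 i e
    rw [Fr, this]

lemma range_sup_range {H : Type*} {Γ : Bool → Type*} [∀ i, Group (Γ i)] [Group H]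
    (φ : ∀ i, H →* Γ i) :
    (PushoutI.of (φ := φ) false).range ⊔ (PushoutI.of (φ := φ) true).range = ⊤ := by
  rw [eq_top_iff]
  rintro x -
  have hof : ∀ (i : Bool) (g : Γ i), PushoutI.of (φ := φ) i g ∈
      (PushoutI.of (φ := φ) false).range ⊔ (PushoutI.of (φ := φ) true).range := by
    intro i g
    cases i
    · exact (le_sup_left : (PushoutI.of (φ := φ) false).range ≤ _) ⟨g, rfl⟩
    · exact (le_sup_right : (PushoutI.of (φ := φ) true).range ≤ _) ⟨g, rfl⟩
  induction x using PushoutI.induction_on with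
  | of i g => exact hof i g
  | base h =>
    rw [← PushoutI.of_apply_eq_base φ false]
    exact hof _ _
  | mul x y hx hy => exact mul_mem hx hy

lemma Pr_eq_map (i j : Bool) : D.Pr i j =
    ((PushoutI.of (φ := fun j => D.v i j) j).range).map (PushoutI.of (φ := D.psi) i) := by
  rw [Pr, iota, MonoidHom.range_comp]

lemma col_Pr (i : Bool) : col D.Pr i = (PushoutI.of (φ := D.psi) i).range := by
  rw [col, Pr_eq_map, Pr_eq_map, ← Subgroup.map_sup, range_sup_range, ← MonoidHom.range_eq_map]

lemma gen_Pr : ⨆ i, ⨆ j, D.Pr i j = ⊤ := by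
  have h1 : ∀ i, ⨆ j, D.Pr i j = col D.Pr i := by
    intro i
    rw [iSup_bool_eq, sup_comm, col]
  simp_rw [h1]
  rw [iSup_bool_eq, col_Pr, col_Pr, sup_comm]
  exact range_sup_range D.psi

lemma base_range : (PushoutI.base D.psi).range = D.Er false ⊔ D.Er true := by
  have h1 : PushoutI.base D.psi = CoprodI.lift (fun j => (D.iota false j).comp (D.h false j)) := by
    refine CoprodI.ext_hom _ _ fun j => ?_
    ext e
    simp only [MonoidHom.comp_apply, CoprodI.lift_of]
    rw [← PushoutI.of_apply_eq_base _ false]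
    simp [iota, psi]
  rw [h1, CoprodI.range_eq_iSup, iSup_bool_eq, sup_comm]
  rfl

lemma interCol_Pr : col D.Pr false ⊓ col D.Pr true = D.Er false ⊔ D.Er true := by
  rw [col_Pr, col_Pr, ← base_range, PushoutI.inf_of_range_eq_base_range D.psi_injective (by simp)]

lemma altCol_Pr : AltFree (col D.Pr) := by
  have h1 : col D.Pr = fun i => (PushoutI.of (φ := D.psi) i).range := by
    funext i
    exact D.col_Pr i
  rw [h1]
  exact altFree_pushoutI D.psi D.psi_injective

lemma altColCol_Pr (i : Bool) : AltFree (D.Pr i) := by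
  have h1 : D.Pr i = fun j => ((PushoutI.of (φ := fun j => D.v i j) j).range).map
      (PushoutI.of (φ := D.psi) i) := by
    funext j
    exact D.Pr_eq_map i j
  rw [h1]
  exact (altFree_pushoutI (fun j => D.v i j) (D.v_inj i)).map _
    (PushoutI.of_injective D.psi_injective i)

lemma psi_range (i : Bool) : (D.psi i).range =
    ((PushoutI.of (φ := fun j => D.v i j) false).comp (D.h i false)).range ⊔
      ((PushoutI.of (φ := fun j => D.v i j) true).comp (D.h i true)).range := by
  rw [psi, CoprodI.range_eq_iSup, iSup_bool_eq, sup_comm]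

lemma Pr_inf_base (i j : Bool) : (D.Er false ⊔ D.Er true) ⊓ D.Pr i j = D.Er j := by
  have hQ := altFree_pushoutI (fun j => D.v i j) (D.v_inj i)
  have h1 := (hQ.sub (D := fun j =>
    ((PushoutI.of (φ := fun j => D.v i j) j).comp (D.h i j)).range) ?_ ?_).2 j
  · have h2 := congrArg (Subgroup.map (PushoutI.of (φ := D.psi) i)) h1
    rw [Subgroup.map_inf _ _ _ (PushoutI.of_injective D.psi_injective i), Subgroup.map_sup,
      ← Pr_eq_map] at h2
    have h3 : ∀ j, Subgroup.map (PushoutI.of (φ := D.psi) i)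
        (((PushoutI.of (φ := fun j => D.v i j) j).comp (D.h i j)).range) = D.Er j := by
      intro j
      rw [D.Er_eq i j, MonoidHom.map_range]
      rfl
    rw [h3, h3, h3] at h2
    exact h2
  · intro j
    rintro _ ⟨x, rfl⟩
    exact ⟨_, rfl⟩
  · intro j
    rintro _ ⟨⟨x, rfl⟩, hx⟩
    have h1 : PushoutI.of (φ := fun j => D.v i j) j (D.h i j x) ∈
        (PushoutI.of (φ := fun j => D.v i j) j).range ⊓
          (PushoutI.of (φ := fun j => D.v i j) (!j)).range := ⟨⟨_, rfl⟩, hx⟩
    rw [PushoutI.inf_of_range_eq_base_range (D.v_inj i) (by simp)] at h1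
    obtain ⟨y, hy⟩ := h1
    rw [← PushoutI.of_apply_eq_base _ j] at hy
    have h2 := D.npc i j x y (PushoutI.of_injective (D.v_inj i) j hy.symm)
    subst h2
    rw [map_one]
    exact one_mem _

lemma Er_le (i j : Bool) : D.Er j ≤ D.Pr i j := by
  rw [D.Er_eq i j]
  rintro _ ⟨x, rfl⟩
  exact ⟨_, rfl⟩

lemma Pr_le_col (i j : Bool) : D.Pr i j ≤ col D.Pr i := by
  cases j
  · exact le_sup_left
  · exact le_sup_right

lemma row_sub (j : Bool) : AltFree (fun i => D.Pr i j) ∧
    ∀ i, row D.Pr j ⊓ col D.Pr i = D.Pr i j := by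
  refine D.altCol_Pr.sub (D := fun i => D.Pr i j) (fun i => D.Pr_le_col i j) ?_
  intro i x hx
  have h1 : x ∈ D.Er false ⊔ D.Er true := by
    rw [← interCol_Pr]
    cases i
    · exact ⟨D.Pr_le_col _ _ hx.1, hx.2⟩
    · exact ⟨hx.2, D.Pr_le_col _ _ hx.1⟩
  have h2 : x ∈ D.Er j := by
    rw [← D.Pr_inf_base i j]
    exact ⟨h1, hx.1⟩
  exact D.Er_le _ _ h2

lemma hedge_Pr (j : Bool) : hedge D.Pr j = D.Er j := by
  refine le_antisymm ?_ (le_inf (D.Er_le _ _) (D.Er_le _ _))
  intro x hx
  rw [← D.Pr_inf_base false j, ← interCol_Pr]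
  exact ⟨⟨D.Pr_le_col _ _ hx.1, D.Pr_le_col _ _ hx.2⟩, hx.1⟩

lemma vedge_Pr (i : Bool) : vedge D.Pr i = D.Fr i := by
  rw [vedge, Pr_eq_map, Pr_eq_map, ← Subgroup.map_inf _ _ _
    (PushoutI.of_injective D.psi_injective i),
    PushoutI.inf_of_range_eq_base_range (D.v_inj i) (by simp), MonoidHom.map_range, Fr]
  congr 1
  ext x
  rw [MonoidHom.comp_apply, ← PushoutI.of_apply_eq_base _ false]
  rfl

lemma npc_Pr (i j : Bool) : hedge D.Pr j ⊓ vedge D.Pr i = ⊥ := by
  rw [hedge_Pr, vedge_Pr, D.Er_eq i j, D.Fr_eq i j, eq_bot_iff]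
  rintro _ ⟨⟨x, rfl⟩, ⟨y, hy⟩⟩
  have h1 := D.npc i j x y (D.iota_injective i j hy.symm)
  subst h1
  simp

/-- Homomorphisms out of `D.Grp` agreeing on the vertex groups are equal. -/
lemma hom_ext' {M : Type*} [Group M] {f g : D.Grp →* M}
    (h : ∀ i j x, f (D.iota i j x) = g (D.iota i j x)) : f = g := by
  have h1 : ∀ x, x ∈ f.eqLocus g := by
    intro x
    have h2 : ⨆ i, ⨆ j, D.Pr i j ≤ f.eqLocus g := by
      refine iSup_le fun i => iSup_le fun j => ?_
      rintro _ ⟨x, rfl⟩
      exact h i j x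
    rw [gen_Pr] at h2
    exact h2 (Subgroup.mem_top x)
  exact MonoidHom.ext h1

lemma exists_transpose : ∃ Ψ : D.tr.Grp →* D.Grp, Function.Injective Ψ ∧
    (∀ i j x, Ψ (D.tr.iota j i x) = D.iota i j x) := by
  obtain ⟨Φ, hΦ⟩ := D.exists_lift (M := D.tr.Grp) (fun i j => D.tr.iota j i)
    ⟨fun j e => D.tr.iota_compat.2 j e, fun i e => D.tr.iota_compat.1 i e⟩
  obtain ⟨Ψ, hΨ⟩ := D.tr.exists_lift (M := D.Grp) (fun i j => D.iota j i)
    ⟨fun j e => D.iota_compat.2 j e, fun i e => D.iota_compat.1 i e⟩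
  refine ⟨Ψ, ?_, fun i j x => hΨ j i x⟩
  have h1 : Φ.comp Ψ = MonoidHom.id _ := by
    apply D.tr.hom_ext'
    intro i j x
    exact (congrArg Φ (hΨ i j x)).trans (hΦ j i x)
  intro x y hxy
  have h2 := congrArg (fun f => f x) h1
  have h3 := congrArg (fun f => f y) h1
  simp only [MonoidHom.comp_apply, MonoidHom.id_apply] at h2 h3
  rw [← h2, ← h3, hxy]

lemma row_Pr_map (Ψ : D.tr.Grp →* D.Grp) (hΨ : ∀ i j x, Ψ (D.tr.iota j i x) = D.iota i j x)
    (i j : Bool) : (D.tr.Pr j i).map Ψ = D.Pr i j := by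
  rw [Pr, MonoidHom.map_range, Pr]
  congr 1
  ext x
  exact hΨ i j x

theorem isSquare_Pr : IsSquare D.Pr := by
  obtain ⟨Ψ, hinj, hΨ⟩ := D.exists_transpose
  have hrow : ∀ j, (col D.tr.Pr j).map Ψ = row D.Pr j := by
    intro j
    rw [col, Subgroup.map_sup, D.row_Pr_map Ψ hΨ, D.row_Pr_map Ψ hΨ]
    rfl
  refine ⟨D.gen_Pr, D.altCol_Pr, ?_, D.altColCol_Pr, fun j => (D.row_sub j).1, ?_, ?_, ?_,
    D.npc_Pr⟩
  · have h1 := D.tr.altCol_Pr.map Ψ hinj
    have h2 : (fun i => (col D.tr.Pr i).map Ψ) = row D.Pr := by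
      funext j
      exact hrow j
    rw [h2] at h1
    exact h1
  · intro i j
    rw [inf_comm]
    exact (D.row_sub j).2 i
  · rw [D.interCol_Pr, D.hedge_Pr, D.hedge_Pr]
  · have h1 := congrArg (Subgroup.map Ψ) D.tr.interCol_Pr
    rw [Subgroup.map_inf _ _ _ hinj, Subgroup.map_sup, hrow, hrow] at h1
    rw [h1, vedge_Pr, vedge_Pr]
    have h2 : ∀ i, (D.tr.Er i).map Ψ = D.Fr i := by
      intro i
      rw [Er, MonoidHom.map_range, Fr]
      congr 1
      ext x
      exact hΨ i false _
    rw [h2, h2]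

end SqData

/-- The fundamental group of a nonpositively curved square of groups. -/
theorem exists_colimit (D : SqData) : ∃ (G : Type) (_ : Group G) (ι : ∀ i j, D.P i j →* G),
    D.Compat ι ∧ (∀ i j, Function.Injective (ι i j)) ∧
    (∀ (M : Type) [Group M] (f : ∀ i j, D.P i j →* M), D.Compat f →
      ∃ F : G →* M, ∀ i j x, F (ι i j x) = f i j x) ∧
    IsSquare (fun i j => (ι i j).range) ∧
    (∀ j, hedge (fun i j => (ι i j).range) j = ((ι false j).comp (D.h false j)).range) ∧
    (∀ i, vedge (fun i j => (ι i j).range) i = ((ι i false).comp (D.v i false)).range) :=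
  ⟨D.Grp, inferInstance, D.iota, D.iota_compat, D.iota_injective,
    fun _ _ f hf => D.exists_lift f hf, D.isSquare_Pr, D.hedge_Pr, D.vedge_Pr⟩

end Pool.Agent.Lib.MP_140312_al_SG
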