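import Mathlib
import Pool.Agent.Lib.MP_140312_al.Defs

/-!
# Squares of groups and their developments (definitions)

`P i j` (`i j : Bool`) are the four vertex groups of a square of groups inside a group `G`.
* column groups `col P i = P i false ⊔ P i true` (stabilisers of the vertices of the horizontal
  tree `Tₕ`), row groups `row P j = P false j ⊔ P true j` (vertices of the vertical tree `Tᵥ`);
* horizontal edge groups `P false j ⊓ P true j` (`A` for `j = false`, `K` for `j = true`),
  vertical edge groups `P i false ⊓ P i true` (`B` for `i = false`, `L` for `i = true`).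
-/

namespace Pool.Agent.Lib.MP_140312_al_SG

open Pool.Agent.Lib.MP_140312_al

variable {G : Type*} [Group G]

/-- No nonempty alternating word in the letters of `Q false \ Q true` and `Q true \ Q false`
represents `1`: the subgroup generated by `Q false`, `Q true` is their amalgamated product over
`Q false ⊓ Q true`. -/
def AltFree (Q : Bool → Subgroup G) : Prop :=
  ∀ w : List G, w ≠ [] → (∀ x ∈ w, ∃ i : Bool, x ∈ Q i ∧ x ∉ Q (!i)) →
    w.IsChain (fun x y => ∃ i : Bool, x ∈ Q i ∧ y ∈ Q (!i)) → w.prod ≠ 1

/-- The Bass–Serre graph of two subgroups: its vertices are the cosets of `Q false` and of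
`Q true`, and `g Q false`, `g Q true` are adjacent. -/
def BS (Q : Bool → Subgroup G) : SimpleGraph (Σ i : Bool, G ⧸ Q i) where
  Adj x y := x.1 ≠ y.1 ∧ ∃ g : G, x.2 = (g : G ⧸ Q x.1) ∧ y.2 = (g : G ⧸ Q y.1)
  symm := ⟨fun _ _ h => ⟨h.1.symm, h.2.imp fun _ hg => ⟨hg.2, hg.1⟩⟩⟩
  loopless := ⟨fun _ h => h.1 rfl⟩

/-- The column group `⟨P i false, P i true⟩`. -/
def col (P : Bool → Bool → Subgroup G) (i : Bool) : Subgroup G := P i false ⊔ P i true

/-- The row group `⟨P false j, P true j⟩`. -/
def row (P : Bool → Bool → Subgroup G) (j : Bool) : Subgroup G := P false j ⊔ P true j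

/-- Transposition of a square of groups. -/
def tr (P : Bool → Bool → Subgroup G) : Bool → Bool → Subgroup G := fun i j => P j i

@[simp] lemma col_tr (P : Bool → Bool → Subgroup G) : col (tr P) = row P := rfl
@[simp] lemma row_tr (P : Bool → Bool → Subgroup G) : row (tr P) = col P := rfl
@[simp] lemma tr_tr (P : Bool → Bool → Subgroup G) : tr (tr P) = P := rfl

/-- The horizontal edge group in row `j`: `A` for `j = false`, `K` for `j = true`. -/
def hedge (P : Bool → Bool → Subgroup G) (j : Bool) : Subgroup G := P false j ⊓ P true j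

/-- The vertical edge group in column `i`: `B` for `i = false`, `L` for `i = true`. -/
def vedge (P : Bool → Bool → Subgroup G) (i : Bool) : Subgroup G := P i false ⊓ P i true

@[simp] lemma hedge_tr (P : Bool → Bool → Subgroup G) : hedge (tr P) = vedge P := rfl
@[simp] lemma vedge_tr (P : Bool → Bool → Subgroup G) : vedge (tr P) = hedge P := rfl

/-- `G` is the fundamental group of the nonpositively curved square of groups `P` with trivial
face group, in the form in which it is used: both splittings
`G = col false *_H col true` and `G = row false *_H' row true`. -/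
structure IsSquare (P : Bool → Bool → Subgroup G) : Prop where
  gen : ⨆ i, ⨆ j, P i j = ⊤
  altCol : AltFree (col P)
  altRow : AltFree (row P)
  altColCol : ∀ i, AltFree (P i)
  altRowRow : ∀ j, AltFree (fun i => P i j)
  inter : ∀ i j, col P i ⊓ row P j = P i j
  interCol : col P false ⊓ col P true = hedge P false ⊔ hedge P true
  interRow : row P false ⊓ row P true = vedge P false ⊔ vedge P true
  npc : ∀ i j, hedge P j ⊓ vedge P i = ⊥

lemma IsSquare.tr {P : Bool → Bool → Subgroup G} (h : IsSquare P) : IsSquare (tr P) where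
  gen := by
    rw [← h.gen, iSup_comm]
    rfl
  altCol := h.altRow
  altRow := h.altCol
  altColCol := h.altRowRow
  altRowRow := h.altColCol
  inter := fun i j => by
    rw [inf_comm]
    exact h.inter j i
  interCol := h.interRow
  interRow := h.interCol
  npc := fun i j => by
    rw [inf_comm]
    exact h.npc j i

/-- The vertices of the development: cosets of the vertex groups. -/
abbrev Vtx (P : Bool → Bool → Subgroup G) : Type _ := Σ p : Bool × Bool, G ⧸ P p.1 p.2

/-- The `1`-skeleton of the development. Two vertices of types `(i, j)`, `(i', j')` are adjacent if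
the types differ in exactly one coordinate and the vertices are vertices of a common square
`g`. -/
def Dev (P : Bool → Bool → Subgroup G) : SimpleGraph (Vtx P) where
  Adj x y := ((x.1.1 ≠ y.1.1 ∧ x.1.2 = y.1.2) ∨ (x.1.1 = y.1.1 ∧ x.1.2 ≠ y.1.2)) ∧
    ∃ g : G, x.2 = (g : G ⧸ P x.1.1 x.1.2) ∧ y.2 = (g : G ⧸ P y.1.1 y.1.2)
  symm := ⟨fun _ _ h => ⟨by
    rcases h.1 with h | h
    · exact Or.inl ⟨h.1.symm, h.2.symm⟩
    · exact Or.inr ⟨h.1.symm, h.2.symm⟩, h.2.imp fun _ hg => ⟨hg.2, hg.1⟩⟩⟩
  loopless := ⟨fun _ h => by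
    rcases h.1 with h | h
    · exact h.1 rfl
    · exact h.2 rfl⟩

/-- A flat, as an array of squares (elements of `G`): the squares `F i j`, `F (i+1) j` have a common
vertical edge, of type `i + 1 mod 2`, the squares `F i j`, `F i (j+1)` a common horizontal edge, of
type `j + 1 mod 2`; consecutive squares are different. The window `Icc`-bounds allow finite
arrays: only the squares `(i, j)` with `i ∈ I`, `j ∈ J` are looked at. -/
structure IsArrayOn (P : Bool → Bool → Subgroup G) (I J : Set ℤ) (F : ℤ → ℤ → G) : Prop where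
  hmem : ∀ i ∈ I, i + 1 ∈ I → ∀ j ∈ J, (F i j)⁻¹ * F (i + 1) j ∈ vedge P (i + 1).bodd
  hne : ∀ i ∈ I, i + 1 ∈ I → ∀ j ∈ J, F i j ≠ F (i + 1) j
  vmem : ∀ i ∈ I, ∀ j ∈ J, j + 1 ∈ J → (F i j)⁻¹ * F i (j + 1) ∈ hedge P (j + 1).bodd
  vne : ∀ i ∈ I, ∀ j ∈ J, j + 1 ∈ J → F i j ≠ F i (j + 1)

/-- A bi-infinite flat, as an array of squares. -/
def IsArray (P : Bool → Bool → Subgroup G) (F : ℤ → ℤ → G) : Prop :=
  IsArrayOn P Set.univ Set.univ F

/-- The Cayley graph of `G` with respect to `S`. -/
def cayley (S : Set G) : SimpleGraph G where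
  Adj g h := g ≠ h ∧ (g⁻¹ * h ∈ S ∨ h⁻¹ * g ∈ S)
  symm := ⟨fun _ _ h => ⟨h.1.symm, h.2.symm⟩⟩
  loopless := ⟨fun _ h => h.1 rfl⟩

end Pool.Agent.Lib.MP_140312_al_SG
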