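import Pool.Agent.Lib.MP_140312_al_SG.ArrayFinal
import Pool.Agent.Lib.MP_140312_al_SG.Flat

/-!
# A copy of `ℤ × ℤ` gives a translated flat (hypothesis-free form)
-/

namespace Pool.Agent.Lib.MP_140312_al_SG

/-- If the fundamental group of a square of finite groups contains `ℤ × ℤ`, then some element
translates a flat. -/
theorem exists_translated_flat {G : Type*} [Group G] {P : Bool → Bool → Subgroup G}
    (hP : IsSquare P) (hfin : ∀ i j, Finite (P i j))
    (φ : Multiplicative (ℤ × ℤ) →* G) (hφ : Function.Injective φ) :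
    ∃ (F : ℤ → ℤ → G) (h : G) (x y : ℤ), IsArray P F ∧ (x ≠ 0 ∨ y ≠ 0) ∧
      ∀ i j, h * F i j = F (i + x) (j + y) :=
  exists_translated_flat_of hP hP.colTree hP.rowTree hfin φ hφ

end Pool.Agent.Lib.MP_140312_al_SG
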