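import Pool.Agent.Lib.MP_140312_al_SG.Defs

/-!
# The two projections of the development of a square of groups
-/

namespace Pool.Agent.Lib.MP_140312_al_SG

open Pool.Agent.Lib.MP_140312_al

variable {G : Type*} [Group G] {P : Bool → Bool → Subgroup G}

/-- The horizontal coordinate of a vertex. -/
def px (P : Bool → Bool → Subgroup G) (x : Vtx P) : Σ i : Bool, G ⧸ col P i :=
  ⟨x.1.1, Quotient.map' id (fun a b hab => by
    rw [QuotientGroup.leftRel_apply] at hab ⊢
    have : P x.1.1 x.1.2 ≤ col P x.1.1 := by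
      cases h : x.1.2
      · exact le_sup_left
      · exact le_sup_right
    exact this hab) x.2⟩

/-- The vertical coordinate of a vertex. -/
def py (P : Bool → Bool → Subgroup G) (x : Vtx P) : Σ j : Bool, G ⧸ row P j :=
  ⟨x.1.2, Quotient.map' id (fun a b hab => by
    rw [QuotientGroup.leftRel_apply] at hab ⊢
    have : P x.1.1 x.1.2 ≤ row P x.1.2 := by
      cases h : x.1.1
      · exact le_sup_left
      · exact le_sup_right
    exact this hab) x.2⟩

@[simp] lemma px_mk (i j : Bool) (g : G) :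
    px P ⟨(i, j), (g : G ⧸ P i j)⟩ = ⟨i, (g : G ⧸ col P i)⟩ := rfl

@[simp] lemma py_mk (i j : Bool) (g : G) :
    py P ⟨(i, j), (g : G ⧸ P i j)⟩ = ⟨j, (g : G ⧸ row P j)⟩ := rfl

/-- Every vertex `(v, t)` of `Tₕ × Tᵥ` with `t` in the fibre over `v`. -/
theorem exists_vtx_iff (v : Σ i : Bool, G ⧸ col P i) (t : Σ j : Bool, G ⧸ row P j) :
    (∃ x : Vtx P, px P x = v ∧ py P x = t) ↔ ∃ g : G, v.2 = (g : G ⧸ col P v.1) ∧
      t.2 = (g : G ⧸ row P t.1) := by
  constructor
  · rintro ⟨⟨⟨i, j⟩, q⟩, rfl, rfl⟩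
    induction q using QuotientGroup.induction_on with
    | H g => exact ⟨g, rfl, rfl⟩
  · obtain ⟨i, a⟩ := v
    obtain ⟨j, b⟩ := t
    rintro ⟨g, h1, h2⟩
    dsimp only at h1 h2
    subst h1 h2
    exact ⟨⟨(i, j), (g : G ⧸ P i j)⟩, rfl, rfl⟩

/-- A vertex is determined by its two coordinates. -/
theorem vtx_ext (hP : IsSquare P) {x y : Vtx P} (h1 : px P x = px P y) (h2 : py P x = py P y) :
    x = y := by
  obtain ⟨⟨i, j⟩, q⟩ := x
  obtain ⟨⟨i', j'⟩, q'⟩ := y
  have hi : i = i' := congrArg Sigma.fst h1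
  have hj : j = j' := congrArg Sigma.fst h2
  subst hi hj
  induction q using QuotientGroup.induction_on with
  | H g =>
    induction q' using QuotientGroup.induction_on with
    | H g' =>
      rw [px_mk, px_mk, Sigma.mk.injEq] at h1
      rw [py_mk, py_mk, Sigma.mk.injEq] at h2
      have h1' := QuotientGroup.eq.mp (eq_of_heq h1.2)
      have h2' := QuotientGroup.eq.mp (eq_of_heq h2.2)
      have : g⁻¹ * g' ∈ P i j := by
        rw [← hP.inter]
        exact ⟨h1', h2'⟩
      rw [QuotientGroup.eq.mpr this]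

end Pool.Agent.Lib.MP_140312_al_SG
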