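import Pool.Agent.Lib.MP_140312_al_SG.Defs

/-!
# Squares of groups: the data
-/

namespace Pool.Agent.Lib.MP_140312_al_SG

/-- The data of a nonpositively curved square of groups with trivial face group. -/
structure SqData where
  /-- vertex groups -/
  P : Bool → Bool → Type
  /-- horizontal edge groups -/
  E : Bool → Type
  /-- vertical edge groups -/
  F : Bool → Type
  [grpP : ∀ i j, Group (P i j)]
  [grpE : ∀ j, Group (E j)]
  [grpF : ∀ i, Group (F i)]
  h : ∀ i j, E j →* P i j
  v : ∀ i j, F i →* P i j
  h_inj : ∀ i j, Function.Injective (h i j)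
  v_inj : ∀ i j, Function.Injective (v i j)
  npc : ∀ i j e f, h i j e = v i j f → e = 1

attribute [instance] SqData.grpP SqData.grpE SqData.grpF

/-- The homomorphisms `f i j : P i j → M` are compatible on the edge groups. -/
def SqData.Compat (D : SqData) {M : Type*} [Group M] (f : ∀ i j, D.P i j →* M) : Prop :=
  (∀ j e, f false j (D.h false j e) = f true j (D.h true j e)) ∧
    ∀ i e, f i false (D.v i false e) = f i true (D.v i true e)

/-- The transposed data. -/
def SqData.tr (D : SqData) : SqData where
  P := fun i j => D.P j i
  E := D.F
  F := D.E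
  h := fun i j => D.v j i
  v := fun i j => D.h j i
  h_inj := fun i j => D.v_inj j i
  v_inj := fun i j => D.h_inj j i
  npc := fun i j e f hef => by
    have h1 := D.npc j i f e hef.symm
    rw [h1, map_one] at hef
    exact D.v_inj j i (hef.trans (map_one _).symm)

end Pool.Agent.Lib.MP_140312_al_SG
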